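import Mathlib

/-!
# Randomised real circuits with few NOT gates: the model

Registers hold real numbers.  A gate is an arbitrary nondecreasing function of two sources, the maximum
or the minimum of any number of sources, or a NOT gate: an antitone Boolean test of one source.
-/

set_option autoImplicit false

namespace Pool.Agent.NegTri

open Classical

/-! ### circuits -/

/-- A source: an input bit, a constant, or the register number `i` (the output of the gate
number `i`). -/
inductive Src (E : Type) where
  | inp (e : E)
  | cst (a : ℝ)
  | reg (i : ℕ)

/-- The value of a source on the input `x`; `v` is the list of the outputs of the earlier gates (a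
register which has not been written yet holds `0`). -/
noncomputable def Src.val {E : Type} (x : Set E) (v : List ℝ) : Src E → ℝ
  | Src.inp e => if e ∈ x then 1 else 0
  | Src.cst a => a
  | Src.reg i => v.getD i 0

/-- The gates: a function of two sources; the maximum of a nonempty list of sources; the minimum of a
nonempty list of sources; a NOT gate, that is, a Boolean test of one source. -/
inductive Gate (E : Type) where
  | mono (φ : ℝ → ℝ → ℝ) (s t : Src E)
  | mx (s : Src E) (l : List (Src E))
  | mn (s : Src E) (l : List (Src E))
  | neg (ψ : ℝ → Bool) (s : Src E)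

/-- The output of a gate. -/
noncomputable def Gate.val {E : Type} (x : Set E) (v : List ℝ) : Gate E → ℝ
  | Gate.mono φ s t => φ (s.val x v) (t.val x v)
  | Gate.mx s l => l.foldr (fun t m => max (t.val x v) m) (s.val x v)
  | Gate.mn s l => l.foldr (fun t m => min (t.val x v) m) (s.val x v)
  | Gate.neg ψ s => if ψ (s.val x v) = true then 1 else 0

/-- The function of a gate `mono` is nondecreasing; the test of a NOT gate is antitone: if it answers
`true` (output `1`) on a number, it does so on all smaller numbers. -/
def Gate.Ok {E : Type} : Gate E → Prop
  | Gate.mono φ _ _ => ∀ a a' b b' : ℝ, a ≤ a' → b ≤ b' → φ a b ≤ φ a' b'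
  | Gate.mx _ _ => True
  | Gate.mn _ _ => True
  | Gate.neg ψ _ => ∀ a b : ℝ, a ≤ b → ψ b = true → ψ a = true

/-- Is the gate a NOT gate? -/
def Gate.isNeg {E : Type} : Gate E → Bool
  | Gate.neg _ _ => true
  | _ => false

/-- The outputs of the gates, in the order of the computation. -/
noncomputable def run {E : Type} (x : Set E) (gs : List (Gate E)) : List ℝ :=
  gs.foldl (fun v g => v ++ [g.val x v]) []

/-- A circuit: a list of gates and an output source. -/
structure Circ (E : Type) where
  gates : List (Gate E)
  ok : ∀ g ∈ gates, g.Ok
  out : Src E

/-- The output of the circuit. -/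
noncomputable def Circ.val {E : Type} (C : Circ E) (x : Set E) : ℝ := C.out.val x (run x C.gates)

/-- The circuit accepts the input `x` if its output is positive. -/
def Circ.Acc {E : Type} (C : Circ E) (x : Set E) : Prop := 0 < C.val x

/-- The size: the number of gates. -/
def Circ.size {E : Type} (C : Circ E) : ℕ := C.gates.length

/-- The number of NOT gates. -/
def Circ.negs {E : Type} (C : Circ E) : ℕ := C.gates.countP Gate.isNeg

/-- The probability that the random circuit `C` accepts `x`. -/
noncomputable def prob {E Ω : Type} [Fintype Ω] (p : Ω → ℝ) (C : Ω → Circ E) (x : Set E) : ℝ :=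
  ∑ ω, if (C ω).Acc x then p ω else 0

/-- The random circuit `C` (with the distribution `p`) detects triangles in graphs on `v` vertices with
error at most `1/3`. -/
def Detects (v : ℕ) {Ω : Type} [Fintype Ω] (p : Ω → ℝ) (C : Ω → Circ (Sym2 (Fin v))) : Prop :=
  (∀ ω, 0 ≤ p ω) ∧ ∑ ω, p ω = 1 ∧
  ∀ G : SimpleGraph (Fin v),
    (¬ G.CliqueFree 3 → 2 / 3 ≤ prob p C G.edgeSet) ∧ (G.CliqueFree 3 → prob p C G.edgeSet ≤ 1 / 3)

end Pool.Agent.NegTri
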