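import Mathlib
import Pool.Agent.NegTri.Defs

/-!
# Randomised real circuits with few negations that detect triangles

Architect: helper21 (project NegTri, MP_ad5e8e_lc, hand-in NegationLimitedTriangle).

MAIN THEOREM (`S_MAIN`). Registers hold real numbers. A gate is an arbitrary nondecreasing function of
two registers, the maximum or the minimum of any number of registers, or a NOT gate: an antitone
Boolean test of one register. A random circuit (a finite probability space of circuits) which detects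
triangles in graphs on `v` vertices with error at most `1/3` and with at most `r` NOT gates has expected
size at least `v ^ (3 - ε) / 2 ^ (3 r / 2)` for `v ≥ v0 (ε)`.

Every module proves one theorem `t_XXX : S_XXX` (or `t_XXX : M_XXX`, an implication between
statements, if its proof uses other modules).  The complete paper proof is in the comment at the
statement.
-/

set_option autoImplicit false

namespace Pool.Agent.NegTri

open Classical

/-! ### the main theorem -/

/-- MAIN THEOREM: the lower bound, and the consequence that few NOT gates do not give an algorithm of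
size `v ^ (2 + o(1))`, that is, nearly linear in the number of input bits. -/
def S_MAIN : Prop :=
  (∀ ε : ℝ, 0 < ε → ∃ v₀ : ℕ, ∀ v : ℕ, v₀ ≤ v → ∀ (r : ℕ) (Ω : Type) [Fintype Ω] (p : Ω → ℝ)
    (C : Ω → Circ (Sym2 (Fin v))), Detects v p C → (∀ ω, (C ω).negs ≤ r) →
      (v : ℝ) ^ (3 - ε) / 2 ^ (3 * (r : ℝ) / 2) ≤ ∑ ω, p ω * (C ω).size) ∧
  (∀ γ : ℝ, 0 < γ → ∃ v₀ : ℕ, ∀ v : ℕ, v₀ ≤ v → ∀ (r : ℕ) (Ω : Type) [Fintype Ω] (p : Ω → ℝ)
    (C : Ω → Circ (Sym2 (Fin v))), Detects v p C → (∀ ω, (C ω).negs ≤ r) →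
      (r : ℝ) ≤ (2 / 3 - γ) * Real.logb 2 v → (v : ℝ) ^ (2 + γ) ≤ ∑ ω, p ω * (C ω).size)

/-! ### the monotone approximations -/

/-- `Hit I x`: the disjunction of the variables in `I` is true at `x` (`none` stands for the constant
`true`). -/
def Hit {E : Type} (I : Option (Finset E)) (x : Set E) : Prop :=
  ∀ F, I = some F → ∃ e ∈ F, e ∈ x

/-- `x` meets every set in `Cl`. -/
def HitAll {E : Type} (Cl : Finset (Finset E)) (x : Set E) : Prop := ∀ K ∈ Cl, ∃ e ∈ K, e ∈ x

/-- `x` contains a set in `Dm`. -/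
def Cont {E : Type} (Dm : Finset (Finset E)) (x : Set E) : Prop := ∃ p ∈ Dm, ∀ e ∈ p, e ∈ x

/-- The real function `g` is approximated by disjunctions of fewer than `s` variables: `I c` stands for
the test `c < g x`; the errors on positive inputs are paid by the sets in `Dm`, the errors on negative
inputs by the clauses in `Cl`. -/
def Good {E : Type} (s : ℕ) (Cl Dm : Finset (Finset E)) (g : Set E → ℝ) : Prop :=
  ∃ I : ℝ → Option (Finset E),
    (∀ c F, I c = some F → F.card < s) ∧
    (∀ c c' F, c ≤ c' → I c = some F → ∃ F', I c' = some F' ∧ F' ⊆ F) ∧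
    (∀ x c, c < g x → Hit (I c) x ∨ Cont Dm x) ∧
    (∀ y c, HitAll Cl y → g y ≤ c → ¬ Hit (I c) y)

/-- Module GMO (a gate `mono`; about 200 lines).
PROOF. Let `I` and `J` be the approximators of `g` and `h`.
(0) CHAIN LEMMA: if `α` is finite and nonempty-valued somewhere and `L : ℝ → Set α` is monotone
(`c ≤ c'` implies `L c ⊆ L c'`) and some `L c` is nonempty, then some `k` lies in every nonempty
`L c`. (Otherwise choose for every `k` a number `c k` with `L (c k)` nonempty, `k ∉ L (c k)`; let
`c k₀` be the smallest of them (`Finite.exists_min`); take `k' ∈ L (c k₀) ⊆ L (c k')`: contradiction.)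
(1) CLAUSES. The sets `F` with `I a = some F` for some `a` form a chain, and so do the sets `G` with
`J b = some G`. For `n < s` do the following. If there is a value `F` of `I` with `card = n` (it is
unique, the values form a chain) and a value `G` of `J` with `s ≤ (F ∪ G).card`, take such a `G` of
smallest cardinality (then it is contained in every other such `G`, by the chain property) and let
`cl n` be a subset of `F ∪ G` with exactly `s` elements. Let `Cl' := Cl ∪ {cl n}`: at most `s` new sets.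
Property: whenever `I a = some F`, `J b = some G`, `s ≤ (F ∪ G).card`, some set in `Cl'` is contained in
`F ∪ G`.
(2) `L c := {κ | ∃ a b F G, I a = some F ∧ J b = some G ∧ φ a b ≤ c ∧ κ = F ∪ G ∧ κ.card < s}`,
monotone in `c`. If all `L c` are empty let the new approximator be `none` everywhere and `Dm' := Dm`.
Otherwise let `κ₀` lie in every nonempty `L c`; for `e ∈ κ₀` let `κ e` lie in every nonempty
`{κ ∈ L c | e ∉ κ}` (if at least one of these sets is nonempty; otherwise `κ e := ∅`). Let
`Dm' := Dm ∪ {{e, f} | e ∈ κ₀, f ∈ κ e, e ≠ f}`: at most `(s-1)^2` new sets, all with two elements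
(each set occurring here has fewer than `s` elements).
New approximator: `K c := none` if `L c = ∅`, otherwise `K c := some (κ₀.filter (∀ κ ∈ L c, e ∈ κ))`.
(3) `card < s`: it is a subset of `κ₀`. Antitone: clear, since `L` is monotone.
(4) positive: let `c < φ (g x) (h x)` and suppose `x` contains no set in `Dm'`. If `L c = ∅` then
`Hit none x` holds. Otherwise every `κ = F ∪ G ∈ L c` (from `a, b`) meets `x`: it is impossible that
`g x ≤ a` and `h x ≤ b`, because then `φ (g x) (h x) ≤ φ a b ≤ c`; so `a < g x` and `x` hits `I a = some F`,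
or `b < h x` and `x` hits `J b = some G`. Take `e ∈ κ₀`, `e ∈ x`. If `e` lies in all `κ ∈ L c`, we are
done. Otherwise `κ e ∈ L c`, `e ∉ κ e`; take `f ∈ κ e`, `f ∈ x`; then `{e, f} ∈ Dm'` is contained in
`x`: contradiction.
(5) negative: let `y` meet all sets in `Cl'` and `φ (g y) (h y) ≤ c`. Put `a := g y`, `b := h y`. By the
negative property of `I` and `J` (`Cl ⊆ Cl'`) `y` does not hit `I a` and `J b`; so `I a = some F`,
`J b = some G` and `y` is disjoint from `F ∪ G`. If `s ≤ (F ∪ G).card`, some set in `Cl'` is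
contained in `F ∪ G`, which contradicts that `y` meets it. So `F ∪ G ∈ L c` and `K c` is a subset of
`F ∪ G`: `y` does not hit it. -/
def S_GMO : Prop :=
  ∀ (E : Type) [Fintype E] (s : ℕ) (Cl Dm : Finset (Finset E)) (g h : Set E → ℝ) (φ : ℝ → ℝ → ℝ),
    (∀ a a' b b' : ℝ, a ≤ a' → b ≤ b' → φ a b ≤ φ a' b') →
    Good s Cl Dm g → Good s Cl Dm h →
    ∃ Cl' Dm' : Finset (Finset E), Cl ⊆ Cl' ∧ Dm ⊆ Dm' ∧
      (∀ K ∈ Cl', K ∈ Cl ∨ K.card = s) ∧ (∀ q ∈ Dm', q ∈ Dm ∨ q.card = 2) ∧
      Cl'.card ≤ Cl.card + s ∧ Dm'.card ≤ Dm.card + s ^ 2 ∧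
      Good s Cl' Dm' (fun x => φ (g x) (h x))

/-- Module GMX (a gate `mx`; about 120 lines).
PROOF. For every function `g i` in the list (and `g₀`) let `I i` be an approximator. Put
`U c := none` if some `I i c = none`, and otherwise `some (⋃ i, the set of I i c)` (monotone: if
`c ≤ c'` and `U c = some F` then `U c' = some F'` with `F' ⊆ F`). It is easiest to do an induction on the
list with the following weaker notion (no bound on the cardinality, the same `Cl` and `Dm`):
`Pre g := ∃ U, (antitone as in Good) ∧ (∀ x c, c < g x → Hit (U c) x ∨ Cont Dm x) ∧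
(∀ y c, HitAll Cl y → g y ≤ c → ¬ Hit (U c) y)`; it is closed under `max` of two functions (union of the
two sets), and every `Good` function is `Pre`. At the end: if all values `some F` of `U` have fewer
than `s` elements, take `Cl' := Cl`. Otherwise choose a value `F₀` with `s ≤ F₀.card` of smallest
cardinality; all values form a chain, so `F₀` is contained in every value with at least `s` elements.
Let `K₀ ⊆ F₀` have exactly `s` elements, `Cl' := insert K₀ Cl`, and replace `U c` by `none` if
`U c = some F` with `s ≤ F.card`. Positive property: clear (`none` is hit by everything). Negative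
property: if `y` meets all sets in `Cl'`, `g y ≤ c` and the value was replaced, then `y` does not
hit `U c = some F ⊇ F₀ ⊇ K₀`, contradiction. -/
def S_GMX : Prop :=
  ∀ (E : Type) [Fintype E] (s : ℕ) (Cl Dm : Finset (Finset E)) (g : Set E → ℝ)
    (l : List (Set E → ℝ)),
    Good s Cl Dm g → (∀ h ∈ l, Good s Cl Dm h) →
    ∃ Cl' : Finset (Finset E), Cl ⊆ Cl' ∧ (∀ K ∈ Cl', K ∈ Cl ∨ K.card = s) ∧
      Cl'.card ≤ Cl.card + 1 ∧
      Good s Cl' Dm (fun x => l.foldr (fun h m => max (h x) m) (g x))

/-- Module GMN (a gate `mn`; about 150 lines).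
PROOF. As for `S_GMO`, but simpler (no new clauses). For every function `h` in the list `g :: l` choose
an approximator `I h` (use `Classical.choose` of the hypothesis, or pass to indices `i < n`). Put
`L c := {κ | ∃ h ∈ g :: l, ∃ a ≤ c, I h a = some κ}`: monotone in `c`, all elements have fewer than
`s` elements. Note `min ≤ c` iff `h x ≤ c` for some `h` in the list; `c < min` iff `c < h x` for all `h`.
With the chain lemma of `S_GMO` let `κ₀` lie in every nonempty `L c` and, for `e ∈ κ₀`, `κ e` in every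
nonempty `{κ ∈ L c | e ∉ κ}`. `Dm' := Dm ∪ {{e, f} | e ∈ κ₀, f ∈ κ e, e ≠ f}`; new approximator
`K c := none` if `L c = ∅`, otherwise `some (κ₀.filter (∀ κ ∈ L c, e ∈ κ))`.
Positive: `c < min`, `x` contains no set of `Dm'`, `L c` nonempty: every `κ ∈ L c` (with `h`, `a ≤ c`)
meets `x`, because `a ≤ c < h x`. Take `e ∈ κ₀ ∩ x`; if `e` is not in all `κ ∈ L c`, then
`κ e ∈ L c`, take `f ∈ κ e ∩ x`, `f ≠ e`, so `{e, f} ∈ Dm'` is contained in `x`: contradiction.
Negative: `min ≤ c`: some `h` with `h y ≤ c`; put `a := h y`: `y` does not hit `I h a`, so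
`I h a = some κ`, `κ ∈ L c`, `y` is disjoint from `κ ⊇` the set of `K c`. -/
def S_GMN : Prop :=
  ∀ (E : Type) [Fintype E] (s : ℕ) (Cl Dm : Finset (Finset E)) (g : Set E → ℝ)
    (l : List (Set E → ℝ)),
    Good s Cl Dm g → (∀ h ∈ l, Good s Cl Dm h) →
    ∃ Dm' : Finset (Finset E), Dm ⊆ Dm' ∧ (∀ q ∈ Dm', q ∈ Dm ∨ q.card = 2) ∧
      Dm'.card ≤ Dm.card + s ^ 2 ∧
      Good s Cl Dm' (fun x => l.foldr (fun h m => min (h x) m) (g x))

/-- Module CRI (the criterion for circuits without NOT gates; `M_CRI`; about 150 lines).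
PROOF. `Good` is monotone in `Cl` and `Dm`. Induction on the list of gates (`List.reverseRecOn`;
`run x (gs ++ [g]) = run x gs ++ [g.val x (run x gs)]` by `List.foldl_append`; the length of
`run x gs` is `gs.length`): for every list `gs` of gates which are `Ok` and not NOT gates there are `Cl`
(all sets of cardinality `s`, at most `s * gs.length` sets) and `Dm` (all sets of cardinality `2`, at most
`s ^ 2 * gs.length` sets) such that for every `i` the function `fun x => (run x gs).getD i 0` is
`Good s Cl Dm`. Then the same holds for every source (`fun x => t.val x (run x gs)`): a constant `a` has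
the approximator `c ↦ if c < a then none else some ∅`, the input `e` has
`c ↦ if c < 0 then none else if c < 1 then some {e} else some ∅` (here `2 ≤ s` is used), and a register
`i ≥ gs.length` holds the constant `0`. The step for a new gate is `S_GMO`, `S_GMX` or `S_GMN`.
At the end take `c = 0` for the output source: if `I 0 = none`, then every `y` which meets all sets in
`Cl` is accepted (otherwise `val y ≤ 0` and `y` does not hit `none`, absurd): first alternative;
if `I 0 = some F`: second alternative. -/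
def S_CRI : Prop :=
  ∀ (E : Type) [Fintype E] (s : ℕ), 2 ≤ s → ∀ C : Circ E, C.negs = 0 →
    ∃ Cl Dm : Finset (Finset E),
      (∀ K ∈ Cl, K.card = s) ∧ (∀ q ∈ Dm, q.card = 2) ∧
      Cl.card ≤ s * C.size ∧ Dm.card ≤ s ^ 2 * C.size ∧
      ((∀ y : Set E, HitAll Cl y → C.Acc y) ∨
        ∃ F : Finset E, F.card < s ∧ ∀ x : Set E, C.Acc x → (∃ e ∈ F, e ∈ x) ∨ Cont Dm x)

/-- See `S_CRI`. -/
def M_CRI : Prop := S_GMO → S_GMX → S_GMN → S_CRI

/-! ### one block -/

/-- The edges of the complete tripartite graph with three parts of `k` vertices: `(c, i, j)` joins the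
vertex `i` of the part `c` to the vertex `j` of the part `c + 1`. -/
abbrev T (k : ℕ) : Type := Fin 3 × Fin k × Fin k

/-- The three edges of the triangle `(i, j, l)`. -/
def tri {k : ℕ} (t : Fin k × Fin k × Fin k) : Set (T k) :=
  {(0, t.1, t.2.1), (1, t.2.1, t.2.2), (2, t.2.2, t.1)}

/-- The edges whose ends have different colours. -/
def bip {k : ℕ} (χ : Fin 3 × Fin k → Bool) : Set (T k) :=
  {e | χ (e.1, e.2.1) ≠ χ (e.1 + 1, e.2.2)}

/-- The number of triangles accepted by `D`. -/
noncomputable def accT {k : ℕ} (D : Circ (T k)) : ℕ :=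
  (Finset.univ.filter (fun t : Fin k × Fin k × Fin k => D.Acc (tri t))).card

/-- The number of colourings accepted by `D`. -/
noncomputable def accB {k : ℕ} (D : Circ (T k)) : ℕ :=
  (Finset.univ.filter (fun χ : Fin 3 × Fin k → Bool => D.Acc (bip χ))).card

/-- `D` accepts triangles more often than colourings: the difference of the two probabilities is at
least `1/12`. -/
def Gap {k : ℕ} (D : Circ (T k)) : Prop :=
  1 / 12 ≤ (accT D : ℝ) / (k : ℝ) ^ 3 - (accB D : ℝ) / 2 ^ (3 * k)

/-- Module NEG (few colourings make many edges monochromatic; about 150 lines).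
PROOF. Call an edge `e = (c, i, j)` and its ends `(c, i)`, `(c + 1, j)` (they are different because
`c ≠ c + 1` in `Fin 3`). The map `e ↦` (ends of `e`) from `T k` to pairs of vertices is injective.
CLAIM: for every `n` there are, if `4 * n ^ 2 ≤ S.card`, a set `V` of vertices with `V.card ≤ 2 * n` and a
set `S' ⊆ S` whose edges have both ends in `V` such that
`#{χ | every edge of S' is monochromatic} * 2 ^ n ≤ 2 ^ (3 * k)`.
Induction on `n`; `n = 0`: `V = ∅`, `S' = ∅`. Step: let `V, S'` be given for `n`, `4 * (n+1)^2 ≤ S.card`. The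
number of edges with both ends in `V` is at most `V.card ^ 2 ≤ 4 * n ^ 2 < S.card`; so some `e ∈ S` has an
end `w ∉ V`. Put `V' := V ∪ {ends of e}`, `S'' := insert e S'`. The condition that the edges of `S'` are
monochromatic does not depend on `χ w`; flipping `χ w` is an injection from the colourings which make
`S''` monochromatic to those which make `S'` but not `e` monochromatic (the other end of `e` is
different from `w`); hence `2 * #(S'') ≤ #(S')`. QED. Apply the claim with `n = d`. -/
def S_NEG : Prop :=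
  ∀ (k d : ℕ) (S : Finset (T k)), 4 * d ^ 2 ≤ S.card →
    (Finset.univ.filter
      (fun χ : Fin 3 × Fin k → Bool => ∀ e ∈ S, χ (e.1, e.2.1) = χ (e.1 + 1, e.2.2))).card * 2 ^ d
      ≤ 2 ^ (3 * k)

/-- Module TRI (the lower bound for one block; `M_TRI`; about 130 lines).
PROOF. Apply `S_CRI` with `s = 4 * d ^ 2 ≥ 2` and `E = T k`. FIRST ALTERNATIVE: every colouring `χ` such
that `bip χ` meets all sets in `Cl` is accepted; a colouring for which `bip χ` misses a set `K ∈ Cl` makes
all edges of `K` monochromatic, and by `S_NEG` there are at most `2 ^ (3k) / 2 ^ d` of these for every `K`;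
so `2 ^ (3k) - accB D ≤ s * size * 2 ^ (3k) / 2 ^ d`; since `accT D ≤ k ^ 3`, `Gap` gives
`1/12 ≤ 1 - accB D / 2 ^ (3k) ≤ s * size / 2 ^ d`, that is `2 ^ d ≤ 12 * s * size = 48 d^2 size`.
SECOND ALTERNATIVE: an accepted triangle contains an edge of `F` (every edge lies in exactly `k`
triangles `tri t`) or a pair in `Dm` (two different edges lie in at most one triangle `tri t`: two of the
three edges determine `t`; the three edges of a triangle have different first components); so
`accT D ≤ F.card * k + Dm.card ≤ s * k + s ^ 2 * size`, and `Gap` gives `k ^ 3 ≤ 12 * accT D`.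
(`1 ≤ k` avoids the division by `0`.) -/
def S_TRI : Prop :=
  ∀ (k d : ℕ), 1 ≤ k → 1 ≤ d → ∀ D : Circ (T k), D.negs = 0 → Gap D →
    2 ^ d ≤ 48 * d ^ 2 * D.size ∨ k ^ 3 ≤ 48 * d ^ 2 * k + 192 * d ^ 4 * D.size

/-- See `S_TRI`. -/
def M_TRI : Prop := S_CRI → S_NEG → S_TRI

/-! ### the NOT gates -/

/-- Module GUE (guessing the outputs of the NOT gates; about 250 lines).
PROOF. Let `C` have `r` NOT gates, at the positions `n_0 < n_1 < ... < n_(r-1)` in the list of gates. For an
input `x` let `z_j (x)` be the output (`0` or `1`) of the NOT gate number `j`, and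
`N x := ∑ j, z_j (x) * 2 ^ (r - 1 - j)` (the first NOT gate is the most significant bit), so
`N x < 2 ^ r`.  It is convenient to define everything by recursion on the list of gates, for instance
`code x gs` with `code x (gs ++ [g]) = code x gs` if `g` is not a NOT gate and
`= 2 * code x gs + (output of g)` if it is one.
PLUGGED CIRCUIT. For `R : Set E` let `D_R` have the same gates as `C` in the same positions, except: every
source `reg i`, where gate `i` is a NOT gate, is replaced by the constant `(run R C.gates).getD i 0`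
(its output at `R`), in all gates and in the output source; and the NOT gate `neg ψ s` itself is
replaced by the gate `mono (fun a _ => if ψ a = true ∨ (its output at R) = 0 then 0 else 1) s s`: this is
nondecreasing; it is `1` iff the output at `R` is `1` but the test answers `false` on the present input.
Finally add one gate `mx`: the maximum of the output source and all registers `n_j`; it is the output
of `D_R`. So `D_R` has no NOT gates and size `C.size + 1`.
(a) If `x ⊆ y` then `N y ≤ N x`: at the first NOT gate where the outputs differ all registers before are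
monotone functions of the input (all gates before are nondecreasing and the earlier NOT gates have the
same outputs at `x` and `y`), so the value tested at `x` is at most the value tested at `y`, and the
outputs are `1` at `x` and `0` at `y`. (Invariant along the list: either the codes are equal and all
registers satisfy `value at x ≤ value at y`, or `code y < code x`; both survive a new gate.)
(b) Let `R ⊆ u`. Invariant along the list, comparing the run of `C` at `u` with the run of `D_R` at `u`:
either all NOT gates so far have the same output at `u` and at `R`, all other registers of `D_R` at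
`u` equal those of `C` at `u` and the registers of `D_R` at the positions of NOT gates are `0`; or
some register of `D_R` at the position of a NOT gate is `1`. (At the first NOT gate whose outputs at `u` and
`R` differ, the output at `u` is `0` and at `R` it is `1` by (a), and the value tested in `D_R` is the
value tested in `C`; so this register of `D_R` is `1`.)
CONCLUSION: in the first case `D_R` accepts `u` iff `C` accepts `u` (the new registers are `0`); in the
second case `D_R` accepts `u` (the maximum is at least `1`) and `N u < N R`. -/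
def S_GUE : Prop :=
  ∀ (E : Type) (C : Circ E), ∃ N : Set E → ℕ,
    (∀ x, N x < 2 ^ C.negs) ∧ (∀ x y : Set E, x ⊆ y → N y ≤ N x) ∧
    ∀ R : Set E, ∃ D : Circ E, D.negs = 0 ∧ D.size ≤ C.size + 1 ∧
      ∀ u : Set E, R ⊆ u → (C.Acc u → D.Acc u) ∧ (N u = N R → D.Acc u → C.Acc u)

/-- Module RST (fixing a part of the input; about 80 lines).
PROOF. Replace the source `inp e` everywhere by `cst 1` if `e ∈ R`, otherwise by `inp f` if `e = j f`,
otherwise by `cst 0` (`j` is injective, so `e ∈ j '' w` iff `f ∈ w`). The values of all sources and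
gates are the same. -/
def S_RST : Prop :=
  ∀ (E F : Type) (C : Circ E) (R : Set E) (j : F → E), Function.Injective j →
    ∃ D : Circ F, D.size = C.size ∧ D.negs = C.negs ∧ ∀ w : Set F, D.Acc w ↔ C.Acc (R ∪ j '' w)

/-- `P` contains a triangle inside one block. -/
def HasTri {B : Type} {k : ℕ} (P : Set (B × T k)) : Prop :=
  ∃ (b : B) (t : Fin k × Fin k × Fin k), ∀ e ∈ tri t, (b, e) ∈ P

/-- Module AVG (the averaging argument over the blocks; `M_AVG`; about 250 lines).
PROOF. Let `N ω` be the function of `S_GUE` for `C ω`, `Φ R := ∑ ω, p ω * N ω R ≥ 0`. Suppose that the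
conclusion fails. CLAIM: for every `n ≤ card B` there are a set `A` of `n` blocks and
`R : Set (B × T k)` with `e.1 ∈ A` for all `e ∈ R`, such that for every block `b` there is `χ` with
`{e | (b, e) ∈ R} ⊆ bip χ`, and `Φ R ≤ 2 ^ r - 1 - n / 6`. For `n = card B ≥ 6 * 2 ^ r` this gives `Φ R ≤ -1`,
a contradiction. `n = 0`: `R = ∅`, `N ω ∅ ≤ 2 ^ r - 1` (natural numbers).
STEP: take a block `b ∉ A`. For `w : Set (T k)` put `R + w := R ∪ (fun e => (b, e)) '' w`. Let `D ω` be the
circuit of `S_GUE` for `C ω` and `R`, and `D' ω` its restriction to the block `b` (`S_RST` with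
`j e = (b, e)`): `(D' ω).Acc w ↔ (D ω).Acc (R + w)`, no NOT gates, size at most `T + 1`. As the conclusion
fails, `accT (D' ω) / k ^ 3 - accB (D' ω) / 2 ^ (3k) < 1/12` for all `ω`; multiply by `p ω` and sum:
`(1 / k^3) ∑ t, ∑ ω, p ω [D' ω accepts tri t] - (1 / 2^(3k)) ∑ χ, ∑ ω, p ω [D' ω accepts bip χ] ≤ 1/12`.
The first sum: `[C ω accepts R + tri t] ≤ [D' ω accepts tri t]` and `R + tri t` contains a triangle, so
every inner sum is at least `7/12`. The second sum: `[D' ω accepts bip χ] ≤ [C ω accepts R + bip χ]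
+ (N ω R - N ω (R + bip χ))` (if `N` is the same, `D ω` and `C ω` agree; otherwise the difference of the
natural numbers is at least `1`), and `R + bip χ` contains no triangle (in the block `b` there is only
`bip χ`, in the other blocks a subset of some `bip χ'`; `tri t ⊆ bip χ` is impossible with two
colours), so the inner sum is at most `1/3 + Φ R - Φ (R + bip χ)`. Together
`7/12 - 1/3 - 1/12 ≤ average over χ of (Φ R - Φ (R + bip χ))`, so `Φ (R + bip χ) ≤ Φ R - 1/6` for some `χ`:
take `insert b A` and `R + bip χ`. -/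
def S_AVG : Prop :=
  ∀ (B : Type) [Fintype B] (k r s : ℕ) (Ω : Type) [Fintype Ω] (p : Ω → ℝ)
    (C : Ω → Circ (B × T k)), 1 ≤ k → (∀ ω, 0 ≤ p ω) → ∑ ω, p ω = 1 →
    (∀ ω, (C ω).size ≤ s) → (∀ ω, (C ω).negs ≤ r) →
    (∀ P : Set (B × T k), HasTri P → 7 / 12 ≤ prob p C P) →
    (∀ P : Set (B × T k), ¬ HasTri P → prob p C P ≤ 1 / 3) →
    6 * 2 ^ r ≤ Fintype.card B →
    ∃ D : Circ (T k), D.negs = 0 ∧ D.size ≤ s + 1 ∧ Gap D

/-- See `S_AVG`. -/
def M_AVG : Prop := S_GUE → S_RST → S_AVG

/-! ### the blocks in a graph -/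

/-- Module RSZ (Ruzsa-Szemerédi blocks, blown up; about 200 lines).
PROOF. Vertices `(c, a, i) : Fin 3 × Fin (3 * q) × Fin k`, embedded in `Fin v` (`3 * (3 * q) * k ≤ v`).
The block `b = (x, a)`, `x < q`, `a ∈ S`, has the three vertices `pos b 0 = x`, `pos b 1 = x + a`,
`pos b 2 = x + 2 a` (all `< 3 q`), one in each part, and
`em (b, (c, i, j)) := s((c, pos b c, i), (c + 1, pos b (c + 1), j))`. Injective: the parts of the two
ends determine `c` (for different `c, c'` the sets `{c, c+1}` and `{c', c'+1}` are different) and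
which end is which; `i`, `j` and two of the three numbers `x, x + a, x + 2a` are then determined, and
these determine `(x, a)`. The two ends are different. `G := SimpleGraph.fromEdgeSet (em '' P)`; its edge
set is `em '' P` because there are no loops. If `tri t ⊆` block `b` of `P`, the three vertices
`(0, pos b 0, t.1), (1, pos b 1, t.2.1), (2, pos b 2, t.2.2)` form a triangle. Conversely a triangle of `G`
has its three vertices in three different parts (edges join different parts), say `(0, α, i)`,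
`(1, β, j)`, `(2, γ, l)`; the three edges come from blocks `(x₀, a₀)`, `(x₁, a₁)`, `(x₂, a₂)` with
`β - α = a₀`, `γ - β = a₁`, `γ - α = 2 a₂`, so `a₀ + a₁ = a₂ + a₂`; `ThreeAPFree` gives
`a₀ = a₂ (= a₁)`, and then the blocks are equal (`x₀ = α = x₂`, `x₁ = β - a₁ = α`), so the triangle is
`tri (i, j, l)` in this block. -/
def S_RSZ : Prop :=
  ∀ (q k v : ℕ) (S : Finset ℕ), (∀ a ∈ S, a < q) → ThreeAPFree (S : Set ℕ) → 9 * q * k ≤ v →
    ∃ em : (Fin q × S) × T k → Sym2 (Fin v), Function.Injective em ∧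
      ∀ P : Set ((Fin q × S) × T k), ∃ G : SimpleGraph (Fin v),
        G.edgeSet = em '' P ∧ (¬ G.CliqueFree 3 ↔ HasTri P)

/-- Module COR (the core inequality; `M_COR`; about 80 lines).
PROOF. Take `S ⊆ range q` with `ThreeAPFree` and `S.card = rothNumberNat q` (`rothNumberNat_spec`), the map
`em` of `S_RSZ`, and restrict every `C ω` by `S_RST` with `R = ∅`, `j = em`: circuits `C' ω` over
`(Fin q × S) × T k` with `(C' ω).Acc P ↔ (C ω).Acc (em '' P)`, the same size and number of NOT gates,
`prob p C' P = prob p C G.edgeSet` for the graph `G` of `P`. `S_AVG` with `B = Fin q × S`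
(`card = q * rothNumberNat q`) gives `D` with `Gap D`, size at most `s + 1`; `S_TRI` gives the claim. -/
def S_COR : Prop :=
  ∀ (v q k d r s : ℕ) (Ω : Type) [Fintype Ω] (p : Ω → ℝ) (C : Ω → Circ (Sym2 (Fin v))),
    1 ≤ k → 1 ≤ d → 9 * q * k ≤ v → 6 * 2 ^ r ≤ q * rothNumberNat q →
    (∀ ω, 0 ≤ p ω) → ∑ ω, p ω = 1 → (∀ ω, (C ω).size ≤ s) → (∀ ω, (C ω).negs ≤ r) →
    (∀ G : SimpleGraph (Fin v), ¬ G.CliqueFree 3 → 7 / 12 ≤ prob p C G.edgeSet) →
    (∀ G : SimpleGraph (Fin v), G.CliqueFree 3 → prob p C G.edgeSet ≤ 1 / 3) →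
    2 ^ d ≤ 48 * d ^ 2 * (s + 1) ∨ k ^ 3 ≤ 48 * d ^ 2 * k + 192 * d ^ 4 * (s + 1)

/-- See `S_COR`. -/
def M_COR : Prop := S_RST → S_AVG → S_TRI → S_RSZ → S_COR

/-! ### the asymptotics -/

/-- Module LRG (large numbers; about 100 lines). PROOF. `log v = o(v ^ δ)` and
`sqrt (log v) = o(log v)`. (a) `Real.exp (4 * Real.sqrt (Real.log v)) = v ^ (o(1))`: for
`16 / δ ^ 2 ≤ Real.log v` one has `4 * sqrt (log v) ≤ δ * log v`. (b) `isLittleO_log_rpow_atTop` or
`Real.add_one_le_exp`. (c) the same with the constant. -/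
def S_LRG : Prop :=
  ∀ δ M : ℝ, 0 < δ → ∃ v₀ : ℕ, 2 ≤ v₀ ∧ ∀ v : ℕ, v₀ ≤ v →
    Real.exp (4 * Real.sqrt (Real.log v)) ≤ (v : ℝ) ^ δ ∧
    M * (1 + Real.log v) ^ 4 ≤ (v : ℝ) ^ δ ∧ M ≤ (v : ℝ) ^ δ

/-- Module ASY (the choice of the parameters; `M_ASY`; about 250 lines).
PROOF. We may assume `ε ≤ 1` (for `1 < ε` use the result for `ε = 1` and `v ^ (3 - ε) ≤ v ^ 2`).
Put `δ := ε / 20`, `V := (v : ℝ)`, `s := ⌊12 t⌋₊`, `ρ := min r s`. Use `S_LRG` with this `δ` and `M = 10 ^ 13`
and then also with other constants if convenient.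
PARAMETERS. `q := ⌈2 ^ (ρ/2) * V ^ (2 δ)⌉₊`, `k := ⌊V / (9 q)⌋₊`, `d := ⌈4 * log V / log 2⌉₊ + 1` (so
`1 ≤ d`, `V ^ 4 ≤ 2 ^ d`, `d ≤ 8 (1 + log V)`).
(1) BLOCKS. By `Behrend.roth_lower_bound`, `q * exp (-4 * sqrt (log q)) ≤ rothNumberNat q`; if
`q ≤ V` then `exp (-4 sqrt (log q)) ≥ V ^ (-δ)`, so
`q * rothNumberNat q ≥ q ^ 2 * V ^ (-δ) ≥ 2 ^ ρ * V ^ (4 δ - δ) ≥ 6 * 2 ^ ρ`.
(2) LOWER BOUND FOR k. If `2 ^ (ρ/2) ≤ 3 * V ^ (1 - 6 δ)` then `q ≤ 2 * 2 ^ (ρ/2) * V ^ (2δ) ≤ 6 V ^ (1 - 4δ)`
`≤ V`, `V / (9 q) ≥ V ^ (4 δ) / 54 ≥ 2`, so `k ≥ V / (18 q) ≥ V ^ (1 - 2δ) / (36 * 2 ^ (ρ/2))`, and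
`k ≥ V ^ (4δ) / 108 ≥ 100 d`, `9 q k ≤ v`.
(3) Suppose `ρ` satisfies the condition in (2) and the hypothesis is available. FIRST ALTERNATIVE
`2 ^ d ≤ 48 d ^ 2 (s + 1)`: then `V ^ 4 ≤ 48 d ^ 2 (12 t + 1)`, so `t ≥ V ^ 3` for large `v`, and
`V ^ (3 - ε) ≤ V ^ 3 ≤ t * 2 ^ (3 r / 2)`. SECOND ALTERNATIVE: `48 d ^ 2 k ≤ k ^ 3 / 2` (by `k ≥ 100 d`), so
`k ^ 3 / 2 ≤ 192 d ^ 4 (s + 1)`. Since `k ^ 3 ≥ (100 d) ^ 3` is larger than `384 d ^ 4` (use
`k ≥ 10 ^ 3 d ^ 2`, also from `S_LRG`), `s ≥ 1`, `s + 1 ≤ 24 t`, and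
`t ≥ k ^ 3 / (9216 d ^ 4) ≥ V ^ (3 - 6 δ) / (9216 * 36 ^ 3 * d ^ 4 * 2 ^ (3 ρ / 2)) ≥ V ^ (3 - ε) / 2 ^ (3 r / 2)`
because `d ^ 4 * 9216 * 36 ^ 3 ≤ V ^ δ` for large `v`, `7 δ ≤ ε` and `ρ ≤ r`.
(4) CASES. If `s = 0` then `ρ = 0`, (2) holds and (3) shows `1 ≤ s`, a contradiction, or `t ≥ V ^ 3`. So
`1 ≤ s`, `t ≥ 1/12`. If `2 ^ (r/2) ≤ 3 * V ^ (1 - 6 δ)`, then (3) applies. Otherwise
`2 ^ (3r/2) ≥ 27 * V ^ (3 - 18 δ) ≥ 12 * V ^ (3 - ε)` (`18 δ < ε`), so `t * 2 ^ (3r/2) ≥ V ^ (3 - ε)`. -/
def S_ASY : Prop :=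
  ∀ ε : ℝ, 0 < ε → ∃ v₀ : ℕ, ∀ v : ℕ, v₀ ≤ v → ∀ (r : ℕ) (t : ℝ), 0 ≤ t →
    (∀ q k d : ℕ, 1 ≤ k → 1 ≤ d → 9 * q * k ≤ v →
      6 * 2 ^ (min r ⌊12 * t⌋₊) ≤ q * rothNumberNat q →
      2 ^ d ≤ 48 * d ^ 2 * (⌊12 * t⌋₊ + 1) ∨
        k ^ 3 ≤ 48 * d ^ 2 * k + 192 * d ^ 4 * (⌊12 * t⌋₊ + 1)) →
    (v : ℝ) ^ (3 - ε) ≤ t * 2 ^ (3 * (r : ℝ) / 2)

/-- See `S_ASY`. -/
def M_ASY : Prop := S_LRG → S_ASY

/-- Module FIN (the main theorem; `M_FIN`; about 120 lines).
PROOF. FIRST PART. Let `t := ∑ ω, p ω * (C ω).size ≥ 0`, `s := ⌊12 t⌋₊`. Let `C' ω := C ω` if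
`(C ω).size ≤ s` and otherwise the circuit without gates and with the output `cst 0`, which accepts
nothing. The probability of `s < (C ω).size`, that is `12 t < size`, is at most `1/12` (Markov: the sum of
`p ω` over these `ω`, times `12 t`, is at most `t`; if `t = 0` every such `ω` has `p ω = 0`, because
`p ω * size = 0` and `size > 0`). So `prob p C' x ≤ prob p C x ≤ prob p C' x + 1/12`. All sizes of `C'`
are at most `s` and the numbers of NOT gates at most `min r s` (`List.countP_le_length`). `S_COR` gives the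
hypothesis of `S_ASY`, hence `v ^ (3 - ε) ≤ t * 2 ^ (3 r / 2)`; divide.
SECOND PART. First part with `ε = γ / 2`: `2 ^ (3 r / 2) ≤ v ^ (1 - 3 γ / 2)` by the condition on `r`
(`2 ^ (logb 2 v) = v`), so the quotient is at least `v ^ (3 - γ/2 - 1 + 3γ/2) = v ^ (2 + γ)`. -/
def M_FIN : Prop := S_COR → S_ASY → S_MAIN

end Pool.Agent.NegTri
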