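import Mathlib
import Pool.Agent.NegTri.Stmts

/-!
# The choice of the parameters
-/

set_option autoImplicit false

namespace Pool.Agent.NegTri

namespace ASY

/-- the inequality in terms of `X = v ^ (ε / 20)` -/
theorem core {v r : ℕ} {t X : ℝ} (ht : 0 ≤ t) (hX : 10 ^ 13 ≤ X) (hXV : X ^ 20 ≤ (v : ℝ))
    (he : Real.exp (4 * Real.sqrt (Real.log v)) ≤ X)
    (hl : 10 ^ 13 * (1 + Real.log v) ^ 4 ≤ X)
    (h : ∀ q k d : ℕ, 1 ≤ k → 1 ≤ d → 9 * q * k ≤ v →
      6 * 2 ^ (min r ⌊12 * t⌋₊) ≤ q * rothNumberNat q →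
      2 ^ d ≤ 48 * d ^ 2 * (⌊12 * t⌋₊ + 1) ∨
        k ^ 3 ≤ 48 * d ^ 2 * k + 192 * d ^ 4 * (⌊12 * t⌋₊ + 1)) :
    (v : ℝ) ^ 3 / X ^ 20 ≤ t * 2 ^ (3 * (r : ℝ) / 2) := by
  have hX0 : 0 < X := by linarith
  have hX1 : 1 ≤ X := by linarith
  set V : ℝ := (v : ℝ) with hV
  set s := ⌊12 * t⌋₊ with hs
  set ρ := min r s with hρ
  set R : ℝ := (2 : ℝ) ^ ((ρ : ℝ) / 2) with hR
  set W : ℝ := (2 : ℝ) ^ (3 * (r : ℝ) / 2) with hW
  have hXp : ∀ n : ℕ, 1 ≤ n → 10 ^ 13 ≤ X ^ n := fun n hn =>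
    hX.trans (le_self_pow₀ hX1 (by omega))
  have hV1 : 10 ^ 13 ≤ V := (hXp 20 (by norm_num)).trans hXV
  have hV0 : 0 < V := by linarith
  have hR1 : 1 ≤ R := Real.one_le_rpow (by norm_num) (by positivity)
  have hR0 : 0 < R := by linarith
  have hR2 : R ^ 2 = 2 ^ ρ := by
    rw [hR, ← Real.rpow_natCast, ← Real.rpow_mul (by norm_num), ← Real.rpow_natCast]
    congr 1
    push_cast
    ring
  have hRW : R ^ 3 ≤ W := by
    rw [hR, hW, ← Real.rpow_natCast, ← Real.rpow_mul (by norm_num)]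
    apply Real.rpow_le_rpow_of_exponent_le (by norm_num)
    have h1 : (ρ : ℝ) ≤ r := by exact_mod_cast min_le_left r s
    push_cast
    linarith
  have hW1 : 1 ≤ W := (one_le_pow₀ hR1).trans hRW
  have hst : (s : ℝ) ≤ 12 * t := Nat.floor_le (by positivity)
  have h20 : 0 < X ^ 20 := by positivity
  rcases le_or_gt R (3 * V / X ^ 6) with hc | hc
  · -- the number of blocks
    rw [le_div_iff₀ (by positivity)] at hc
    set q := ⌈R * X ^ 2⌉₊ with hq
    have hRX : 1 ≤ R * X ^ 2 := one_le_mul_of_one_le_of_one_le hR1 (one_le_pow₀ hX1)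
    have q1 : R * X ^ 2 ≤ q := Nat.le_ceil _
    have q2 : (q : ℝ) ≤ 2 * (R * X ^ 2) := by
      have := (Nat.ceil_lt_add_one (by positivity : 0 ≤ R * X ^ 2)).le
      rw [← hq] at this
      linarith
    have q3 : (1 : ℝ) ≤ q := hRX.trans q1
    have q0 : (0 : ℝ) < q := by linarith
    have q4 : (q : ℝ) * X ^ 4 ≤ 6 * V := by
      calc (q : ℝ) * X ^ 4 ≤ 2 * (R * X ^ 2) * X ^ 4 := by gcongr
        _ = 2 * (R * X ^ 6) := by ring
        _ ≤ 2 * (3 * V) := by linarith
        _ = 6 * V := by ring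
    have hX4 := hXp 4 (by norm_num)
    have q5 : (q : ℝ) ≤ V := by nlinarith
    -- Behrend
    have hroth : (6 * 2 ^ ρ : ℝ) ≤ q * rothNumberNat q := by
      have b1 := @Behrend.roth_lower_bound q
      have b2 : Real.exp (4 * Real.sqrt (Real.log q)) ≤ X := by
        refine le_trans (Real.exp_le_exp.2 ?_) he
        have := Real.sqrt_le_sqrt (Real.log_le_log q0 q5)
        linarith
      have b3 : X⁻¹ ≤ Real.exp (-4 * Real.sqrt (Real.log q)) := by
        rw [neg_mul, Real.exp_neg]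
        exact inv_anti₀ (Real.exp_pos _) b2
      have b4 : (q : ℝ) * X⁻¹ ≤ rothNumberNat q :=
        (mul_le_mul_of_nonneg_left b3 q0.le).trans b1
      calc (6 * 2 ^ ρ : ℝ) = 6 * R ^ 2 := by rw [hR2]
        _ ≤ X ^ 3 * R ^ 2 := by
          have := hXp 3 (by norm_num)
          gcongr
          linarith
        _ = (R * X ^ 2) * ((R * X ^ 2) * X⁻¹) := by field_simp
        _ ≤ q * (q * X⁻¹) := by gcongr
        _ ≤ _ := by gcongr
    have hroth' : 6 * 2 ^ ρ ≤ q * rothNumberNat q := by exact_mod_cast hroth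
    -- the size of the blocks
    set k := ⌊V / (9 * q)⌋₊ with hk
    have k1 : (k : ℝ) ≤ V / (9 * q) := Nat.floor_le (by positivity)
    have k2 : V / (9 * q) < k + 1 := Nat.lt_floor_add_one _
    have k3 : X ^ 4 / 54 ≤ V / (9 * q) := by
      rw [div_le_div_iff₀ (by norm_num) (by positivity)]
      linarith
    have k4 : X ^ 4 / 108 ≤ k := by linarith
    have k5 : V / (18 * q) ≤ k := by
      have : V / (18 * q) = V / (9 * q) / 2 := by field_simp; norm_num
      rw [this]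
      linarith
    have k6 : V / (36 * (R * X ^ 2)) ≤ k := by
      refine le_trans ?_ k5
      apply div_le_div_of_nonneg_left hV0.le (by positivity)
      linarith
    have k7 : 1 ≤ k := by
      have : (1 : ℝ) ≤ k := by linarith
      exact_mod_cast this
    have k8 : 9 * q * k ≤ v := by
      have : (9 * q * k : ℝ) ≤ v := by
        rw [le_div_iff₀ (by positivity)] at k1
        linarith
      exact_mod_cast this
    have k0 : (0 : ℝ) < k := by exact_mod_cast k7
    -- the exponent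
    set L := Real.log V with hL
    have hL0 : 0 ≤ L := Real.log_nonneg (by linarith)
    set d := ⌈4 * L / Real.log 2⌉₊ + 1 with hd
    have l2 := Real.log_two_gt_d9
    have l20 : 0 < Real.log 2 := by linarith
    have d1 : (d : ℝ) ≤ 8 * (1 + L) := by
      have e1 := (Nat.ceil_lt_add_one (by positivity : 0 ≤ 4 * L / Real.log 2)).le
      have e2 : 4 * L / Real.log 2 ≤ 8 * L := by
        rw [div_le_iff₀ l20]
        nlinarith
      rw [hd]
      push_cast
      linarith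
    have d2 : V ^ 4 ≤ 2 ^ d := by
      have e1 : 4 * L / Real.log 2 ≤ d := by
        have := Nat.le_ceil (4 * L / Real.log 2)
        rw [hd]
        push_cast
        linarith
      rw [div_le_iff₀ l20] at e1
      rw [← Real.log_le_log_iff (by positivity) (by positivity), Real.log_pow, Real.log_pow, ← hL]
      push_cast
      linarith
    have d0 : (0 : ℝ) ≤ d := by positivity
    have hLL : 1 ≤ 1 + L := by linarith
    have d4 : 10 ^ 13 * (d : ℝ) ^ 4 ≤ 4096 * X := by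
      have : (d : ℝ) ^ 4 ≤ (8 * (1 + L)) ^ 4 := pow_le_pow_left₀ d0 d1 4
      have e : (8 * (1 + L)) ^ 4 = 4096 * (1 + L) ^ 4 := by ring
      linarith
    have dd1 : (1 : ℝ) ≤ d := by
      rw [hd]; push_cast
      have : (0 : ℝ) ≤ (⌈4 * L / Real.log 2⌉₊ : ℝ) := by positivity
      linarith
    have d24 : (d : ℝ) ^ 2 ≤ (d : ℝ) ^ 4 := pow_le_pow_right₀ dd1 (by norm_num)
    have d5 : 48 * (d : ℝ) ^ 2 ≤ X := by linarith
    have hall := h q k d k7 (by omega) k8 hroth'
    rcases hall with h1 | h1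
    · have h2 : (2 : ℝ) ^ d ≤ 48 * (d : ℝ) ^ 2 * (s + 1) := by exact_mod_cast h1
      have h3 : V ^ 4 ≤ X * (12 * t + 1) := by
        refine d2.trans (h2.trans ?_)
        have : (s : ℝ) + 1 ≤ 12 * t + 1 := by linarith
        gcongr
      have h4 : X ^ 19 * V ^ 3 ≤ 12 * t + 1 := by
        have e1 : X ^ 20 * V ^ 3 ≤ X * (12 * t + 1) := by
          calc X ^ 20 * V ^ 3 ≤ V * V ^ 3 := by gcongr
            _ = V ^ 4 := by ring
            _ ≤ _ := h3
        have e2 : X ^ 20 * V ^ 3 = X * (X ^ 19 * V ^ 3) := by ring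
        rw [e2] at e1
        exact le_of_mul_le_mul_left e1 hX0
      have h5 : V ^ 3 ≤ t := by
        have e1 := hXp 19 (by norm_num)
        have e2 : 1 ≤ V ^ 3 := one_le_pow₀ (by linarith)
        have e3 : 10 ^ 13 * V ^ 3 ≤ X ^ 19 * V ^ 3 := by gcongr
        linarith
      calc V ^ 3 / X ^ 20 ≤ V ^ 3 := div_le_self (by positivity) (one_le_pow₀ hX1)
        _ ≤ t := h5
        _ ≤ t * W := le_mul_of_one_le_right ht hW1
    · have h2 : (k : ℝ) ^ 3 ≤ 48 * (d : ℝ) ^ 2 * k + 192 * (d : ℝ) ^ 4 * (s + 1) := by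
        exact_mod_cast h1
      have hXX : X ≤ X ^ 4 := le_self_pow₀ hX1 (by norm_num)
      have k9 : X * 10 ^ 3 ≤ (k : ℝ) := by
        have e1 : 10 ^ 13 * X ≤ X ^ 4 := by
          have := hXp 3 (by norm_num)
          calc 10 ^ 13 * X ≤ X ^ 3 * X := by gcongr
            _ = X ^ 4 := by ring
        linarith
      have h3 : 48 * (d : ℝ) ^ 2 * k ≤ (k : ℝ) ^ 3 / 2 := by
        have e1 : (2 : ℝ) * X ≤ (k : ℝ) ^ 2 := by
          have : (1 : ℝ) ≤ k := by exact_mod_cast k7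
          nlinarith
        have e2 : (k : ℝ) ^ 3 / 2 = (k : ℝ) ^ 2 / 2 * k := by ring
        rw [e2]
        have : 48 * (d : ℝ) ^ 2 ≤ (k : ℝ) ^ 2 / 2 := by linarith
        gcongr
      have h4 : 10 ^ 13 * (k : ℝ) ^ 3 ≤ 1572864 * X * (s + 1) := by
        have e1 : (k : ℝ) ^ 3 ≤ 384 * (d : ℝ) ^ 4 * (s + 1) := by linarith
        have e2 : (0 : ℝ) ≤ (s : ℝ) + 1 := by positivity
        calc 10 ^ 13 * (k : ℝ) ^ 3 ≤ 10 ^ 13 * (384 * (d : ℝ) ^ 4 * (s + 1)) := by gcongr
          _ = 384 * (10 ^ 13 * (d : ℝ) ^ 4) * (s + 1) := by ring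
          _ ≤ 384 * (4096 * X) * (s + 1) := by gcongr
          _ = _ := by ring
      have hs1 : 1 ≤ s := by
        by_contra hcon
        have hs0 : s = 0 := by omega
        rw [hs0] at h4
        have e1 : (k : ℝ) ≤ (k : ℝ) ^ 3 := le_self_pow₀ (by exact_mod_cast k7) (by norm_num)
        push_cast at h4
        nlinarith
      have hs1r : (1 : ℝ) ≤ s := by exact_mod_cast hs1
      have h5 : 10 ^ 13 * (k : ℝ) ^ 3 ≤ 37748736 * X * t := by
        refine h4.trans ?_
        calc 1572864 * X * (s + 1) ≤ 1572864 * X * (24 * t) := by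
              have : (s : ℝ) + 1 ≤ 24 * t := by linarith
              gcongr
          _ = _ := by ring
      have h6 : V ^ 3 / (46656 * (R ^ 3 * X ^ 6)) ≤ (k : ℝ) ^ 3 := by
        have := pow_le_pow_left₀ (by positivity) k6 3
        refine le_trans (le_of_eq ?_) this
        rw [div_pow]
        congr 1
        ring
      have h7 : V ^ 3 ≤ X ^ 7 * (t * R ^ 3) := by
        have e1 : 10 ^ 13 * (V ^ 3 / (46656 * (R ^ 3 * X ^ 6))) ≤ 37748736 * X * t := by
          linarith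
        rw [← mul_div_assoc, div_le_iff₀ (by positivity)] at e1
        have e2 : 37748736 * X * t * (46656 * (R ^ 3 * X ^ 6)) =
            1761205026816 * (X ^ 7 * (t * R ^ 3)) := by ring
        rw [e2] at e1
        have e3 : 0 ≤ X ^ 7 * (t * R ^ 3) := by positivity
        linarith
      rw [div_le_iff₀ h20]
      calc V ^ 3 ≤ X ^ 7 * (t * R ^ 3) := h7
        _ ≤ X ^ 20 * (t * W) := by
          have : X ^ 7 ≤ X ^ 20 := pow_le_pow_right₀ hX1 (by norm_num)
          gcongr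
        _ = t * W * X ^ 20 := by ring
  · -- many NOT gates
    rw [div_lt_iff₀ (by positivity)] at hc
    have hs1 : 1 ≤ s := by
      by_contra hcon
      have hs0 : s = 0 := by omega
      have hρ0 : ρ = 0 := by rw [hρ, hs0]; simp
      have hR' : R = 1 := by rw [hR, hρ0]; simp
      rw [hR', one_mul] at hc
      have : X ^ 6 ≤ X ^ 20 := pow_le_pow_right₀ hX1 (by norm_num)
      linarith
    have hs1r : (1 : ℝ) ≤ s := by exact_mod_cast hs1
    have h3 : (3 * V) ^ 3 ≤ (R * X ^ 6) ^ 3 := pow_le_pow_left₀ (by positivity) hc.le 3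
    have h4 : 27 * V ^ 3 ≤ W * X ^ 20 := by
      calc 27 * V ^ 3 = (3 * V) ^ 3 := by ring
        _ ≤ (R * X ^ 6) ^ 3 := h3
        _ = R ^ 3 * X ^ 18 := by ring
        _ ≤ W * X ^ 20 := by
          have : X ^ 18 ≤ X ^ 20 := pow_le_pow_right₀ hX1 (by norm_num)
          gcongr
    rw [div_le_iff₀ h20]
    have h5 : (1 : ℝ) / 12 ≤ t := by linarith
    have h6 : 0 ≤ W * X ^ 20 := by positivity
    have h7 : 1 / 12 * (W * X ^ 20) ≤ t * (W * X ^ 20) := by gcongr
    have h8 : 0 ≤ V ^ 3 := by positivity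
    calc V ^ 3 ≤ 1 / 12 * (W * X ^ 20) := by linarith
      _ ≤ t * (W * X ^ 20) := h7
      _ = t * W * X ^ 20 := by ring

end ASY

theorem t_ASY : M_ASY := by
  intro hLRG ε hε
  set ε' := min ε 1 with hε'
  have h0 : 0 < ε' := lt_min hε one_pos
  have h1 : ε' ≤ 1 := min_le_right _ _
  have h2 : ε' ≤ ε := min_le_left _ _
  obtain ⟨v₀, hv₀, hv⟩ := hLRG (ε' / 20) (10 ^ 13) (by positivity)
  refine ⟨v₀, fun v hvv r t ht h => ?_⟩
  obtain ⟨a, b, c⟩ := hv v hvv
  have hv2 : (2 : ℝ) ≤ v := by exact_mod_cast hv₀.trans hvv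
  have hv1 : (1 : ℝ) ≤ v := by linarith
  have hvp : (0 : ℝ) < v := by linarith
  have e1 : ((v : ℝ) ^ (ε' / 20)) ^ 20 = (v : ℝ) ^ ε' := by
    rw [← Real.rpow_natCast, ← Real.rpow_mul hvp.le]
    congr 1
    push_cast
    ring
  have hXV : ((v : ℝ) ^ (ε' / 20)) ^ 20 ≤ (v : ℝ) := by
    rw [e1]
    calc (v : ℝ) ^ ε' ≤ (v : ℝ) ^ (1 : ℝ) := Real.rpow_le_rpow_of_exponent_le hv1 h1
      _ = v := Real.rpow_one _
  have hmain := ASY.core (r := r) ht c hXV a b h
  rw [e1] at hmain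
  refine le_trans ?_ hmain
  calc (v : ℝ) ^ (3 - ε) ≤ (v : ℝ) ^ (3 - ε') :=
        Real.rpow_le_rpow_of_exponent_le hv1 (by linarith)
    _ = (v : ℝ) ^ 3 / (v : ℝ) ^ ε' := by
        rw [Real.rpow_sub hvp]
        congr 1
        exact_mod_cast Real.rpow_natCast (v : ℝ) 3

end Pool.Agent.NegTri
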