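import Pool.Agent.NegTri.Stmts

/-!
# The averaging argument over the blocks
-/

set_option autoImplicit false

namespace Pool.Agent.NegTri

open Classical

namespace AVG

/-- A triangle is not bipartite. -/
lemma no_tri {k : ℕ} (t : Fin k × Fin k × Fin k) (χ : Fin 3 × Fin k → Bool)
    (h : ∀ e ∈ tri t, e ∈ bip χ) : False := by
  have h1 : ((0 : Fin 3), t.1, t.2.1) ∈ bip χ := h _ (Or.inl rfl)
  have h2 : ((1 : Fin 3), t.2.1, t.2.2) ∈ bip χ := h _ (Or.inr (Or.inl rfl))
  have h3 : ((2 : Fin 3), t.2.2, t.1) ∈ bip χ := h _ (Or.inr (Or.inr rfl))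
  have h1' : χ (0, t.1) ≠ χ (1, t.2.1) := h1
  have h2' : χ (1, t.2.1) ≠ χ (2, t.2.2) := h2
  have h3' : χ (2, t.2.2) ≠ χ (0, t.1) := h3
  revert h1' h2' h3'
  generalize χ (0, t.1) = a
  generalize χ (1, t.2.1) = b
  generalize χ (2, t.2.2) = c
  cases a <;> cases b <;> cases c <;> simp

/-- The input `w` in the block `b`. -/
def blk {B : Type} {k : ℕ} (b : B) (w : Set (T k)) : Set (B × T k) := (fun e => (b, e)) '' w

lemma mem_blk {B : Type} {k : ℕ} (b b' : B) (w : Set (T k)) (e : T k) :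
    (b', e) ∈ blk b w ↔ b' = b ∧ e ∈ w := by
  constructor
  · rintro ⟨e', he', h⟩
    have h1 := congrArg Prod.fst h
    have h2 := congrArg Prod.snd h
    exact ⟨h1.symm, by
      have h3 : e' = e := h2
      rwa [← h3]⟩
  · rintro ⟨rfl, h⟩
    exact ⟨e, h, rfl⟩

lemma accT_eq {k : ℕ} (D : Circ (T k)) :
    (accT D : ℝ) = ∑ t : Fin k × Fin k × Fin k, if D.Acc (tri t) then (1 : ℝ) else 0 := by
  unfold accT
  rw [Finset.card_filter]
  push_cast
  rfl

lemma accB_eq {k : ℕ} (D : Circ (T k)) :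
    (accB D : ℝ) = ∑ χ : Fin 3 × Fin k → Bool, if D.Acc (bip χ) then (1 : ℝ) else 0 := by
  unfold accB
  rw [Finset.card_filter]
  push_cast
  rfl

lemma step {B : Type} {k s : ℕ} (hk : 1 ≤ k) {Ω : Type} [Fintype Ω] (p : Ω → ℝ)
    (C : Ω → Circ (B × T k)) (hp0 : ∀ ω, 0 ≤ p ω) (hp1 : ∑ ω, p ω = 1)
    (N : Ω → Set (B × T k) → ℕ) (hN : ∀ ω x y, x ⊆ y → N ω y ≤ N ω x) (R : Set (B × T k)) (b : B)
    (D : Ω → Circ (T k)) (hD0 : ∀ ω, (D ω).negs = 0) (hDs : ∀ ω, (D ω).size ≤ s + 1)
    (hD1 : ∀ ω w, (C ω).Acc (R ∪ blk b w) → (D ω).Acc w)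
    (hD2 : ∀ ω w, N ω (R ∪ blk b w) = N ω R → (D ω).Acc w → (C ω).Acc (R ∪ blk b w))
    (hgap : ∀ D : Circ (T k), D.negs = 0 → D.size ≤ s + 1 → ¬ Gap D)
    (hpos : ∀ t, 7 / 12 ≤ prob p C (R ∪ blk b (tri t)))
    (hneg : ∀ χ, prob p C (R ∪ blk b (bip χ)) ≤ 1 / 3) :
    ∃ χ, ∑ ω, p ω * N ω (R ∪ blk b (bip χ)) ≤ ∑ ω, p ω * N ω R - 1 / 6 := by
  by_contra hcon
  push Not at hcon
  have hk3 : (0 : ℝ) < (k : ℝ) ^ 3 := by
    have : (0 : ℝ) < k := by exact_mod_cast hk
    positivity
  have h2k : (0 : ℝ) < (2 : ℝ) ^ (3 * k) := by positivity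
  have cT : (Finset.univ : Finset (Fin k × Fin k × Fin k)).card = k ^ 3 := by
    rw [Finset.card_univ]
    simp only [Fintype.card_prod, Fintype.card_fin]
    ring
  have cB : (Finset.univ : Finset (Fin 3 × Fin k → Bool)).card = 2 ^ (3 * k) := by
    rw [Finset.card_univ]
    simp only [Fintype.card_fun, Fintype.card_prod, Fintype.card_fin, Fintype.card_bool]
  -- the gap for every circuit
  have h1 : ∑ ω, p ω * ((accT (D ω) : ℝ) / (k : ℝ) ^ 3 - (accB (D ω) : ℝ) / 2 ^ (3 * k)) ≤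
      1 / 12 := by
    calc ∑ ω, p ω * ((accT (D ω) : ℝ) / (k : ℝ) ^ 3 - (accB (D ω) : ℝ) / 2 ^ (3 * k))
        ≤ ∑ ω, p ω * (1 / 12) := by
          apply Finset.sum_le_sum
          intro ω _
          apply mul_le_mul_of_nonneg_left _ (hp0 ω)
          have := hgap (D ω) (hD0 ω) (hDs ω)
          unfold Gap at this
          push Not at this
          exact this.le
      _ = 1 / 12 := by rw [← Finset.sum_mul, hp1, one_mul]
  have h2 : ∑ ω, p ω * ((accT (D ω) : ℝ) / (k : ℝ) ^ 3 - (accB (D ω) : ℝ) / 2 ^ (3 * k)) =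
      (∑ ω, p ω * (accT (D ω) : ℝ)) / (k : ℝ) ^ 3 -
        (∑ ω, p ω * (accB (D ω) : ℝ)) / 2 ^ (3 * k) := by
    rw [Finset.sum_div, Finset.sum_div, ← Finset.sum_sub_distrib]
    apply Finset.sum_congr rfl
    intro ω _
    ring
  have h3 : 7 / 12 * (k : ℝ) ^ 3 ≤ ∑ ω, p ω * (accT (D ω) : ℝ) := by
    have e1 : ∑ ω, p ω * (accT (D ω) : ℝ) =
        ∑ t : Fin k × Fin k × Fin k, ∑ ω, (if (D ω).Acc (tri t) then p ω else 0) := by
      rw [Finset.sum_comm]
      apply Finset.sum_congr rfl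
      intro ω _
      rw [accT_eq, Finset.mul_sum]
      apply Finset.sum_congr rfl
      intro t _
      rw [mul_ite, mul_one, mul_zero]
    rw [e1]
    calc 7 / 12 * (k : ℝ) ^ 3 = ∑ _t : Fin k × Fin k × Fin k, (7 / 12 : ℝ) := by
          rw [Finset.sum_const, cT, nsmul_eq_mul]
          push_cast
          ring
      _ ≤ _ := by
          apply Finset.sum_le_sum
          intro t _
          refine (hpos t).trans ?_
          unfold prob
          apply Finset.sum_le_sum
          intro ω _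
          by_cases hA : (C ω).Acc (R ∪ blk b (tri t))
          · rw [if_pos hA, if_pos (hD1 ω _ hA)]
          · rw [if_neg hA]
            split_ifs
            · exact hp0 ω
            · exact le_refl _
  have h4 : ∑ ω, p ω * (accB (D ω) : ℝ) < 1 / 2 * 2 ^ (3 * k) := by
    have e1 : ∑ ω, p ω * (accB (D ω) : ℝ) =
        ∑ χ : Fin 3 × Fin k → Bool, ∑ ω, (if (D ω).Acc (bip χ) then p ω else 0) := by
      rw [Finset.sum_comm]
      apply Finset.sum_congr rfl
      intro ω _
      rw [accB_eq, Finset.mul_sum]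
      apply Finset.sum_congr rfl
      intro t _
      rw [mul_ite, mul_one, mul_zero]
    rw [e1]
    have e2 : ∀ χ : Fin 3 × Fin k → Bool,
        ∑ ω, (if (D ω).Acc (bip χ) then p ω else 0) < 1 / 2 := by
      intro χ
      have e3 : ∑ ω, (if (D ω).Acc (bip χ) then p ω else 0) ≤
          prob p C (R ∪ blk b (bip χ)) +
            (∑ ω, p ω * N ω R - ∑ ω, p ω * N ω (R ∪ blk b (bip χ))) := by
        unfold prob
        rw [← Finset.sum_sub_distrib, ← Finset.sum_add_distrib]
        apply Finset.sum_le_sum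
        intro ω _
        have hle : (N ω (R ∪ blk b (bip χ)) : ℝ) ≤ N ω R := by
          exact_mod_cast hN ω _ _ Set.subset_union_left
        have hp := hp0 ω
        have hmul : p ω * (N ω (R ∪ blk b (bip χ)) : ℝ) ≤ p ω * N ω R :=
          mul_le_mul_of_nonneg_left hle hp
        by_cases hA : (D ω).Acc (bip χ)
        · rw [if_pos hA]
          by_cases hE : N ω (R ∪ blk b (bip χ)) = N ω R
          · rw [if_pos (hD2 ω _ hE hA)]
            linarith
          · have hlt : N ω (R ∪ blk b (bip χ)) + 1 ≤ N ω R :=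
              lt_of_le_of_ne (hN ω _ _ Set.subset_union_left) hE
            have hlt' : (N ω (R ∪ blk b (bip χ)) : ℝ) + 1 ≤ N ω R := by exact_mod_cast hlt
            have h5 : p ω * ((N ω (R ∪ blk b (bip χ)) : ℝ) + 1) ≤ p ω * N ω R :=
              mul_le_mul_of_nonneg_left hlt' hp
            split_ifs <;> nlinarith
        · rw [if_neg hA]
          split_ifs <;> nlinarith
      have e4 := hneg χ
      have e5 := hcon χ
      linarith
    calc ∑ χ : Fin 3 × Fin k → Bool, ∑ ω, (if (D ω).Acc (bip χ) then p ω else 0)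
        < ∑ _χ : Fin 3 × Fin k → Bool, (1 / 2 : ℝ) := by
          apply Finset.sum_lt_sum_of_nonempty
          · exact ⟨fun _ => true, Finset.mem_univ _⟩
          · intro χ _
            exact e2 χ
      _ = 1 / 2 * 2 ^ (3 * k) := by
          rw [Finset.sum_const, cB, nsmul_eq_mul]
          push_cast
          ring
  rw [h2] at h1
  have h5 : 7 / 12 ≤ (∑ ω, p ω * (accT (D ω) : ℝ)) / (k : ℝ) ^ 3 := by
    rwa [le_div_iff₀ hk3]
  have h6 : (∑ ω, p ω * (accB (D ω) : ℝ)) / 2 ^ (3 * k) < 1 / 2 := by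
    rwa [div_lt_iff₀ h2k]
  linarith

end AVG

open AVG in
theorem t_AVG : M_AVG := by
  intro hGUE hRST B _ k r s Ω _ p C hk hp0 hp1 hsz hng hpos hneg hB
  by_contra hcon
  have hgap : ∀ D : Circ (T k), D.negs = 0 → D.size ≤ s + 1 → ¬ Gap D :=
    fun D h1 h2 h3 => hcon ⟨D, h1, h2, h3⟩
  choose N hN1 hN2 hN3 using fun ω => hGUE (B × T k) (C ω)
  have claim : ∀ n : ℕ, n ≤ Fintype.card B → ∃ (A : Finset B) (R : Set (B × T k)), A.card = n ∧
      (∀ e ∈ R, e.1 ∈ A) ∧
      (∀ b : B, ∃ χ : Fin 3 × Fin k → Bool, ∀ e, (b, e) ∈ R → e ∈ bip χ) ∧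
      ∑ ω, p ω * N ω R ≤ 2 ^ r - 1 - (n : ℝ) / 6 := by
    intro n
    induction n with
    | zero =>
      intro _
      refine ⟨∅, ∅, rfl, by simp, fun b => ⟨fun _ => true, by simp⟩, ?_⟩
      have h1 : ∀ ω, (N ω ∅ : ℝ) ≤ 2 ^ r - 1 := by
        intro ω
        have h2 := hN1 ω ∅
        have h3 : 2 ^ (C ω).negs ≤ 2 ^ r := Nat.pow_le_pow_right (by norm_num) (hng ω)
        have h4 : N ω ∅ + 1 ≤ 2 ^ r := by omega
        have h5 : (N ω ∅ : ℝ) + 1 ≤ 2 ^ r := by exact_mod_cast h4
        linarith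
      calc ∑ ω, p ω * N ω ∅ ≤ ∑ ω, p ω * (2 ^ r - 1) :=
            Finset.sum_le_sum fun ω _ => mul_le_mul_of_nonneg_left (h1 ω) (hp0 ω)
        _ = 2 ^ r - 1 - ((0 : ℕ) : ℝ) / 6 := by
          rw [← Finset.sum_mul, hp1]
          simp
    | succ n ih =>
      intro hn
      obtain ⟨A, R, hA, hR, hχ, hΦ⟩ := ih (by omega)
      obtain ⟨b, hb⟩ : ∃ b, b ∉ A := by
        by_contra hall
        push Not at hall
        have h1 : A = Finset.univ := Finset.eq_univ_iff_forall.mpr hall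
        rw [h1, Finset.card_univ] at hA
        omega
      choose D₀ hD1 hD2 hD3 using fun ω => hN3 ω R
      choose D hDs hDn hDa using fun ω => hRST (B × T k) (T k) (D₀ ω) R (fun e => (b, e))
        (fun x y hxy => (Prod.mk.inj hxy).2)
      have hbR : ∀ e, (b, e) ∉ R := fun e he => hb (hR _ he)
      obtain ⟨χ, hχ'⟩ := step (s := s) hk p C hp0 hp1 N (fun ω => hN2 ω) R b D
        (fun ω => (hDn ω).trans (hD1 ω))
        (fun ω => by
          rw [hDs ω]
          have := hD2 ω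
          have := hsz ω
          omega)
        (fun ω w h => (hDa ω w).mpr ((hD3 ω _ Set.subset_union_left).1 h))
        (fun ω w h h' => (hD3 ω _ Set.subset_union_left).2 h ((hDa ω w).mp h'))
        hgap
        (fun t => hpos _ ⟨b, t, fun e he => Or.inr ((mem_blk _ _ _ _).mpr ⟨rfl, he⟩)⟩)
        (fun χ => hneg _ (by
          rintro ⟨b', t, ht⟩
          by_cases hbb : b' = b
          · subst hbb
            refine no_tri t χ fun e he => ?_
            rcases ht e he with h | h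
            · exact absurd h (hbR e)
            · exact ((mem_blk _ _ _ _).mp h).2
          · obtain ⟨χ', hχ'⟩ := hχ b'
            refine no_tri t χ' fun e he => ?_
            rcases ht e he with h | h
            · exact hχ' e h
            · exact absurd ((mem_blk _ _ _ _).mp h).1 hbb))
      refine ⟨insert b A, R ∪ blk b (bip χ), ?_, ?_, ?_, ?_⟩
      · rw [Finset.card_insert_of_notMem hb, hA]
      · rintro ⟨b', e⟩ he
        rcases he with he | he
        · exact Finset.mem_insert_of_mem (hR _ he)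
        · rw [((mem_blk _ _ _ _).mp he).1]
          exact Finset.mem_insert_self _ _
      · intro b'
        by_cases hbb : b' = b
        · subst hbb
          refine ⟨χ, fun e he => ?_⟩
          rcases he with h | h
          · exact absurd h (hbR e)
          · exact ((mem_blk _ _ _ _).mp h).2
        · obtain ⟨χ', hχ'⟩ := hχ b'
          refine ⟨χ', fun e he => ?_⟩
          rcases he with h | h
          · exact hχ' e h
          · exact absurd ((mem_blk _ _ _ _).mp h).1 hbb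
      · refine hχ'.trans ?_
        push_cast
        linarith
  obtain ⟨A, R, _, _, _, hΦ⟩ := claim (Fintype.card B) le_rfl
  have h0 : 0 ≤ ∑ ω, p ω * (N ω R : ℝ) :=
    Finset.sum_nonneg fun ω _ => mul_nonneg (hp0 ω) (Nat.cast_nonneg _)
  have h1 : (6 : ℝ) * 2 ^ r ≤ Fintype.card B := by exact_mod_cast hB
  linarith

end Pool.Agent.NegTri
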