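import Pool.Agent.NegTri.Stmts

/-!
# The core inequality (module COR)
-/

set_option autoImplicit false

namespace Pool.Agent.NegTri

namespace COR

/-- The probability depends only on which circuits accept. -/
theorem prob_congr {E F Ω : Type} [Fintype Ω] (p : Ω → ℝ) (C : Ω → Circ E) (D : Ω → Circ F)
    (x : Set E) (y : Set F) (h : ∀ ω, (D ω).Acc y ↔ (C ω).Acc x) :
    prob p D y = prob p C x := by
  unfold prob
  refine Finset.sum_congr rfl fun ω _ => ?_
  by_cases hx : (C ω).Acc x
  · rw [if_pos hx, if_pos ((h ω).2 hx)]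
  · rw [if_neg hx, if_neg (fun hy => hx ((h ω).1 hy))]

end COR

theorem t_COR : M_COR := by
  intro hRST hAVG hTRI hRSZ v q k d r s Ω _ p C hk hd hqk hr hp0 hp1 hsz hng hT hF
  obtain ⟨S, hSsub, hScard, hSfree⟩ := rothNumberNat_spec q
  obtain ⟨em, hem, hG⟩ :=
    hRSZ q k v S (fun a ha => Finset.mem_range.1 (hSsub ha)) hSfree hqk
  choose C' hC'size hC'negs hC'acc using fun ω => hRST _ _ (C ω) ∅ em hem
  have hprob : ∀ P : Set ((Fin q × S) × T k), prob p C' P = prob p C (em '' P) := by
    intro P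
    refine COR.prob_congr p C C' (em '' P) P fun ω => ?_
    rw [hC'acc ω P, Set.empty_union]
  have hcard : Fintype.card (Fin q × S) = q * rothNumberNat q := by
    rw [Fintype.card_prod, Fintype.card_fin, Fintype.card_coe, hScard]
  obtain ⟨D, hDneg, hDsize, hDgap⟩ := hAVG (Fin q × S) k r s Ω p C' hk hp0 hp1
    (fun ω => (hC'size ω).trans_le (hsz ω)) (fun ω => (hC'negs ω).trans_le (hng ω))
    (fun P hP => by
      obtain ⟨G, hGe, hGt⟩ := hG P
      rw [hprob P, ← hGe]
      exact hT G (hGt.2 hP))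
    (fun P hP => by
      obtain ⟨G, hGe, hGt⟩ := hG P
      rw [hprob P, ← hGe]
      refine hF G ?_
      by_contra hc
      exact hP (hGt.1 hc))
    (by rw [hcard]; exact hr)
  rcases hTRI k d hk hd D hDneg hDgap with h | h
  · left
    exact h.trans (Nat.mul_le_mul_left _ hDsize)
  · right
    exact h.trans (Nat.add_le_add_left (Nat.mul_le_mul_left _ hDsize) _)

end Pool.Agent.NegTri
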