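import Mathlib
import Pool.Agent.NegTri.Stmts

/-!
# Module CRI: the criterion for circuits without NOT gates
-/

set_option autoImplicit false

namespace Pool.Agent.NegTri

namespace CRI

variable {E : Type}

theorem good_mono {s : ℕ} {Cl Dm Cl' Dm' : Finset (Finset E)} {g : Set E → ℝ} (h1 : Cl ⊆ Cl')
    (h2 : Dm ⊆ Dm') (hg : Good s Cl Dm g) : Good s Cl' Dm' g := by
  obtain ⟨I, hc, ha, hp, hn⟩ := hg
  refine ⟨I, hc, ha, ?_, ?_⟩
  · intro x c hx
    rcases hp x c hx with h | ⟨q, hq, hq'⟩
    · exact Or.inl h
    · exact Or.inr ⟨q, h2 hq, hq'⟩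
  · intro y c hy hgy
    exact hn y c (fun K hK => hy K (h1 hK)) hgy

theorem hit_none (x : Set E) : Hit none x := by
  intro F hF
  cases hF

theorem not_hit_empty (y : Set E) : ¬ Hit (some (∅ : Finset E)) y := by
  intro h
  obtain ⟨e, he, _⟩ := h ∅ rfl
  exact absurd he (Finset.notMem_empty e)

theorem good_const {s : ℕ} (hs : 2 ≤ s) (Cl Dm : Finset (Finset E)) (a : ℝ) :
    Good s Cl Dm (fun _ => a) := by
  refine ⟨fun c => if c < a then none else some ∅, ?_, ?_, ?_, ?_⟩
  · intro c F hF
    simp only at hF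
    split_ifs at hF
    cases hF
    simp only [Finset.card_empty]
    omega
  · intro c c' F hcc hF
    simp only at hF
    split_ifs at hF with h
    refine ⟨∅, ?_, Finset.empty_subset _⟩
    exact if_neg (not_lt.mpr (by linarith [not_lt.mp h]))
  · intro x c hc
    left
    simp only
    rw [if_pos hc]
    exact hit_none x
  · intro y c _ hc
    simp only
    rw [if_neg (not_lt.mpr hc)]
    exact not_hit_empty y

theorem good_inp {s : ℕ} (hs : 2 ≤ s) (Cl Dm : Finset (Finset E)) (e : E) (v : Set E → List ℝ) :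
    Good s Cl Dm (fun x => (Src.inp e).val x (v x)) := by
  classical
  refine ⟨fun c => if c < 0 then none else if c < 1 then some {e} else some ∅, ?_, ?_, ?_, ?_⟩
  · intro c F hF
    simp only at hF
    split_ifs at hF
    · cases hF
      rw [Finset.card_singleton]
      omega
    · cases hF
      rw [Finset.card_empty]
      omega
  · intro c c' F hcc hF
    simp only at hF ⊢
    split_ifs at hF with h1 h2
    · cases hF
      rw [if_neg (by linarith)]
      split_ifs
      · exact ⟨{e}, rfl, subset_rfl⟩
      · exact ⟨∅, rfl, Finset.empty_subset _⟩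
    · cases hF
      rw [if_neg (by linarith), if_neg (by linarith)]
      exact ⟨∅, rfl, subset_rfl⟩
  · intro x c hc
    left
    simp only [Src.val] at hc ⊢
    split_ifs with h1 h2
    · exact hit_none x
    · intro F hF
      cases hF
      refine ⟨e, Finset.mem_singleton_self e, ?_⟩
      by_contra he
      rw [if_neg he] at hc
      exact h1 hc
    · exfalso
      split_ifs at hc
      · exact h2 hc
      · exact h1 hc
  · intro y c _ hc
    simp only [Src.val] at hc ⊢
    split_ifs with h1 h2
    · exfalso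
      split_ifs at hc
      · linarith
      · linarith
    · intro hh
      obtain ⟨f, hf, hfy⟩ := hh {e} rfl
      rw [Finset.mem_singleton] at hf
      rw [hf] at hfy
      rw [if_pos hfy] at hc
      linarith
    · exact not_hit_empty y

theorem good_src {s : ℕ} (hs : 2 ≤ s) (Cl Dm : Finset (Finset E)) (v : Set E → List ℝ)
    (hv : ∀ i, Good s Cl Dm (fun x => (v x).getD i 0)) (t : Src E) :
    Good s Cl Dm (fun x => t.val x (v x)) := by
  cases t with
  | inp e => exact good_inp hs Cl Dm e v
  | cst a => exact good_const hs Cl Dm a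
  | reg i => exact hv i

theorem run_append (x : Set E) (gs : List (Gate E)) (g : Gate E) :
    run x (gs ++ [g]) = run x gs ++ [g.val x (run x gs)] := by
  unfold run
  rw [List.foldl_append]
  rfl

theorem run_length (x : Set E) (gs : List (Gate E)) : (run x gs).length = gs.length := by
  induction gs using List.reverseRecOn with
  | nil => rfl
  | append_singleton gs g ih =>
    rw [run_append, List.length_append, List.length_append, ih]
    rfl

theorem good_append {s : ℕ} (hs : 2 ≤ s) (Cl Dm : Finset (Finset E)) (gs : List (Gate E))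
    (g : Gate E) (h1 : ∀ i, Good s Cl Dm (fun x => (run x gs).getD i 0))
    (h2 : Good s Cl Dm (fun x => g.val x (run x gs))) (i : ℕ) :
    Good s Cl Dm (fun x => (run x (gs ++ [g])).getD i 0) := by
  rcases lt_trichotomy i gs.length with h | h | h
  · have h3 : (fun x : Set E => (run x (gs ++ [g])).getD i 0) =
        fun x => (run x gs).getD i 0 := by
      funext x
      rw [run_append, List.getD_append _ _ _ _ (by rw [run_length]; exact h)]
    rw [h3]
    exact h1 i
  · have h3 : (fun x : Set E => (run x (gs ++ [g])).getD i 0) =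
        fun x => g.val x (run x gs) := by
      funext x
      rw [run_append, List.getD_append_right _ _ _ _ (by rw [run_length]; omega), run_length, h,
        Nat.sub_self]
      rfl
    rw [h3]
    exact h2
  · have h3 : (fun x : Set E => (run x (gs ++ [g])).getD i 0) = fun _ => (0 : ℝ) := by
      funext x
      rw [run_append, List.getD_append_right _ _ _ _ (by rw [run_length]; omega), run_length]
      apply List.getD_eq_default
      rw [List.length_singleton]
      omega
    rw [h3]
    exact good_const hs Cl Dm 0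

theorem step_union {s n : ℕ} {Cl Cl' Dm Dm' : Finset (Finset E)}
    (hCl : ∀ K ∈ Cl, K.card = s) (hDm : ∀ q ∈ Dm, q.card = 2)
    (c1 : Cl.card ≤ s * n) (c2 : Dm.card ≤ s ^ 2 * n)
    (h3 : ∀ K ∈ Cl', K ∈ Cl ∨ K.card = s) (h4 : ∀ q ∈ Dm', q ∈ Dm ∨ q.card = 2)
    (h5 : Cl'.card ≤ Cl.card + s) (h6 : Dm'.card ≤ Dm.card + s ^ 2) :
    (∀ K ∈ Cl', K.card = s) ∧ (∀ q ∈ Dm', q.card = 2) ∧ Cl'.card ≤ s * (n + 1) ∧
      Dm'.card ≤ s ^ 2 * (n + 1) := by
  refine ⟨fun K hK => ?_, fun q hq => ?_, ?_, ?_⟩
  · rcases h3 K hK with h | h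
    · exact hCl K h
    · exact h
  · rcases h4 q hq with h | h
    · exact hDm q h
    · exact h
  · rw [mul_add, mul_one]
    omega
  · rw [mul_add, mul_one]
    omega

theorem main [Fintype E] (hO : S_GMO) (hX : S_GMX) (hN : S_GMN) {s : ℕ} (hs : 2 ≤ s)
    (gs : List (Gate E)) (hok : ∀ g ∈ gs, g.Ok) (hneg : ∀ g ∈ gs, ¬ g.isNeg = true) :
    ∃ Cl Dm : Finset (Finset E),
      (∀ K ∈ Cl, K.card = s) ∧ (∀ q ∈ Dm, q.card = 2) ∧
      Cl.card ≤ s * gs.length ∧ Dm.card ≤ s ^ 2 * gs.length ∧
      ∀ i, Good s Cl Dm (fun x => (run x gs).getD i 0) := by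
  induction gs using List.reverseRecOn with
  | nil =>
    refine ⟨∅, ∅, by simp, by simp, by simp, by simp, fun i => ?_⟩
    exact good_const hs _ _ 0
  | append_singleton gs g ih =>
    obtain ⟨Cl, Dm, hCl, hDm, c1, c2, hi⟩ := ih
      (fun g' hg' => hok g' (List.mem_append_left _ hg'))
      (fun g' hg' => hneg g' (List.mem_append_left _ hg'))
    have hgok : g.Ok := hok g (List.mem_append_right _ (List.mem_singleton_self g))
    have hgneg : ¬ g.isNeg = true := hneg g (List.mem_append_right _ (List.mem_singleton_self g))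
    have hsrc := good_src hs Cl Dm (fun x => run x gs) hi
    rw [List.length_append, List.length_singleton]
    cases g with
    | mono φ a b =>
      obtain ⟨Cl', Dm', h1, h2, h3, h4, h5, h6, h7⟩ := hO E s Cl Dm _ _ φ hgok (hsrc a) (hsrc b)
      obtain ⟨k1, k2, k3, k4⟩ := step_union hCl hDm c1 c2 h3 h4 h5 h6
      exact ⟨Cl', Dm', k1, k2, k3, k4,
        good_append hs Cl' Dm' gs _ (fun i => good_mono h1 h2 (hi i)) h7⟩
    | mx a l =>
      obtain ⟨Cl', h1, h3, h5, h7⟩ := hX E s Cl Dm (fun x => a.val x (run x gs))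
        (l.map fun t => fun x => t.val x (run x gs)) (hsrc a) (by
          intro h hh
          rw [List.mem_map] at hh
          obtain ⟨t, _, rfl⟩ := hh
          exact hsrc t)
      obtain ⟨k1, k2, k3, k4⟩ := step_union hCl hDm c1 c2 h3 (fun q hq => Or.inl hq)
        (by omega) (by omega)
      refine ⟨Cl', Dm, k1, k2, k3, k4,
        good_append hs Cl' Dm gs _ (fun i => good_mono h1 subset_rfl (hi i)) ?_⟩
      simp only [List.foldr_map] at h7
      exact h7
    | mn a l =>
      obtain ⟨Dm', h1, h3, h5, h7⟩ := hN E s Cl Dm (fun x => a.val x (run x gs))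
        (l.map fun t => fun x => t.val x (run x gs)) (hsrc a) (by
          intro h hh
          rw [List.mem_map] at hh
          obtain ⟨t, _, rfl⟩ := hh
          exact hsrc t)
      obtain ⟨k1, k2, k3, k4⟩ := step_union hCl hDm c1 c2 (fun q hq => Or.inl hq) h3
        (by omega) h5
      refine ⟨Cl, Dm', k1, k2, k3, k4,
        good_append hs Cl Dm' gs _ (fun i => good_mono subset_rfl h1 (hi i)) ?_⟩
      simp only [List.foldr_map] at h7
      exact h7
    | neg ψ a => exact absurd rfl hgneg

end CRI

theorem t_CRI : M_CRI := by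
  intro hO hX hN E _ s hs C hC
  have hneg : ∀ g ∈ C.gates, ¬ g.isNeg = true := by
    have h := hC
    unfold Circ.negs at h
    rw [List.countP_eq_zero] at h
    exact h
  obtain ⟨Cl, Dm, hCl, hDm, c1, c2, hi⟩ := CRI.main hO hX hN hs C.gates C.ok hneg
  refine ⟨Cl, Dm, hCl, hDm, c1, c2, ?_⟩
  obtain ⟨I, hcard, _, hp, hn⟩ := CRI.good_src hs Cl Dm (fun x => run x C.gates) hi C.out
  rcases hI : I 0 with _ | F
  · left
    intro y hy
    by_contra hacc
    unfold Circ.Acc Circ.val at hacc
    have h1 := hn y 0 hy (not_lt.mp hacc)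
    rw [hI] at h1
    exact h1 (CRI.hit_none y)
  · right
    refine ⟨F, hcard 0 F hI, fun x hx => ?_⟩
    rcases hp x 0 hx with h | h
    · left
      exact h F hI
    · right
      exact h

end Pool.Agent.NegTri
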