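import Pool.Agent.NegTri.Stmts

/-!
# The main theorem from the core inequality and the asymptotics (module FIN)

A random circuit is cut at twelve times its expected size; by Markov this changes the acceptance
probabilities by at most `1/12`.
-/

set_option autoImplicit false

namespace Pool.Agent.NegTri

open Classical

namespace FIN

/-- The circuit without gates whose output is the constant zero. -/
def zero (E : Type) : Circ E := ⟨[], by simp, Src.cst 0⟩

theorem zero_acc {E : Type} (x : Set E) : ¬ (zero E).Acc x := by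
  simp [Circ.Acc, Circ.val, zero, Src.val]

theorem zero_size (E : Type) : (zero E).size = 0 := rfl

theorem zero_negs (E : Type) : (zero E).negs = 0 := rfl

/-- Circuits of size more than `s` are replaced by the trivial circuit. -/
noncomputable def cut {E Ω : Type} (C : Ω → Circ E) (s : ℕ) (ω : Ω) : Circ E :=
  if (C ω).size ≤ s then C ω else zero E

theorem cut_size {E Ω : Type} (C : Ω → Circ E) (s : ℕ) (ω : Ω) : (cut C s ω).size ≤ s := by
  unfold cut
  split_ifs with h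
  · exact h
  · rw [zero_size]; exact Nat.zero_le _

theorem negs_le_size {E : Type} (C : Circ E) : C.negs ≤ C.size := List.countP_le_length

theorem cut_negs {E Ω : Type} (C : Ω → Circ E) (r s : ℕ) (h : ∀ ω, (C ω).negs ≤ r) (ω : Ω) :
    (cut C s ω).negs ≤ min r s := by
  refine le_min ?_ ((negs_le_size _).trans (cut_size C s ω))
  unfold cut
  split_ifs with h'
  · exact h ω
  · rw [zero_negs]; exact Nat.zero_le _

theorem prob_cut_le {E Ω : Type} [Fintype Ω] (p : Ω → ℝ) (C : Ω → Circ E) (s : ℕ)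
    (hp : ∀ ω, 0 ≤ p ω) (x : Set E) : prob p (cut C s) x ≤ prob p C x := by
  unfold prob
  refine Finset.sum_le_sum fun ω _ => ?_
  unfold cut
  by_cases h : (C ω).size ≤ s
  · simp only [h, if_true]; exact le_refl _
  · simp only [h, if_false]
    rw [if_neg (zero_acc x)]
    split_ifs
    · exact hp ω
    · exact le_refl _

theorem prob_le_cut {E Ω : Type} [Fintype Ω] (p : Ω → ℝ) (C : Ω → Circ E) (s : ℕ)
    (hp : ∀ ω, 0 ≤ p ω) (x : Set E) :
    prob p C x ≤ prob p (cut C s) x + ∑ ω, (if (C ω).size ≤ s then 0 else p ω) := by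
  unfold prob
  rw [← Finset.sum_add_distrib]
  refine Finset.sum_le_sum fun ω _ => ?_
  unfold cut
  by_cases h : (C ω).size ≤ s
  · simp only [h, if_true, add_zero]; exact le_refl _
  · simp only [h, if_false]
    rw [if_neg (zero_acc x), zero_add]
    split_ifs
    · exact le_refl _
    · exact hp ω

theorem markov {E Ω : Type} [Fintype Ω] (p : Ω → ℝ) (C : Ω → Circ E) (t : ℝ)
    (hp : ∀ ω, 0 ≤ p ω) (ht : t = ∑ ω, p ω * (C ω).size) :
    ∑ ω, (if (C ω).size ≤ ⌊12 * t⌋₊ then 0 else p ω) ≤ 1 / 12 := by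
  have hnn : ∀ ω, 0 ≤ p ω * ((C ω).size : ℝ) := fun ω => mul_nonneg (hp ω) (Nat.cast_nonneg _)
  have ht0 : 0 ≤ t := by rw [ht]; exact Finset.sum_nonneg fun ω _ => hnn ω
  rcases ht0.eq_or_lt with h0 | hpos
  · have hz : ∀ ω ∈ Finset.univ, p ω * ((C ω).size : ℝ) = 0 := by
      refine (Finset.sum_eq_zero_iff_of_nonneg (fun ω _ => hnn ω)).1 ?_
      rw [← ht]; exact h0.symm
    have : ∑ ω, (if (C ω).size ≤ ⌊12 * t⌋₊ then (0 : ℝ) else p ω) = 0 := by
      refine Finset.sum_eq_zero fun ω _ => ?_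
      split_ifs with h
      · rfl
      · rcases mul_eq_zero.1 (hz ω (Finset.mem_univ _)) with h1 | h1
        · exact h1
        · exfalso
          apply h
          have : (C ω).size = 0 := by exact_mod_cast h1
          rw [this]; exact Nat.zero_le _
    rw [this]; norm_num
  · have key : (∑ ω, (if (C ω).size ≤ ⌊12 * t⌋₊ then 0 else p ω)) * (12 * t) ≤ t := by
      rw [Finset.sum_mul]
      conv_rhs => rw [ht]
      refine Finset.sum_le_sum fun ω _ => ?_
      split_ifs with h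
      · rw [zero_mul]; exact hnn ω
      · refine mul_le_mul_of_nonneg_left ?_ (hp ω)
        push Not at h
        exact (Nat.lt_of_floor_lt h).le
    have h12 : 0 < 12 * t := by positivity
    have := (le_div_iff₀ h12).2 key
    refine this.trans (le_of_eq ?_)
    field_simp

theorem first (hcor : S_COR) (hasy : S_ASY) (ε : ℝ) (hε : 0 < ε) :
    ∃ v₀ : ℕ, ∀ v : ℕ, v₀ ≤ v → ∀ (r : ℕ) (Ω : Type) [Fintype Ω] (p : Ω → ℝ)
    (C : Ω → Circ (Sym2 (Fin v))), Detects v p C → (∀ ω, (C ω).negs ≤ r) →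
      (v : ℝ) ^ (3 - ε) / 2 ^ (3 * (r : ℝ) / 2) ≤ ∑ ω, p ω * (C ω).size := by
  obtain ⟨v₀, hv₀⟩ := hasy ε hε
  refine ⟨v₀, fun v hv r Ω _ p C hdet hneg => ?_⟩
  obtain ⟨hp, hsum, hG⟩ := hdet
  have ht0 : (0 : ℝ) ≤ ∑ ω, p ω * (C ω).size :=
    Finset.sum_nonneg fun ω _ => mul_nonneg (hp ω) (Nat.cast_nonneg _)
  have hmark := markov p C (∑ ω, p ω * (C ω).size) hp rfl
  have hpos : (0 : ℝ) < 2 ^ (3 * (r : ℝ) / 2) := Real.rpow_pos_of_pos (by norm_num) _
  rw [div_le_iff₀ hpos]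
  refine hv₀ v hv r _ ht0 fun q k d hk hd hq h6 => ?_
  refine hcor v q k d (min r ⌊12 * ∑ ω, p ω * (C ω).size⌋₊) ⌊12 * ∑ ω, p ω * (C ω).size⌋₊ Ω p
    (cut C ⌊12 * ∑ ω, p ω * (C ω).size⌋₊) hk hd hq h6 hp hsum (cut_size C _)
    (cut_negs C r _ hneg) ?_ ?_
  · intro G hGc
    have h1 := (hG G).1 hGc
    have h2 := prob_le_cut p C ⌊12 * ∑ ω, p ω * (C ω).size⌋₊ hp G.edgeSet
    linarith
  · intro G hGc
    exact (prob_cut_le p C _ hp G.edgeSet).trans ((hG G).2 hGc)

theorem quot (v : ℕ) (hv : 1 ≤ v) (r : ℕ) (γ : ℝ)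
    (h : (r : ℝ) ≤ (2 / 3 - γ) * Real.logb 2 v) :
    (v : ℝ) ^ (2 + γ) ≤ (v : ℝ) ^ (3 - γ / 2) / 2 ^ (3 * (r : ℝ) / 2) := by
  have hv0 : (0 : ℝ) < v := by exact_mod_cast hv
  have h2 : (2 : ℝ) ^ (Real.logb 2 v) = v := Real.rpow_logb (by norm_num) (by norm_num) hv0
  have h3 : (2 : ℝ) ^ (3 * (r : ℝ) / 2) ≤ (v : ℝ) ^ (1 - 3 * γ / 2) := by
    have : (v : ℝ) ^ (1 - 3 * γ / 2) = (2 : ℝ) ^ (Real.logb 2 v * (1 - 3 * γ / 2)) := by
      rw [Real.rpow_mul (by norm_num), h2]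
    rw [this]
    refine Real.rpow_le_rpow_of_exponent_le (by norm_num) ?_
    nlinarith
  have hpos : (0 : ℝ) < 2 ^ (3 * (r : ℝ) / 2) := Real.rpow_pos_of_pos (by norm_num) _
  rw [le_div_iff₀ hpos]
  calc (v : ℝ) ^ (2 + γ) * 2 ^ (3 * (r : ℝ) / 2)
      ≤ (v : ℝ) ^ (2 + γ) * (v : ℝ) ^ (1 - 3 * γ / 2) :=
        mul_le_mul_of_nonneg_left h3 (Real.rpow_nonneg hv0.le _)
    _ = (v : ℝ) ^ (3 - γ / 2) := by
        rw [← Real.rpow_add hv0]
        congr 1
        ring

end FIN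

theorem t_FIN : M_FIN := by
  intro hcor hasy
  refine ⟨fun ε hε => FIN.first hcor hasy ε hε, fun γ hγ => ?_⟩
  obtain ⟨v₀, hv₀⟩ := FIN.first hcor hasy (γ / 2) (by positivity)
  refine ⟨max v₀ 1, fun v hv r Ω _ p C hdet hneg hr => ?_⟩
  have h1 := hv₀ v ((le_max_left _ _).trans hv) r Ω p C hdet hneg
  exact (FIN.quot v ((le_max_right _ _).trans hv) r γ hr).trans h1

end Pool.Agent.NegTri
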