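import Pool.Agent.NegTri.Stmts

/-!
# A gate `mn`
-/

set_option autoImplicit false

namespace Pool.Agent.NegTri

open Classical

namespace GMN

/-- The chain lemma. -/
theorem chain {α : Type} [Finite α] [Nonempty α] (L : ℝ → Set α)
    (hL : ∀ c c', c ≤ c' → L c ⊆ L c') : ∃ k, ∀ c, (L c).Nonempty → k ∈ L c := by
  by_contra hcon
  push Not at hcon
  choose c hc1 hc2 using hcon
  obtain ⟨k₀, hk₀⟩ := Finite.exists_min c
  obtain ⟨k', hk'⟩ := hc1 k₀
  exact hc2 k' (hL _ _ (hk₀ k') hk')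

/-- The chain lemma for families of small sets. -/
theorem chain2 {E : Type} [Fintype E] (s : ℕ) (L : ℝ → Set (Finset E))
    (hL : ∀ c c', c ≤ c' → L c ⊆ L c') (hs : ∀ c, ∀ κ ∈ L c, κ.card < s) :
    ∃ k : Finset E, k.card ≤ s ∧ ∀ c, (L c).Nonempty → k ∈ L c := by
  by_cases h : ∃ c, (L c).Nonempty
  · obtain ⟨c₀, hc₀⟩ := h
    obtain ⟨k, hk⟩ := chain L hL
    exact ⟨k, (hs c₀ k (hk c₀ hc₀)).le, hk⟩
  · exact ⟨∅, by simp, fun c hc => absurd ⟨c, hc⟩ h⟩

theorem lt_fold {E : Type} (g : Set E → ℝ) (l : List (Set E → ℝ)) (x : Set E) (c : ℝ)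
    (hc : c < l.foldr (fun h m => min (h x) m) (g x)) : ∀ h ∈ g :: l, c < h x := by
  induction l with
  | nil =>
    intro h hh
    rw [List.mem_singleton] at hh
    rw [hh]
    exact hc
  | cons a l ih =>
    rw [List.foldr_cons, lt_min_iff] at hc
    intro h hh
    rcases List.mem_cons.1 hh with h1 | h1
    · exact ih hc.2 h (List.mem_cons.2 (Or.inl h1))
    · rcases List.mem_cons.1 h1 with h2 | h2
      · rw [h2]
        exact hc.1
      · exact ih hc.2 h (List.mem_cons.2 (Or.inr h2))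

theorem fold_le {E : Type} (g : Set E → ℝ) (l : List (Set E → ℝ)) (x : Set E) (c : ℝ)
    (hc : l.foldr (fun h m => min (h x) m) (g x) ≤ c) : ∃ h ∈ g :: l, h x ≤ c := by
  induction l with
  | nil => exact ⟨g, by simp, hc⟩
  | cons a l ih =>
    rw [List.foldr_cons, min_le_iff] at hc
    rcases hc with hc | hc
    · exact ⟨a, by simp, hc⟩
    · obtain ⟨h, hh, hx⟩ := ih hc
      refine ⟨h, ?_, hx⟩
      rcases List.mem_cons.1 hh with h1 | h1
      · exact List.mem_cons.2 (Or.inl h1)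
      · exact List.mem_cons.2 (Or.inr (List.mem_cons.2 (Or.inr h1)))

end GMN

open GMN

theorem t_GMN : S_GMN := by
  intro E _ s Cl Dm g l hg hl
  have hall : ∀ h ∈ g :: l, Good s Cl Dm h := by
    intro h hh
    rcases List.mem_cons.1 hh with h1 | h1
    · rw [h1]
      exact hg
    · exact hl h h1
  choose I hI1 hI2 hI3 hI4 using hall
  -- the sets of the approximators
  let L : ℝ → Set (Finset E) := fun c => {κ | ∃ h, ∃ hh : h ∈ g :: l, ∃ a ≤ c, I h hh a = some κ}
  have hLm : ∀ c c', c ≤ c' → L c ⊆ L c' := by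
    rintro c c' hc κ ⟨h, hh, a, ha, hκ⟩
    exact ⟨h, hh, a, ha.trans hc, hκ⟩
  have hLs : ∀ c, ∀ κ ∈ L c, κ.card < s := by
    rintro c κ ⟨h, hh, a, ha, hκ⟩
    exact hI1 h hh a κ hκ
  obtain ⟨κ₀, hκ₀s, hκ₀⟩ := chain2 s L hLm hLs
  have hex : ∀ e : E, ∃ k : Finset E, k.card ≤ s ∧
      ∀ c, ({κ | κ ∈ L c ∧ e ∉ κ} : Set (Finset E)).Nonempty → k ∈ L c ∧ e ∉ k := by
    intro e
    obtain ⟨k, hk1, hk2⟩ := chain2 s (fun c => ({κ | κ ∈ L c ∧ e ∉ κ} : Set (Finset E)))
      (fun c c' hc κ hκ => ⟨hLm c c' hc hκ.1, hκ.2⟩) (fun c κ hκ => hLs c κ hκ.1)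
    exact ⟨k, hk1, fun c hc => hk2 c hc⟩
  choose κ hκs hκ using hex
  let P : Finset (Finset E) := κ₀.biUnion fun e =>
    ((κ e).filter fun f => e ≠ f).image fun f => ({e, f} : Finset E)
  have hPmem : ∀ e ∈ κ₀, ∀ f ∈ κ e, e ≠ f → ({e, f} : Finset E) ∈ P := by
    intro e he f hf hef
    exact Finset.mem_biUnion.2 ⟨e, he, Finset.mem_image.2 ⟨f, Finset.mem_filter.2 ⟨hf, hef⟩, rfl⟩⟩
  have hPcard : P.card ≤ s ^ 2 := by
    refine Finset.card_biUnion_le.trans ?_
    have h1 : ∀ e ∈ κ₀, (((κ e).filter fun f => e ≠ f).image fun f => ({e, f} : Finset E)).card ≤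
        s := by
      intro e _
      exact Finset.card_image_le.trans ((Finset.card_filter_le _ _).trans (hκs e))
    refine (Finset.sum_le_sum h1).trans ?_
    rw [Finset.sum_const, smul_eq_mul, sq]
    exact Nat.mul_le_mul_right s hκ₀s
  let K : ℝ → Option (Finset E) := fun c =>
    if (L c).Nonempty then some (κ₀.filter fun e => ∀ k ∈ L c, e ∈ k) else none
  have hKne : ∀ c, (L c).Nonempty → K c = some (κ₀.filter fun e => ∀ k ∈ L c, e ∈ k) :=
    fun c hc => if_pos hc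
  have hKe : ∀ c, ¬ (L c).Nonempty → K c = none := fun c hc => if_neg hc
  have hKsome : ∀ c F, K c = some F → (L c).Nonempty ∧ F = κ₀.filter fun e => ∀ k ∈ L c, e ∈ k := by
    intro c F hF
    by_cases hc : (L c).Nonempty
    · rw [hKne c hc] at hF
      exact ⟨hc, (Option.some.inj hF).symm⟩
    · rw [hKe c hc] at hF
      exact absurd hF (by simp)
  refine ⟨Dm ∪ P, Finset.subset_union_left, ?_, ?_, K, ?_, ?_, ?_, ?_⟩
  · intro q hq
    rcases Finset.mem_union.1 hq with h1 | h1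
    · exact Or.inl h1
    · obtain ⟨e, -, he⟩ := Finset.mem_biUnion.1 h1
      obtain ⟨f, hf, rfl⟩ := Finset.mem_image.1 he
      exact Or.inr (Finset.card_pair (Finset.mem_filter.1 hf).2)
  · exact (Finset.card_union_le _ _).trans (Nat.add_le_add_left hPcard _)
  · intro c F hF
    obtain ⟨hc, rfl⟩ := hKsome c F hF
    exact (Finset.card_filter_le _ _).trans_lt (hLs c κ₀ (hκ₀ c hc))
  · intro c c' F hc hF
    obtain ⟨hne, rfl⟩ := hKsome c F hF
    refine ⟨_, hKne c' (hne.mono (hLm c c' hc)), ?_⟩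
    intro e he
    rw [Finset.mem_filter] at he ⊢
    exact ⟨he.1, fun k hk => he.2 k (hLm c c' hc hk)⟩
  · intro x c hc
    by_cases hD : Cont (Dm ∪ P) x
    · exact Or.inr hD
    · left
      intro F hF
      obtain ⟨hne, rfl⟩ := hKsome c F hF
      have hmeet : ∀ k ∈ L c, ∃ e ∈ k, e ∈ x := by
        rintro k ⟨h, hh, a, ha, hk⟩
        have hlt : a < h x := ha.trans_lt (lt_fold g l x c hc h hh)
        rcases hI3 h hh x a hlt with h1 | h1
        · exact h1 k hk
        · obtain ⟨p, hp, hpx⟩ := h1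
          exact absurd ⟨p, Finset.mem_union_left _ hp, hpx⟩ hD
      obtain ⟨e, he, hex⟩ := hmeet κ₀ (hκ₀ c hne)
      by_cases hall : ∀ k ∈ L c, e ∈ k
      · exact ⟨e, Finset.mem_filter.2 ⟨he, hall⟩, hex⟩
      · push Not at hall
        obtain ⟨k, hk1, hk2⟩ := hall
        obtain ⟨h1, h2⟩ := hκ e c ⟨k, hk1, hk2⟩
        obtain ⟨f, hf, hfx⟩ := hmeet _ h1
        have hef : e ≠ f := fun h => h2 (h.symm ▸ hf)
        refine absurd ⟨{e, f}, Finset.mem_union_right _ (hPmem e he f hf hef), ?_⟩ hD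
        intro t ht
        rcases Finset.mem_insert.1 ht with h3 | h3
        · rw [h3]
          exact hex
        · rw [Finset.mem_singleton.1 h3]
          exact hfx
  · intro y c hy hc hHit
    obtain ⟨h, hh, hhy⟩ := fold_le g l y c hc
    have hneg := hI4 h hh y (h y) hy le_rfl
    rcases hIv : I h hh (h y) with _ | k
    · rw [hIv] at hneg
      exact hneg fun F hF => absurd hF (by simp)
    · rw [hIv] at hneg
      have hkL : k ∈ L c := ⟨h, hh, h y, hhy, hIv⟩
      obtain ⟨e, he, hey⟩ := hHit _ (hKne c ⟨k, hkL⟩)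
      refine hneg fun F hF => ?_
      rw [← Option.some.inj hF]
      exact ⟨e, (Finset.mem_filter.1 he).2 k hkL, hey⟩

end Pool.Agent.NegTri
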