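import Pool.Agent.NegTri.Stmts

/-!
# NegTri, module GMO: a gate `mono` in the monotone approximation
-/

set_option autoImplicit false

namespace Pool.Agent.NegTri

open Classical

namespace GMO

/-- The chain lemma. -/
theorem chain {α : Type} [Finite α] (L : ℝ → Set α) (hL : ∀ c c', c ≤ c' → L c ⊆ L c')
    (hne : ∃ c, (L c).Nonempty) : ∃ k, ∀ c, (L c).Nonempty → k ∈ L c := by
  by_contra hc
  push Not at hc
  choose f hf1 hf2 using hc
  obtain ⟨c, k, hk⟩ := hne
  have : Nonempty α := ⟨k⟩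
  obtain ⟨k₀, hk₀⟩ := Finite.exists_min f
  obtain ⟨k', hk'⟩ := hf1 k₀
  exact hf2 k' (hL _ _ (hk₀ k') hk')

section

variable {E : Type}

/-- The values of an approximator. -/
theorem vals {I : ℝ → Option (Finset E)}
    (hI : ∀ c c' F, c ≤ c' → I c = some F → ∃ F', I c' = some F' ∧ F' ⊆ F) {a b : ℝ}
    {F G : Finset E} (ha : I a = some F) (hb : I b = some G) : F ⊆ G ∨ G ⊆ F := by
  rcases le_total a b with h | h
  · obtain ⟨F', h1, h2⟩ := hI a b F h ha
    rw [hb] at h1
    obtain rfl := Option.some.inj h1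
    exact Or.inr h2
  · obtain ⟨F', h1, h2⟩ := hI b a G h hb
    rw [ha] at h1
    obtain rfl := Option.some.inj h1
    exact Or.inl h2

/-- The clause of the number `n`. -/
theorem clause [Fintype E] (s n : ℕ) {I J : ℝ → Option (Finset E)}
    (hI : ∀ c c' F, c ≤ c' → I c = some F → ∃ F', I c' = some F' ∧ F' ⊆ F)
    (hJ : ∀ c c' F, c ≤ c' → J c = some F → ∃ F', J c' = some F' ∧ F' ⊆ F) :
    ∃ C : Finset (Finset E), C.card ≤ 1 ∧ (∀ K ∈ C, K.card = s) ∧
      ∀ a b F G, I a = some F → F.card = n → J b = some G → s ≤ (F ∪ G).card →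
        ∃ K ∈ C, K ⊆ F ∪ G := by
  let Q : Finset E → Prop := fun G => ∃ a b F, I a = some F ∧ F.card = n ∧ J b = some G ∧
    s ≤ (F ∪ G).card
  by_cases h : ∃ G, Q G
  · obtain ⟨G₁, hG₁⟩ := h
    obtain ⟨G₀, hG₀, hmin⟩ := Finset.exists_min_image (Finset.univ.filter Q) Finset.card
      ⟨G₁, by simpa using hG₁⟩
    rw [Finset.mem_filter] at hG₀
    obtain ⟨a₀, b₀, F₀, h1, h2, h3, h4⟩ := hG₀.2
    obtain ⟨K, hK1, hK2⟩ := Finset.exists_subset_card_eq h4
    refine ⟨{K}, by simp, ?_, fun a b F G ha hF hb hs => ⟨K, Finset.mem_singleton_self K, ?_⟩⟩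
    · intro K' hK'
      rw [Finset.mem_singleton.mp hK']
      exact hK2
    · have e1 : F = F₀ := by
        rcases vals hI ha h1 with h5 | h5
        · exact Finset.eq_of_subset_of_card_le h5 (by omega)
        · exact (Finset.eq_of_subset_of_card_le h5 (by omega)).symm
      have e2 : G₀ ⊆ G := by
        rcases vals hJ h3 hb with h5 | h5
        · exact h5
        · have h6 := hmin G (by
            rw [Finset.mem_filter]
            exact ⟨Finset.mem_univ _, a, b, F, ha, hF, hb, hs⟩)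
          rw [Finset.eq_of_subset_of_card_le h5 h6]
      rw [e1]
      exact hK1.trans (Finset.union_subset_union_right e2)
  · refine ⟨∅, by simp, by simp, fun a b F G ha hF hb hs => ?_⟩
    exact absurd ⟨G, a, b, F, ha, hF, hb, hs⟩ h

end

end GMO

open GMO in
/-- GMO: a gate `mono`. -/
theorem t_GMO : S_GMO := by
  intro E _ s Cl Dm g h φ hφ hg hh
  obtain ⟨I, hI1, hI2, hI3, hI4⟩ := hg
  obtain ⟨J, hJ1, hJ2, hJ3, hJ4⟩ := hh
  choose Cn hCn1 hCn2 hCn3 using fun n => clause s n hI2 hJ2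
  -- the clauses
  obtain ⟨Cl', hCl'⟩ : ∃ Cl', Cl' = Cl ∪ (Finset.range s).biUnion Cn := ⟨_, rfl⟩
  have hsub : Cl ⊆ Cl' := by
    rw [hCl']
    exact Finset.subset_union_left
  have hCs : ∀ K ∈ Cl', K ∈ Cl ∨ K.card = s := by
    intro K hK
    rw [hCl', Finset.mem_union, Finset.mem_biUnion] at hK
    rcases hK with hK | ⟨n, -, hn⟩
    · exact Or.inl hK
    · exact Or.inr (hCn2 n K hn)
  have hCc : Cl'.card ≤ Cl.card + s := by
    rw [hCl']
    refine (Finset.card_union_le _ _).trans (Nat.add_le_add_left ?_ _)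
    refine Finset.card_biUnion_le.trans ?_
    refine (Finset.sum_le_card_nsmul _ _ 1 fun n _ => hCn1 n).trans ?_
    simp
  have hCK : ∀ a b F G, I a = some F → J b = some G → s ≤ (F ∪ G).card →
      ∃ K ∈ Cl', K ⊆ F ∪ G := by
    intro a b F G ha hb hs
    obtain ⟨K, hK1, hK2⟩ := hCn3 F.card a b F G ha rfl hb hs
    refine ⟨K, ?_, hK2⟩
    rw [hCl', Finset.mem_union, Finset.mem_biUnion]
    exact Or.inr ⟨F.card, Finset.mem_range.mpr (hI1 a F ha), hK1⟩
  -- the sets
  let L : ℝ → Set (Finset E) := fun c => {κ | ∃ a b F G, I a = some F ∧ J b = some G ∧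
    φ a b ≤ c ∧ κ = F ∪ G ∧ κ.card < s}
  have hL : ∀ c c', c ≤ c' → L c ⊆ L c' := by
    rintro c c' hc κ ⟨a, b, F, G, h1, h2, h3, h4, h5⟩
    exact ⟨a, b, F, G, h1, h2, h3.trans hc, h4, h5⟩
  have hneg : ∀ (y : Set E) (c : ℝ), HitAll Cl' y → φ (g y) (h y) ≤ c →
      ∃ κ ∈ L c, ∀ e ∈ κ, e ∉ y := by
    intro y c hy hc
    have hyCl : HitAll Cl y := fun K hK => hy K (hsub hK)
    have h1 := hI4 y (g y) hyCl le_rfl
    have h2 := hJ4 y (h y) hyCl le_rfl
    simp only [Hit, not_forall, not_exists, not_and] at h1 h2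
    obtain ⟨F, hF, hF'⟩ := h1
    obtain ⟨G, hG, hG'⟩ := h2
    have h3 : ∀ e ∈ F ∪ G, e ∉ y := by
      intro e he
      rcases Finset.mem_union.mp he with he | he
      · exact hF' e he
      · exact hG' e he
    refine ⟨F ∪ G, ⟨g y, h y, F, G, hF, hG, hc, rfl, ?_⟩, h3⟩
    by_contra hs
    push Not at hs
    obtain ⟨K, hK1, hK2⟩ := hCK _ _ F G hF hG hs
    obtain ⟨e, he1, he2⟩ := hy K hK1
    exact h3 e (hK2 he1) he2
  have hpos : ∀ (x : Set E) (c : ℝ), c < φ (g x) (h x) → ¬ Cont Dm x → ∀ κ ∈ L c,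
      ∃ e ∈ κ, e ∈ x := by
    rintro x c hc hx κ ⟨a, b, F, G, h1, h2, h3, rfl, -⟩
    have h4 : a < g x ∨ b < h x := by
      by_contra h5
      push Not at h5
      exact absurd (hφ _ _ _ _ h5.1 h5.2) (not_le.mpr (h3.trans_lt hc))
    rcases h4 with h4 | h4
    · obtain ⟨e, he1, he2⟩ := ((hI3 x a h4).resolve_right hx) F h1
      exact ⟨e, Finset.mem_union_left _ he1, he2⟩
    · obtain ⟨e, he1, he2⟩ := ((hJ3 x b h4).resolve_right hx) G h2
      exact ⟨e, Finset.mem_union_right _ he1, he2⟩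
  by_cases hne : ∃ c, (L c).Nonempty
  · obtain ⟨κ₀, hκ₀⟩ := chain L hL hne
    have hκ₀s : κ₀.card < s := by
      obtain ⟨c, hc⟩ := hne
      obtain ⟨a, b, F, G, -, -, -, -, h5⟩ := hκ₀ c hc
      exact h5
    have hsel : ∀ e : E, ∃ κ : Finset E, κ.card < s ∧
        ∀ c, (∃ κ' ∈ L c, e ∉ κ') → κ ∈ L c ∧ e ∉ κ := by
      intro e
      by_cases h1 : ∃ c, ({κ | κ ∈ L c ∧ e ∉ κ} : Set (Finset E)).Nonempty
      · obtain ⟨κ, hκ⟩ := chain (fun c => {κ | κ ∈ L c ∧ e ∉ κ})
          (fun c c' hc κ hk => ⟨hL c c' hc hk.1, hk.2⟩) h1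
        refine ⟨κ, ?_, fun c hc => ?_⟩
        · obtain ⟨c, hc⟩ := h1
          obtain ⟨⟨a, b, F, G, -, -, -, -, h5⟩, -⟩ := hκ c hc
          exact h5
        · obtain ⟨κ', hκ'1, hκ'2⟩ := hc
          exact hκ c ⟨κ', hκ'1, hκ'2⟩
      · refine ⟨∅, ?_, fun c hc => ?_⟩
        · rw [Finset.card_empty]
          omega
        · obtain ⟨κ', hκ'1, hκ'2⟩ := hc
          exact absurd ⟨c, κ', hκ'1, hκ'2⟩ h1
    choose κe hκe1 hκe2 using hsel
    obtain ⟨Dm', hDm'⟩ : ∃ Dm', Dm' = Dm ∪ κ₀.biUnion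
        (fun e => ((κe e).filter (fun f => e ≠ f)).image (fun f => ({e, f} : Finset E))) :=
      ⟨_, rfl⟩
    have hDsub : Dm ⊆ Dm' := by
      rw [hDm']
      exact Finset.subset_union_left
    have hmem : ∀ e ∈ κ₀, ∀ f ∈ κe e, e ≠ f → ({e, f} : Finset E) ∈ Dm' := by
      intro e he f hf hef
      rw [hDm', Finset.mem_union, Finset.mem_biUnion]
      exact Or.inr ⟨e, he, Finset.mem_image.mpr ⟨f, Finset.mem_filter.mpr ⟨hf, hef⟩, rfl⟩⟩
    refine ⟨Cl', Dm', hsub, hDsub, hCs, ?_, hCc, ?_, ?_⟩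
    · intro q hq
      rw [hDm', Finset.mem_union, Finset.mem_biUnion] at hq
      rcases hq with hq | ⟨e, -, he⟩
      · exact Or.inl hq
      · obtain ⟨f, hf, rfl⟩ := Finset.mem_image.mp he
        exact Or.inr (Finset.card_pair (Finset.mem_filter.mp hf).2)
    · rw [hDm']
      refine (Finset.card_union_le _ _).trans (Nat.add_le_add_left ?_ _)
      refine Finset.card_biUnion_le.trans ?_
      refine (Finset.sum_le_card_nsmul _ _ s fun e _ => ?_).trans ?_
      · exact (Finset.card_image_le.trans (Finset.card_filter_le _ _)).trans (hκe1 e).le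
      · rw [smul_eq_mul, pow_two]
        exact Nat.mul_le_mul_right _ hκ₀s.le
    · refine ⟨fun c => if (L c).Nonempty then
        some (κ₀.filter (fun e => ∀ κ ∈ L c, e ∈ κ)) else none, ?_, ?_, ?_, ?_⟩
      · intro c F hF
        by_cases h1 : (L c).Nonempty
        · simp only [if_pos h1] at hF
          rw [← Option.some.inj hF]
          exact (Finset.card_filter_le _ _).trans_lt hκ₀s
        · simp only [if_neg h1] at hF
          exact absurd hF (by simp)
      · intro c c' F hc hF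
        by_cases h1 : (L c).Nonempty
        · simp only [if_pos h1] at hF
          have h2 : (L c').Nonempty := h1.mono (hL c c' hc)
          refine ⟨κ₀.filter (fun e => ∀ κ ∈ L c', e ∈ κ), if_pos h2, ?_⟩
          rw [← Option.some.inj hF]
          intro e he
          rw [Finset.mem_filter] at he ⊢
          exact ⟨he.1, fun κ hκ => he.2 κ (hL c c' hc hκ)⟩
        · simp only [if_neg h1] at hF
          exact absurd hF (by simp)
      · intro x c hc
        by_cases hx : Cont Dm' x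
        · exact Or.inr hx
        · refine Or.inl ?_
          have hxD : ¬ Cont Dm x := by
            rintro ⟨q, hq1, hq2⟩
            exact hx ⟨q, hDsub hq1, hq2⟩
          intro F hF
          by_cases h1 : (L c).Nonempty
          · have hF' : κ₀.filter (fun e => ∀ κ ∈ L c, e ∈ κ) = F := by
              simp only [if_pos h1] at hF
              exact Option.some.inj hF
            rw [← hF']
            obtain ⟨e, he1, he2⟩ := hpos x c hc hxD κ₀ (hκ₀ c h1)
            refine ⟨e, ?_, he2⟩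
            rw [Finset.mem_filter]
            refine ⟨he1, ?_⟩
            by_contra h2
            push Not at h2
            obtain ⟨h3, h4⟩ := hκe2 e c h2
            obtain ⟨f, hf1, hf2⟩ := hpos x c hc hxD (κe e) h3
            have hef : e ≠ f := by
              rintro rfl
              exact h4 hf1
            refine hx ⟨{e, f}, hmem e he1 f hf1 hef, fun e' he' => ?_⟩
            rcases Finset.mem_insert.mp he' with rfl | he'
            · exact he2
            · rw [Finset.mem_singleton.mp he']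
              exact hf2
          · simp only [if_neg h1] at hF
            exact absurd hF (by simp)
      · intro y c hy hc hhit
        obtain ⟨κ, hκ1, hκ2⟩ := hneg y c hy hc
        have h1 : (L c).Nonempty := ⟨κ, hκ1⟩
        obtain ⟨e, he1, he2⟩ := hhit _ (if_pos h1)
        rw [Finset.mem_filter] at he1
        exact hκ2 e (he1.2 κ hκ1) he2
  · refine ⟨Cl', Dm, hsub, Finset.Subset.refl _, hCs, fun q hq => Or.inl hq, hCc,
      Nat.le_add_right _ _, fun _ => none, ?_, ?_, ?_, ?_⟩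
    · intro c F hF
      exact absurd hF (by simp)
    · intro c c' F _ hF
      exact absurd hF (by simp)
    · intro x c _
      refine Or.inl fun F hF => ?_
      exact absurd hF (by simp)
    · intro y c hy hc _
      obtain ⟨κ, hκ1, -⟩ := hneg y c hy hc
      exact hne ⟨c, κ, hκ1⟩

end Pool.Agent.NegTri
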