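import Pool.Agent.NegTri.Stmts

/-!
Module GMX of the project NegTri (MP_ad5e8e_lc): a gate `mx`.
-/

set_option autoImplicit false

namespace Pool.Agent.NegTri

open Classical

namespace GMX

/-- The weaker notion of an approximator: no bound on the cardinality. -/
def Pre {E : Type} (Cl Dm : Finset (Finset E)) (g : Set E → ℝ) : Prop :=
  ∃ U : ℝ → Option (Finset E),
    (∀ c c' F, c ≤ c' → U c = some F → ∃ F', U c' = some F' ∧ F' ⊆ F) ∧
    (∀ x c, c < g x → Hit (U c) x ∨ Cont Dm x) ∧
    (∀ y c, HitAll Cl y → g y ≤ c → ¬ Hit (U c) y)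

theorem pre_of_good {E : Type} {s : ℕ} {Cl Dm : Finset (Finset E)} {g : Set E → ℝ}
    (h : Good s Cl Dm g) : Pre Cl Dm g := by
  obtain ⟨I, -, h2, h3, h4⟩ := h
  exact ⟨I, h2, h3, h4⟩

/-- The union of two optional sets; `none` stands for everything. -/
noncomputable def un {E : Type} (a b : Option (Finset E)) : Option (Finset E) :=
  a.bind fun F => b.bind fun G => some (F ∪ G)

theorem un_some {E : Type} {a b : Option (Finset E)} {K : Finset E} (h : un a b = some K) :
    ∃ F G, a = some F ∧ b = some G ∧ K = F ∪ G := by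
  cases a with
  | none => simp [un] at h
  | some F =>
    cases b with
    | none => simp [un] at h
    | some G =>
      simp only [un, Option.bind_some, Option.some.injEq] at h
      exact ⟨F, G, rfl, rfl, h.symm⟩

theorem not_hit {E : Type} {a : Option (Finset E)} {y : Set E} (h : ¬ Hit a y) :
    ∃ F, a = some F ∧ ∀ e ∈ F, e ∉ y := by
  unfold Hit at h
  push Not at h
  exact h

theorem pre_max {E : Type} {Cl Dm : Finset (Finset E)} {g h : Set E → ℝ}
    (hh : Pre Cl Dm h) (hg : Pre Cl Dm g) : Pre Cl Dm (fun x => max (h x) (g x)) := by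
  obtain ⟨I, i1, i2, i3⟩ := hh
  obtain ⟨J, j1, j2, j3⟩ := hg
  refine ⟨fun c => un (I c) (J c), ?_, ?_, ?_⟩
  · intro c c' K hc hK
    obtain ⟨F, G, hF, hG, rfl⟩ := un_some hK
    obtain ⟨F', hF', hs⟩ := i1 c c' F hc hF
    obtain ⟨G', hG', ht⟩ := j1 c c' G hc hG
    refine ⟨F' ∪ G', ?_, Finset.union_subset_union hs ht⟩
    simp [un, hF', hG']
  · intro x c hc
    rcases lt_max_iff.1 hc with hc | hc
    · rcases i2 x c hc with h | h
      · left
        intro K hK
        obtain ⟨F, G, hF, hG, rfl⟩ := un_some hK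
        obtain ⟨e, he, hx⟩ := h F hF
        exact ⟨e, Finset.mem_union_left _ he, hx⟩
      · exact Or.inr h
    · rcases j2 x c hc with h | h
      · left
        intro K hK
        obtain ⟨F, G, hF, hG, rfl⟩ := un_some hK
        obtain ⟨e, he, hx⟩ := h G hG
        exact ⟨e, Finset.mem_union_right _ he, hx⟩
      · exact Or.inr h
  · intro y c hy hc hhit
    have hc' := max_le_iff.1 hc
    obtain ⟨F, hF, hF'⟩ := not_hit (i3 y c hy hc'.1)
    obtain ⟨G, hG, hG'⟩ := not_hit (j3 y c hy hc'.2)
    obtain ⟨e, he, hx⟩ := hhit (F ∪ G) (by simp [un, hF, hG])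
    rcases Finset.mem_union.1 he with he | he
    · exact hF' e he hx
    · exact hG' e he hx

theorem pre_foldr {E : Type} {Cl Dm : Finset (Finset E)} {g : Set E → ℝ} (hg : Pre Cl Dm g)
    (l : List (Set E → ℝ)) (hl : ∀ h ∈ l, Pre Cl Dm h) :
    Pre Cl Dm (fun x => l.foldr (fun h m => max (h x) m) (g x)) := by
  induction l with
  | nil => simpa using hg
  | cons a l ih =>
    have h1 := ih (fun h hh => hl h (List.mem_cons_of_mem _ hh))
    have h2 := pre_max (hl a List.mem_cons_self) h1
    simpa [List.foldr_cons] using h2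

/-- Cutting off the large sets. -/
noncomputable def cut {E : Type} (s : ℕ) (a : Option (Finset E)) : Option (Finset E) :=
  a.bind fun F => if F.card < s then some F else none

theorem cut_some {E : Type} {s : ℕ} {a : Option (Finset E)} {F : Finset E}
    (h : cut s a = some F) : a = some F ∧ F.card < s := by
  cases a with
  | none => simp [cut] at h
  | some G =>
    simp only [cut, Option.bind_some] at h
    split_ifs at h with h1
    simp only [Option.some.injEq] at h
    subst h
    exact ⟨rfl, h1⟩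

theorem cut_of {E : Type} {s : ℕ} {F : Finset E} (h : F.card < s) :
    cut s (some F) = some F := by
  simp [cut, h]

theorem good_of_pre {E : Type} {s : ℕ} {Cl Dm : Finset (Finset E)} {g : Set E → ℝ}
    (h : Pre Cl Dm g) :
    ∃ Cl' : Finset (Finset E), Cl ⊆ Cl' ∧ (∀ K ∈ Cl', K ∈ Cl ∨ K.card = s) ∧
      Cl'.card ≤ Cl.card + 1 ∧ Good s Cl' Dm g := by
  obtain ⟨U, h1, h2, h3⟩ := h
  by_cases hall : ∀ c F, U c = some F → F.card < s
  · exact ⟨Cl, Finset.Subset.refl _, fun K hK => Or.inl hK, Nat.le_succ _, U, hall, h1, h2, h3⟩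
  · push Not at hall
    have hex : ∃ n : ℕ, ∃ c F, U c = some F ∧ s ≤ F.card ∧ F.card = n := by
      obtain ⟨c, F, hF, hs⟩ := hall
      exact ⟨F.card, c, F, hF, hs, rfl⟩
    obtain ⟨c₀, F₀, hU, hs, hcard⟩ := Nat.find_spec hex
    have hmin : ∀ c F, U c = some F → s ≤ F.card → F₀.card ≤ F.card := by
      intro c F hF hsF
      rw [hcard]
      exact Nat.find_min' hex ⟨c, F, hF, hsF, rfl⟩
    have hsub : ∀ c F, U c = some F → s ≤ F.card → F₀ ⊆ F := by
      intro c F hF hsF
      rcases le_total c c₀ with hc | hc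
      · obtain ⟨F', hF', ht⟩ := h1 c c₀ F hc hF
        rw [hU] at hF'
        simp only [Option.some.injEq] at hF'
        rw [hF']
        exact ht
      · obtain ⟨F', hF', ht⟩ := h1 c₀ c F₀ hc hU
        rw [hF] at hF'
        simp only [Option.some.injEq] at hF'
        rw [← hF'] at ht
        have h5 := Finset.eq_of_subset_of_card_le ht (hmin c F hF hsF)
        rw [h5]
    obtain ⟨K₀, hK₀, hK₀c⟩ := Finset.exists_subset_card_eq hs
    refine ⟨insert K₀ Cl, Finset.subset_insert _ _, ?_, Finset.card_insert_le _ _,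
      fun c => cut s (U c), ?_, ?_, ?_, ?_⟩
    · intro K hK
      rcases Finset.mem_insert.1 hK with rfl | hK
      · exact Or.inr hK₀c
      · exact Or.inl hK
    · intro c F hF
      exact (cut_some hF).2
    · intro c c' F hc hF
      obtain ⟨hF1, hF2⟩ := cut_some hF
      obtain ⟨F', hF', ht⟩ := h1 c c' F hc hF1
      refine ⟨F', ?_, ht⟩
      show cut s (U c') = some F'
      rw [hF']
      exact cut_of (lt_of_le_of_lt (Finset.card_le_card ht) hF2)
    · intro x c hc
      rcases h2 x c hc with h | h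
      · left
        intro F hF
        exact h F (cut_some hF).1
      · exact Or.inr h
    · intro y c hy hc hhit
      have hy' : HitAll Cl y := fun K hK => hy K (Finset.mem_insert_of_mem hK)
      obtain ⟨F, hF, hF'⟩ := not_hit (h3 y c hy' hc)
      by_cases hFs : F.card < s
      · obtain ⟨e, he, hx⟩ := hhit F (by
          show cut s (U c) = some F
          rw [hF]
          exact cut_of hFs)
        exact hF' e he hx
      · obtain ⟨e, he, hx⟩ := hy K₀ (Finset.mem_insert_self _ _)
        exact hF' e (hsub c F hF (not_lt.1 hFs) (hK₀ he)) hx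

end GMX

theorem t_GMX : S_GMX := by
  intro E _ s Cl Dm g l hg hl
  exact GMX.good_of_pre (GMX.pre_foldr (GMX.pre_of_good hg) l
    (fun h hh => GMX.pre_of_good (hl h hh)))

end Pool.Agent.NegTri
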