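import Mathlib
import Pool.Agent.NegTri.Stmts

set_option autoImplicit false

/-!
Module GUE: guessing the outputs of the NOT gates.
-/

namespace Pool.Agent.NegTri

open Classical

namespace GUE

variable {E : Type}

/-- one step of the computation together with the code of the NOT gates -/
noncomputable def step (x : Set E) (p : List ℝ × ℕ) (g : Gate E) : List ℝ × ℕ :=
  (p.1 ++ [g.val x p.1],
    if g.isNeg = true then 2 * p.2 + (if g.val x p.1 = 1 then 1 else 0) else p.2)

/-- the run with the code -/
noncomputable def st (x : Set E) (gs : List (Gate E)) : List ℝ × ℕ :=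
  gs.foldl (step x) ([], 0)

/-- the code -/
noncomputable def code (x : Set E) (gs : List (Gate E)) : ℕ := (st x gs).2

lemma st_snoc (x : Set E) (gs : List (Gate E)) (g : Gate E) :
    st x (gs ++ [g]) = step x (st x gs) g := by
  unfold st
  rw [List.foldl_append]
  rfl

lemma run_snoc (x : Set E) (gs : List (Gate E)) (g : Gate E) :
    run x (gs ++ [g]) = run x gs ++ [g.val x (run x gs)] := by
  unfold run
  rw [List.foldl_append]
  rfl

lemma st_fst (x : Set E) (gs : List (Gate E)) : (st x gs).1 = run x gs := by
  induction gs using List.reverseRecOn with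
  | nil => rfl
  | append_singleton gs g ih =>
    rw [st_snoc, run_snoc, step, ih]

lemma code_snoc (x : Set E) (gs : List (Gate E)) (g : Gate E) :
    code x (gs ++ [g]) = if g.isNeg = true then
      2 * code x gs + (if g.val x (run x gs) = 1 then 1 else 0) else code x gs := by
  unfold code
  rw [st_snoc, step, st_fst]

lemma run_length (x : Set E) (gs : List (Gate E)) : (run x gs).length = gs.length := by
  induction gs using List.reverseRecOn with
  | nil => rfl
  | append_singleton gs g ih =>
    rw [run_snoc, List.length_append, List.length_append, ih]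
    rfl

lemma getD_lt (v : List ℝ) (a : ℝ) (i : ℕ) (h : i < v.length) :
    (v ++ [a]).getD i 0 = v.getD i 0 := List.getD_append _ _ _ _ h

lemma getD_eq (v : List ℝ) (a : ℝ) : (v ++ [a]).getD v.length 0 = a := by
  simp

lemma getD_ge (v : List ℝ) (i : ℕ) (h : v.length ≤ i) : v.getD i 0 = 0 :=
  List.getD_eq_default _ _ h

lemma run_append (x : Set E) (gs rest : List (Gate E)) (i : ℕ) (hi : i < gs.length) :
    (run x (gs ++ rest)).getD i 0 = (run x gs).getD i 0 := by
  induction rest using List.reverseRecOn with
  | nil => rw [List.append_nil]
  | append_singleton r g ih =>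
    rw [← List.append_assoc, run_snoc, getD_lt, ih]
    rw [run_length, List.length_append]
    omega

lemma code_lt (x : Set E) (gs : List (Gate E)) : code x gs < 2 ^ gs.countP Gate.isNeg := by
  induction gs using List.reverseRecOn with
  | nil => simp [code, st]
  | append_singleton gs g ih =>
    rw [code_snoc, List.countP_append]
    by_cases h : g.isNeg = true
    · rw [if_pos h]
      have h1 : List.countP Gate.isNeg [g] = 1 := by simp [h]
      rw [h1, pow_succ]
      split_ifs <;> omega
    · rw [if_neg h]
      have h1 : List.countP Gate.isNeg [g] = 0 := by simp [h]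
      rw [h1, Nat.add_zero]
      exact ih

lemma src_mono {x y : Set E} (h : x ⊆ y) {v w : List ℝ}
    (hv : ∀ i, v.getD i 0 ≤ w.getD i 0) (s : Src E) : s.val x v ≤ s.val y w := by
  cases s with
  | inp e =>
    by_cases hx : e ∈ x
    · simp only [Src.val, if_pos hx, if_pos (h hx)]
      exact le_refl _
    · simp only [Src.val, if_neg hx]
      split_ifs
      · exact zero_le_one
      · exact le_refl _
  | cst a => exact le_refl _
  | reg i => exact hv i

lemma gate_mono {x y : Set E} (h : x ⊆ y) {v w : List ℝ}
    (hv : ∀ i, v.getD i 0 ≤ w.getD i 0) (g : Gate E) (hok : g.Ok) (hn : ¬ g.isNeg = true) :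
    g.val x v ≤ g.val y w := by
  cases g with
  | mono φ s t => exact hok _ _ _ _ (src_mono h hv s) (src_mono h hv t)
  | mx s l =>
    clear hok hn
    simp only [Gate.val]
    induction l with
    | nil => exact src_mono h hv s
    | cons a l ih =>
      simp only [List.foldr_cons]
      exact max_le_max (src_mono h hv a) ih
  | mn s l =>
    clear hok hn
    simp only [Gate.val]
    induction l with
    | nil => exact src_mono h hv s
    | cons a l ih =>
      simp only [List.foldr_cons]
      exact min_le_min (src_mono h hv a) ih
  | neg ψ s => exact absurd rfl hn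

/-- the outputs of NOT gates -/
lemma neg_val (x : Set E) (v : List ℝ) (ψ : ℝ → Bool) (s : Src E) :
    (Gate.neg ψ s).val x v = if ψ (s.val x v) = true then 1 else 0 := rfl

lemma mono_inv {x y : Set E} (h : x ⊆ y) (gs : List (Gate E)) (hok : ∀ g ∈ gs, g.Ok) :
    (code x gs = code y gs ∧ ∀ i, (run x gs).getD i 0 ≤ (run y gs).getD i 0) ∨
      code y gs < code x gs := by
  induction gs using List.reverseRecOn with
  | nil => exact Or.inl ⟨rfl, fun i => le_refl _⟩
  | append_singleton gs g ih =>
    have hok' : ∀ g ∈ gs, g.Ok := fun g' hg' => hok g' (List.mem_append_left _ hg')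
    have hg : g.Ok := hok g (by simp)
    rcases ih hok' with ⟨hc, hr⟩ | hlt
    · by_cases hn : g.isNeg = true
      · cases g with
        | mono φ s t => exact absurd hn (by simp [Gate.isNeg])
        | mx s l => exact absurd hn (by simp [Gate.isNeg])
        | mn s l => exact absurd hn (by simp [Gate.isNeg])
        | neg ψ s =>
          have hs := src_mono h hr s
          rw [code_snoc, code_snoc, if_pos hn, if_pos hn, run_snoc, run_snoc, neg_val, neg_val]
          by_cases hy : ψ (s.val y (run y gs)) = true
          · have hx : ψ (s.val x (run x gs)) = true := hg _ _ hs hy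
            rw [if_pos hx, if_pos hy]
            left
            refine ⟨by rw [hc], fun i => ?_⟩
            rcases lt_trichotomy i gs.length with h1 | h1 | h1
            · rw [getD_lt _ _ _ (by rw [run_length]; exact h1),
                getD_lt _ _ _ (by rw [run_length]; exact h1)]
              exact hr i
            · have hx1 := getD_eq (run x gs) 1
              have hy1 := getD_eq (run y gs) 1
              rw [run_length] at hx1 hy1
              rw [h1, hx1, hy1]
            · rw [getD_ge _ _ (by rw [List.length_append, run_length]; simp; omega),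
                getD_ge _ _ (by rw [List.length_append, run_length]; simp; omega)]
          · by_cases hx : ψ (s.val x (run x gs)) = true
            · right
              rw [if_pos hx, if_neg hy]
              simp only [if_true]
              norm_num
              omega
            · rw [if_neg hx, if_neg hy]
              left
              refine ⟨by rw [hc], fun i => ?_⟩
              rcases lt_trichotomy i gs.length with h1 | h1 | h1
              · rw [getD_lt _ _ _ (by rw [run_length]; exact h1),
                  getD_lt _ _ _ (by rw [run_length]; exact h1)]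
                exact hr i
              · have hx1 := getD_eq (run x gs) 0
                have hy1 := getD_eq (run y gs) 0
                rw [run_length] at hx1 hy1
                rw [h1, hx1, hy1]
              · rw [getD_ge _ _ (by rw [List.length_append, run_length]; simp; omega),
                  getD_ge _ _ (by rw [List.length_append, run_length]; simp; omega)]
      · left
        rw [code_snoc, code_snoc, if_neg hn, if_neg hn, run_snoc, run_snoc]
        refine ⟨hc, fun i => ?_⟩
        rcases lt_trichotomy i gs.length with h1 | h1 | h1
        · rw [getD_lt _ _ _ (by rw [run_length]; exact h1),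
            getD_lt _ _ _ (by rw [run_length]; exact h1)]
          exact hr i
        · have hx1 := getD_eq (run x gs) (g.val x (run x gs))
          have hy1 := getD_eq (run y gs) (g.val y (run y gs))
          rw [run_length] at hx1 hy1
          rw [h1, hx1, hy1]
          exact gate_mono h hr g hg hn
        · rw [getD_ge _ _ (by rw [List.length_append, run_length]; simp; omega),
            getD_ge _ _ (by rw [List.length_append, run_length]; simp; omega)]
    · right
      rw [code_snoc, code_snoc]
      by_cases hn : g.isNeg = true
      · rw [if_pos hn, if_pos hn]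
        split_ifs <;> omega
      · rw [if_neg hn, if_neg hn]
        exact hlt

lemma code_anti {x y : Set E} (h : x ⊆ y) (gs : List (Gate E)) (hok : ∀ g ∈ gs, g.Ok) :
    code y gs ≤ code x gs := by
  rcases mono_inv h gs hok with ⟨h1, _⟩ | h1
  · exact h1.ge
  · exact h1.le

/-- is gate number `i` a NOT gate? -/
def bN (gs : List (Gate E)) (i : ℕ) : Bool := (gs[i]?).any Gate.isNeg

lemma bN_lt (gs rest : List (Gate E)) (i : ℕ) (h : i < gs.length) :
    bN (gs ++ rest) i = bN gs i := by
  unfold bN
  rw [List.getElem?_append_left h]

lemma bN_ge (gs : List (Gate E)) (i : ℕ) (h : gs.length ≤ i) : bN gs i = false := by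
  unfold bN
  rw [List.getElem?_eq_none h]
  rfl

lemma bN_eq (gs : List (Gate E)) (g : Gate E) : bN (gs ++ [g]) gs.length = g.isNeg := by
  simp [bN]

/-- the plugged source -/
noncomputable def pS (G : List (Gate E)) (ρ : List ℝ) (n : ℕ) : Src E → Src E
  | Src.inp e => Src.inp e
  | Src.cst a => Src.cst a
  | Src.reg i => if i < n ∧ bN G i = true then Src.cst (ρ.getD i 0) else Src.reg i

/-- the plugged gate -/
noncomputable def pG (G : List (Gate E)) (ρ : List ℝ) (n : ℕ) : Gate E → Gate E
  | Gate.mono φ s t => Gate.mono φ (pS G ρ n s) (pS G ρ n t)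
  | Gate.mx s l => Gate.mx (pS G ρ n s) (l.map (pS G ρ n))
  | Gate.mn s l => Gate.mn (pS G ρ n s) (l.map (pS G ρ n))
  | Gate.neg ψ s => Gate.mono (fun a _ => if ψ a = true ∨ ρ.getD n 0 = 0 then 0 else 1)
      (pS G ρ n s) (pS G ρ n s)

lemma pG_ok (G : List (Gate E)) (ρ : List ℝ) (n : ℕ) (g : Gate E) (h : g.Ok) :
    (pG G ρ n g).Ok := by
  cases g with
  | mono φ s t => exact h
  | mx s l => trivial
  | mn s l => trivial
  | neg ψ s =>
    intro a a' b b' ha _
    show (if ψ a = true ∨ ρ.getD n 0 = 0 then (0 : ℝ) else 1) ≤
      (if ψ a' = true ∨ ρ.getD n 0 = 0 then (0 : ℝ) else 1)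
    by_cases h2 : ψ a = true ∨ ρ.getD n 0 = 0
    · rw [if_pos h2]
      split_ifs
      · exact le_refl _
      · exact zero_le_one
    · have h3 : ¬ (ψ a' = true ∨ ρ.getD n 0 = 0) := by
        rintro (h4 | h4)
        · exact h2 (Or.inl (h a a' ha h4))
        · exact h2 (Or.inr h4)
      rw [if_neg h2, if_neg h3]

lemma pG_neg (G : List (Gate E)) (ρ : List ℝ) (n : ℕ) (g : Gate E) :
    ¬ (pG G ρ n g).isNeg = true := by
  cases g <;> simp [pG, Gate.isNeg]

/-- the plugged list of gates -/
noncomputable def pL (G : List (Gate E)) (ρ : List ℝ) (gs : List (Gate E)) : List (Gate E) :=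
  gs.mapIdx (pG G ρ)

lemma pL_snoc (G : List (Gate E)) (ρ : List ℝ) (gs : List (Gate E)) (g : Gate E) :
    pL G ρ (gs ++ [g]) = pL G ρ gs ++ [pG G ρ gs.length g] := by
  unfold pL
  rw [List.mapIdx_append]
  simp

lemma pL_length (G : List (Gate E)) (ρ : List ℝ) (gs : List (Gate E)) :
    (pL G ρ gs).length = gs.length := by
  unfold pL
  rw [List.length_mapIdx]

/-- the values of plugged sources -/
lemma pS_val (G : List (Gate E)) (ρ : List ℝ) (n : ℕ) (u : Set E) (A X : List ℝ)
    (h1 : ∀ i, i < n → bN G i = true → ρ.getD i 0 = A.getD i 0)
    (h2 : ∀ i, ¬ (i < n ∧ bN G i = true) → X.getD i 0 = A.getD i 0) (s : Src E) :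
    (pS G ρ n s).val u X = s.val u A := by
  cases s with
  | inp e => rfl
  | cst a => rfl
  | reg i =>
    by_cases h : i < n ∧ bN G i = true
    · simp only [pS, if_pos h, Src.val]
      exact h1 i h.1 h.2
    · simp only [pS, if_neg h, Src.val]
      exact h2 i h

lemma pG_val (G : List (Gate E)) (ρ : List ℝ) (n : ℕ) (u : Set E) (A X : List ℝ)
    (h1 : ∀ i, i < n → bN G i = true → ρ.getD i 0 = A.getD i 0)
    (h2 : ∀ i, ¬ (i < n ∧ bN G i = true) → X.getD i 0 = A.getD i 0) (g : Gate E)
    (hn : ¬ g.isNeg = true) :
    (pG G ρ n g).val u X = g.val u A := by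
  cases g with
  | mono φ s t => simp only [pG, Gate.val, pS_val G ρ n u A X h1 h2]
  | mx s l => simp only [pG, Gate.val, List.foldr_map, pS_val G ρ n u A X h1 h2]
  | mn s l => simp only [pG, Gate.val, List.foldr_map, pS_val G ρ n u A X h1 h2]
  | neg ψ s => exact absurd rfl hn

/-- the invariant for (b) -/
def Inv (G : List (Gate E)) (ρ : List ℝ) (R u : Set E) (gs : List (Gate E)) : Prop :=
  (code R gs = code u gs ∧ (∀ i, (run R gs).getD i 0 ≤ (run u gs).getD i 0) ∧
    (∀ i, bN gs i = true → (run u gs).getD i 0 = (run R gs).getD i 0 ∧
      (run u (pL G ρ gs)).getD i 0 = 0) ∧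
    (∀ i, ¬ bN gs i = true → (run u (pL G ρ gs)).getD i 0 = (run u gs).getD i 0)) ∨
  (code u gs < code R gs ∧ ∃ i, bN gs i = true ∧ (run u (pL G ρ gs)).getD i 0 = 1)

lemma inv_all (G : List (Gate E)) (hok : ∀ g ∈ G, g.Ok) (R u : Set E) (hRu : R ⊆ u)
    (gs : List (Gate E)) (hgs : gs <+: G) : Inv G (run R G) R u gs := by
  induction gs using List.reverseRecOn with
  | nil =>
    left
    refine ⟨rfl, fun i => ?_, fun i hi => ?_, fun i _ => ?_⟩
    · exact le_of_eq rfl
    · exact absurd hi (by simp [bN])
    · rfl
  | append_singleton gs g ih =>
    obtain ⟨rest, hrest⟩ := hgs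
    have hG : gs ++ ([g] ++ rest) = G := by rw [← List.append_assoc]; exact hrest
    have ih' := ih ⟨[g] ++ rest, hG⟩
    have hg : g.Ok := hok g (by rw [← hrest]; simp)
    set n := gs.length with hn
    set ρ := run R G with hρ
    have hρlt : ∀ i, i < n → ρ.getD i 0 = (run R gs).getD i 0 := by
      intro i hi
      rw [hρ, ← hG]
      exact run_append R gs ([g] ++ rest) i hi
    have hρn : ρ.getD n 0 = g.val R (run R gs) := by
      rw [hρ, ← hrest, run_append R (gs ++ [g]) rest n (by simp [hn]), run_snoc]
      have := getD_eq (run R gs) (g.val R (run R gs))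
      rw [run_length] at this
      exact this
    have hbG : ∀ i, i < n → bN G i = bN gs i := by
      intro i hi
      rw [← hG]
      exact bN_lt gs _ i hi
    have hA : ∀ (x : Set E) (i : ℕ), i < n →
        (run x (gs ++ [g])).getD i 0 = (run x gs).getD i 0 := by
      intro x i hi
      rw [run_snoc]
      exact getD_lt _ _ _ (by rw [run_length]; exact hi)
    have hAn : ∀ (x : Set E), (run x (gs ++ [g])).getD n 0 = g.val x (run x gs) := by
      intro x
      rw [run_snoc]
      have := getD_eq (run x gs) (g.val x (run x gs))
      rw [run_length] at this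
      exact this
    have hAge : ∀ (x : Set E) (i : ℕ), n < i → (run x (gs ++ [g])).getD i 0 = 0 := by
      intro x i hi
      exact getD_ge _ _ (by rw [run_length]; simp; omega)
    have hXlt : ∀ i, i < n → (run u (pL G ρ (gs ++ [g]))).getD i 0 =
        (run u (pL G ρ gs)).getD i 0 := by
      intro i hi
      rw [pL_snoc, run_snoc]
      exact getD_lt _ _ _ (by rw [run_length, pL_length]; exact hi)
    have hXn : (run u (pL G ρ (gs ++ [g]))).getD n 0 =
        (pG G ρ n g).val u (run u (pL G ρ gs)) := by
      rw [pL_snoc, run_snoc]
      have := getD_eq (run u (pL G ρ gs)) ((pG G ρ n g).val u (run u (pL G ρ gs)))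
      rw [run_length, pL_length] at this
      exact this
    have hXge : ∀ i, n < i → (run u (pL G ρ (gs ++ [g]))).getD i 0 = 0 := by
      intro i hi
      exact getD_ge _ _ (by rw [run_length, pL_length]; simp; omega)
    have hbN : ∀ i, i < n → bN (gs ++ [g]) i = bN gs i := fun i hi => bN_lt gs [g] i hi
    have hbNn : bN (gs ++ [g]) n = g.isNeg := bN_eq gs g
    have hbNge : ∀ i, n < i → bN (gs ++ [g]) i = false := by
      intro i hi
      exact bN_ge _ _ (by simp; omega)
    rcases ih' with ⟨hc, hm, hN, hS⟩ | ⟨hlt, i, hi, hXi⟩
    · have h1 : ∀ i, i < n → bN G i = true → ρ.getD i 0 = (run u gs).getD i 0 := by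
        intro i hi hb
        rw [hρlt i hi]
        rw [hbG i hi] at hb
        exact (hN i hb).1.symm
      have h2 : ∀ i, ¬ (i < n ∧ bN G i = true) →
          (run u (pL G ρ gs)).getD i 0 = (run u gs).getD i 0 := by
        intro i hi
        apply hS
        intro hb
        by_cases h3 : i < n
        · exact hi ⟨h3, by rw [hbG i h3]; exact hb⟩
        · rw [bN_ge gs i (by omega)] at hb
          exact absurd hb (by simp)
      by_cases hneg : g.isNeg = true
      · cases g with
        | mono φ s t => exact absurd hneg (by simp [Gate.isNeg])
        | mx s l => exact absurd hneg (by simp [Gate.isNeg])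
        | mn s l => exact absurd hneg (by simp [Gate.isNeg])
        | neg ψ s =>
          have hs := src_mono hRu hm s
          have hsv : (pS G ρ n s).val u (run u (pL G ρ gs)) = s.val u (run u gs) :=
            pS_val G ρ n u _ _ h1 h2 s
          have hX' : (pG G ρ n (Gate.neg ψ s)).val u (run u (pL G ρ gs)) =
              if ψ (s.val u (run u gs)) = true ∨ ρ.getD n 0 = 0 then 0 else 1 := by
            show (if ψ ((pS G ρ n s).val u (run u (pL G ρ gs))) = true ∨ ρ.getD n 0 = 0
              then (0 : ℝ) else 1) = _
            rw [hsv]
          rw [neg_val] at hρn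
          by_cases hu : ψ (s.val u (run u gs)) = true
          · have hR : ψ (s.val R (run R gs)) = true := hg _ _ hs hu
            left
            have hAu : (Gate.neg ψ s).val u (run u gs) = 1 := by rw [neg_val, if_pos hu]
            have hAR : (Gate.neg ψ s).val R (run R gs) = 1 := by rw [neg_val, if_pos hR]
            have hX0 : (run u (pL G ρ (gs ++ [Gate.neg ψ s]))).getD n 0 = 0 := by
              rw [hXn, hX', if_pos (Or.inl hu)]
            refine ⟨?_, fun i => ?_, fun i hi => ?_, fun i hi => ?_⟩
            · rw [code_snoc, code_snoc, if_pos hneg, if_pos hneg, hAu, hAR, hc]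
            · rcases lt_trichotomy i n with h3 | h3 | h3
              · rw [hA R i h3, hA u i h3]; exact hm i
              · rw [h3, hAn, hAn, hAu, hAR]
              · rw [hAge R i h3, hAge u i h3]
            · rcases lt_trichotomy i n with h3 | h3 | h3
              · rw [hA R i h3, hA u i h3, hXlt i h3]
                rw [hbN i h3] at hi
                exact hN i hi
              · rw [h3, hAn, hAn, hAu, hAR]
                exact ⟨rfl, hX0⟩
              · rw [hbNge i h3] at hi
                exact absurd hi (by simp)
            · rcases lt_trichotomy i n with h3 | h3 | h3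
              · rw [hA u i h3, hXlt i h3]
                rw [hbN i h3] at hi
                exact hS i hi
              · rw [h3, hbNn] at hi
                exact absurd hneg hi
              · rw [hAge u i h3, hXge i h3]
          · by_cases hR : ψ (s.val R (run R gs)) = true
            · right
              have hAu : (Gate.neg ψ s).val u (run u gs) = 0 := by rw [neg_val, if_neg hu]
              have hAR : (Gate.neg ψ s).val R (run R gs) = 1 := by rw [neg_val, if_pos hR]
              rw [if_pos hR] at hρn
              refine ⟨?_, n, by rw [hbNn]; exact hneg, ?_⟩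
              · rw [code_snoc, code_snoc, if_pos hneg, if_pos hneg, hAu, hAR, hc]
                norm_num
              · rw [hXn, hX', hρn, if_neg]
                rintro (h3 | h3)
                · exact hu h3
                · exact one_ne_zero h3
            · left
              have hAu : (Gate.neg ψ s).val u (run u gs) = 0 := by rw [neg_val, if_neg hu]
              have hAR : (Gate.neg ψ s).val R (run R gs) = 0 := by rw [neg_val, if_neg hR]
              rw [if_neg hR] at hρn
              have hX0 : (run u (pL G ρ (gs ++ [Gate.neg ψ s]))).getD n 0 = 0 := by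
                rw [hXn, hX', if_pos (Or.inr hρn)]
              refine ⟨?_, fun i => ?_, fun i hi => ?_, fun i hi => ?_⟩
              · rw [code_snoc, code_snoc, if_pos hneg, if_pos hneg, hAu, hAR, hc]
              · rcases lt_trichotomy i n with h3 | h3 | h3
                · rw [hA R i h3, hA u i h3]; exact hm i
                · rw [h3, hAn, hAn, hAu, hAR]
                · rw [hAge R i h3, hAge u i h3]
              · rcases lt_trichotomy i n with h3 | h3 | h3
                · rw [hA R i h3, hA u i h3, hXlt i h3]
                  rw [hbN i h3] at hi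
                  exact hN i hi
                · rw [h3, hAn, hAn, hAu, hAR]
                  exact ⟨rfl, hX0⟩
                · rw [hbNge i h3] at hi
                  exact absurd hi (by simp)
              · rcases lt_trichotomy i n with h3 | h3 | h3
                · rw [hA u i h3, hXlt i h3]
                  rw [hbN i h3] at hi
                  exact hS i hi
                · rw [h3, hbNn] at hi
                  exact absurd hneg hi
                · rw [hAge u i h3, hXge i h3]
      · left
        have hv : (pG G ρ n g).val u (run u (pL G ρ gs)) = g.val u (run u gs) :=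
          pG_val G ρ n u _ _ h1 h2 g hneg
        refine ⟨?_, fun i => ?_, fun i hi => ?_, fun i hi => ?_⟩
        · rw [code_snoc, code_snoc, if_neg hneg, if_neg hneg, hc]
        · rcases lt_trichotomy i n with h3 | h3 | h3
          · rw [hA R i h3, hA u i h3]; exact hm i
          · rw [h3, hAn, hAn]
            exact gate_mono hRu hm g hg hneg
          · rw [hAge R i h3, hAge u i h3]
        · rcases lt_trichotomy i n with h3 | h3 | h3
          · rw [hA R i h3, hA u i h3, hXlt i h3]
            rw [hbN i h3] at hi
            exact hN i hi
          · rw [h3, hbNn] at hi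
            exact absurd hi hneg
          · rw [hbNge i h3] at hi
            exact absurd hi (by simp)
        · rcases lt_trichotomy i n with h3 | h3 | h3
          · rw [hA u i h3, hXlt i h3]
            rw [hbN i h3] at hi
            exact hS i hi
          · rw [h3, hXn, hAn, hv]
          · rw [hAge u i h3, hXge i h3]
    · right
      have hin : i < n := by
        by_contra h3
        rw [bN_ge gs i (by omega)] at hi
        exact absurd hi (by simp)
      refine ⟨?_, i, ?_, ?_⟩
      · rw [code_snoc, code_snoc]
        by_cases hneg : g.isNeg = true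
        · rw [if_pos hneg, if_pos hneg]
          split_ifs <;> omega
        · rw [if_neg hneg, if_neg hneg]
          exact hlt
      · rw [hbN i hin]; exact hi
      · rw [hXlt i hin]; exact hXi

/-- positions of the NOT gates, as sources -/
noncomputable def regs (G : List (Gate E)) : List (Src E) :=
  ((List.range G.length).filter (fun i => bN G i)).map Src.reg

lemma foldr_max_pos (l : List ℝ) (b : ℝ) :
    0 < l.foldr (fun t m => max t m) b ↔ 0 < b ∨ ∃ a ∈ l, 0 < a := by
  induction l with
  | nil => simp
  | cons a l ih =>
    simp only [List.foldr_cons, lt_max_iff, ih, List.mem_cons]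
    constructor
    · rintro (h | h | ⟨c, hc, h⟩)
      · exact Or.inr ⟨a, Or.inl rfl, h⟩
      · exact Or.inl h
      · exact Or.inr ⟨c, Or.inr hc, h⟩
    · rintro (h | ⟨c, rfl | hc, h⟩)
      · exact Or.inr (Or.inl h)
      · exact Or.inl h
      · exact Or.inr (Or.inr ⟨c, hc, h⟩)

lemma mx_pos (u : Set E) (v : List ℝ) (s : Src E) (l : List (Src E)) :
    0 < (Gate.mx s l).val u v ↔ 0 < s.val u v ∨ ∃ t ∈ l, 0 < t.val u v := by
  have h : (Gate.mx s l).val u v =
      (l.map (fun t : Src E => t.val u v)).foldr (fun t m => max t m) (s.val u v) := by
    rw [List.foldr_map]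
    rfl
  rw [h, foldr_max_pos]
  simp only [List.mem_map, exists_exists_and_eq_and]

end GUE

open GUE in
theorem t_GUE : S_GUE := by
  intro E C
  refine ⟨fun x => code x C.gates, fun x => code_lt x C.gates,
    fun x y h => code_anti h C.gates C.ok, ?_⟩
  intro R
  set G := C.gates with hG
  set ρ := run R G with hρ
  refine ⟨⟨pL G ρ G ++ [Gate.mx (pS G ρ G.length C.out) (regs G)], ?_, Src.reg G.length⟩,
    ?_, ?_, ?_⟩
  · intro g hg
    rcases List.mem_append.1 hg with h | h
    · unfold pL at h
      obtain ⟨i, hi, rfl⟩ := List.mem_mapIdx.1 h
      exact pG_ok G ρ i _ (C.ok _ (List.getElem_mem hi))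
    · rw [List.mem_singleton] at h
      rw [h]
      trivial
  · show List.countP Gate.isNeg _ = 0
    rw [List.countP_eq_zero]
    intro g hg
    rcases List.mem_append.1 hg with h | h
    · unfold pL at h
      obtain ⟨i, hi, rfl⟩ := List.mem_mapIdx.1 h
      exact pG_neg G ρ i _
    · rw [List.mem_singleton] at h
      rw [h]
      simp [Gate.isNeg]
  · show (pL G ρ G ++ [Gate.mx (pS G ρ G.length C.out) (regs G)]).length ≤ C.gates.length + 1
    rw [List.length_append, pL_length]
    simp [hG]
  · intro u hu
    have hinv := inv_all G C.ok R u hu G ⟨[], List.append_nil G⟩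
    have hval : (⟨pL G ρ G ++ [Gate.mx (pS G ρ G.length C.out) (regs G)], by
        intro g hg
        rcases List.mem_append.1 hg with h | h
        · unfold pL at h
          obtain ⟨i, hi, rfl⟩ := List.mem_mapIdx.1 h
          exact pG_ok G ρ i _ (C.ok _ (List.getElem_mem hi))
        · rw [List.mem_singleton] at h
          rw [h]
          trivial, Src.reg G.length⟩ : Circ E).val u =
        (Gate.mx (pS G ρ G.length C.out) (regs G)).val u (run u (pL G ρ G)) := by
      show (run u (pL G ρ G ++ [Gate.mx (pS G ρ G.length C.out) (regs G)])).getD G.length 0 = _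
      rw [run_snoc]
      have := getD_eq (run u (pL G ρ G))
        ((Gate.mx (pS G ρ G.length C.out) (regs G)).val u (run u (pL G ρ G)))
      rw [run_length, pL_length] at this
      exact this
    have hmem : ∀ t : Src E, t ∈ regs G ↔ ∃ i, i < G.length ∧ bN G i = true ∧ Src.reg i = t := by
      intro t
      unfold regs
      simp only [List.mem_map, List.mem_filter, List.mem_range, and_assoc]
    rcases hinv with ⟨hc, hm, hN, hS⟩ | ⟨hlt, i, hi, hXi⟩
    · have hout : (pS G ρ G.length C.out).val u (run u (pL G ρ G)) = C.out.val u (run u G) := by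
        apply pS_val
        · intro i _ hb
          exact ((hN i hb).1).symm
        · intro i hi
          apply hS
          intro hb
          apply hi
          refine ⟨?_, hb⟩
          by_contra h3
          rw [bN_ge G i (by omega)] at hb
          exact absurd hb (by simp)
      have hiff : (0 < (Gate.mx (pS G ρ G.length C.out) (regs G)).val u (run u (pL G ρ G))) ↔
          C.Acc u := by
        rw [mx_pos, hout]
        constructor
        · rintro (h | ⟨t, ht, h⟩)
          · exact h
          · obtain ⟨i, _, hb, rfl⟩ := (hmem t).1 ht
            have h4 : (0 : ℝ) < (run u (pL G ρ G)).getD i 0 := h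
            rw [(hN i hb).2] at h4
            exact absurd h4 (lt_irrefl _)
        · intro h
          exact Or.inl h
      refine ⟨fun h => ?_, fun _ h => ?_⟩
      · show 0 < Circ.val _ u
        rw [hval]
        exact hiff.2 h
      · have h' : 0 < Circ.val _ u := h
        rw [hval] at h'
        exact hiff.1 h'
    · refine ⟨fun _ => ?_, fun h => ?_⟩
      · show 0 < Circ.val _ u
        rw [hval, mx_pos]
        right
        refine ⟨Src.reg i, (hmem _).2 ⟨i, ?_, hi, rfl⟩, ?_⟩
        · by_contra h3
          rw [bN_ge G i (by omega)] at hi
          exact absurd hi (by simp)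
        · show (0 : ℝ) < (run u (pL G ρ G)).getD i 0
          rw [hXi]
          exact one_pos
      · exact absurd h (ne_of_lt hlt)

end Pool.Agent.NegTri
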