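import Pool.Agent.NegTri.Stmts

set_option autoImplicit false

/-! Large numbers (MP_ad5e8e_lc, module LRG). -/

namespace Pool.Agent.NegTri

namespace LRG

open Filter

theorem a1 (δ : ℝ) (hδ : 0 < δ) :
    ∀ᶠ x : ℝ in atTop, Real.exp (4 * Real.sqrt (Real.log x)) ≤ x ^ δ := by
  filter_upwards [Real.tendsto_log_atTop.eventually_ge_atTop (16 / δ ^ 2), eventually_gt_atTop 0]
    with x hx hx0
  have hy : 0 ≤ Real.log x := le_trans (by positivity) hx
  rw [Real.rpow_def_of_pos hx0, Real.exp_le_exp]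
  have h1 : 4 ≤ δ * Real.sqrt (Real.log x) := by
    have h2 : (4 / δ) ^ 2 ≤ Real.log x := by
      rw [div_pow]; norm_num; exact hx
    have h3 : 4 / δ ≤ Real.sqrt (Real.log x) := Real.le_sqrt_of_sq_le h2
    rw [div_le_iff₀ hδ] at h3
    linarith
  have h4 : 0 ≤ Real.sqrt (Real.log x) := Real.sqrt_nonneg _
  calc 4 * Real.sqrt (Real.log x) ≤ (δ * Real.sqrt (Real.log x)) * Real.sqrt (Real.log x) :=
        mul_le_mul_of_nonneg_right h1 h4
    _ = δ * (Real.sqrt (Real.log x) * Real.sqrt (Real.log x)) := by ring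
    _ = Real.log x * δ := by rw [Real.mul_self_sqrt hy]; ring

theorem a2 (δ M : ℝ) (hδ : 0 < δ) :
    ∀ᶠ x : ℝ in atTop, M * (1 + Real.log x) ^ 4 ≤ x ^ δ := by
  filter_upwards [Real.tendsto_log_atTop.eventually_ge_atTop (max 1 (1920 * |M| / δ ^ 5)),
    eventually_gt_atTop 0] with x hx hx0
  have hy1 : 1 ≤ Real.log x := (le_max_left _ _).trans hx
  have hy2 : 1920 * |M| / δ ^ 5 ≤ Real.log x := (le_max_right _ _).trans hx
  have hy : 0 ≤ Real.log x := by linarith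
  rw [Real.rpow_def_of_pos hx0]
  have h1 : (Real.log x * δ) ^ 5 / (Nat.factorial 5 : ℝ) ≤ Real.exp (Real.log x * δ) :=
    Real.pow_div_factorial_le_exp _ (mul_nonneg hy hδ.le) 5
  have hf : (Nat.factorial 5 : ℝ) = 120 := by norm_num [Nat.factorial]
  rw [hf] at h1
  refine le_trans ?_ h1
  have h2 : 1920 * |M| ≤ Real.log x * δ ^ 5 := by
    rw [div_le_iff₀ (by positivity)] at hy2
    exact hy2
  have h3 : (1 + Real.log x) ^ 4 ≤ (2 * Real.log x) ^ 4 :=
    pow_le_pow_left₀ (by linarith) (by linarith) 4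
  have h4 : M * (1 + Real.log x) ^ 4 ≤ |M| * (2 * Real.log x) ^ 4 :=
    mul_le_mul (le_abs_self M) h3 (by positivity) (abs_nonneg M)
  have h5 : 0 ≤ Real.log x ^ 4 := by positivity
  have h6 := mul_le_mul_of_nonneg_right h2 h5
  rw [le_div_iff₀ (by norm_num)]
  nlinarith [h4, h6]

theorem a3 (δ M : ℝ) (hδ : 0 < δ) : ∀ᶠ x : ℝ in atTop, M ≤ x ^ δ :=
  (tendsto_rpow_atTop hδ).eventually_ge_atTop M

end LRG

open Filter in
theorem t_LRG : S_LRG := by
  intro δ M hδ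
  obtain ⟨v₀, hv₀⟩ := eventually_atTop.1 (tendsto_natCast_atTop_atTop.eventually
    ((LRG.a1 δ hδ).and ((LRG.a2 δ M hδ).and (LRG.a3 δ M hδ))))
  exact ⟨max v₀ 2, le_max_right _ _, fun v hv => hv₀ v (le_trans (le_max_left _ _) hv)⟩

end Pool.Agent.NegTri
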