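import Pool.Agent.NegTri.Stmts

/-!
# Few colourings make many edges monochromatic (module NEG)
-/

set_option autoImplicit false

namespace Pool.Agent.NegTri.NEG

open Classical

variable {k : ℕ}

/-- The first end of an edge. -/
def ea (e : T k) : Fin 3 × Fin k := (e.1, e.2.1)

/-- The second end of an edge. -/
def eb (e : T k) : Fin 3 × Fin k := (e.1 + 1, e.2.2)

lemma fin3_ne (c : Fin 3) : c ≠ c + 1 := by
  revert c
  decide

lemma ea_ne_eb (e : T k) : ea e ≠ eb e := by
  intro h
  have h1 := congrArg Prod.fst h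
  exact fin3_ne _ h1

/-- The colourings which make all edges of `S` monochromatic. -/
noncomputable def mon (S : Finset (T k)) : Finset (Fin 3 × Fin k → Bool) :=
  Finset.univ.filter (fun χ => ∀ e ∈ S, χ (ea e) = χ (eb e))

lemma mem_mon (S : Finset (T k)) (χ : Fin 3 × Fin k → Bool) :
    χ ∈ mon S ↔ ∀ e ∈ S, χ (ea e) = χ (eb e) := by
  simp [mon]

lemma exists_edge (S : Finset (T k)) (V : Finset (Fin 3 × Fin k)) (h : V.card ^ 2 < S.card) :
    ∃ e ∈ S, ∃ w, w ∉ V ∧ (w = ea e ∨ w = eb e) := by
  by_contra hcon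
  have hall : ∀ e ∈ S, ea e ∈ V ∧ eb e ∈ V := by
    intro e he
    constructor
    · by_contra h1
      exact hcon ⟨e, he, ea e, h1, Or.inl rfl⟩
    · by_contra h1
      exact hcon ⟨e, he, eb e, h1, Or.inr rfl⟩
  have hle : S.card ≤ (V ×ˢ V).card := by
    apply Finset.card_le_card_of_injOn (fun e => (ea e, eb e))
    · intro e he
      have h1 := hall e he
      simpa using h1
    · intro e _ f _ hef
      simp only [Prod.mk.injEq, ea, eb] at hef
      obtain ⟨⟨h1, h2⟩, _, h3⟩ := hef
      exact Prod.ext h1 (Prod.ext h2 h3)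
  rw [Finset.card_product] at hle
  have h2 : V.card * V.card = V.card ^ 2 := by ring
  omega

/-- Changing the colour of `w`. -/
noncomputable def fl (w : Fin 3 × Fin k) (χ : Fin 3 × Fin k → Bool) : Fin 3 × Fin k → Bool :=
  Function.update χ w (!χ w)

lemma fl_self (w : Fin 3 × Fin k) (χ : Fin 3 × Fin k → Bool) : fl w χ w = !χ w := by
  simp [fl]

lemma fl_ne (w u : Fin 3 × Fin k) (χ : Fin 3 × Fin k → Bool) (h : u ≠ w) : fl w χ u = χ u := by
  simp [fl, h]

lemma fl_inj (w : Fin 3 × Fin k) : Function.Injective (fl w) := by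
  intro χ ψ h
  funext u
  by_cases hu : u = w
  · subst hu
    have h1 := congrFun h u
    rw [fl_self, fl_self] at h1
    simpa using h1
  · have h1 := congrFun h u
    rwa [fl_ne w u χ hu, fl_ne w u ψ hu] at h1

lemma half (S : Finset (T k)) (e : T k) (w : Fin 3 × Fin k) (hw : w = ea e ∨ w = eb e)
    (hS : ∀ f ∈ S, ea f ≠ w ∧ eb f ≠ w) :
    2 * (mon (insert e S)).card ≤ (mon S).card := by
  have hdisj : Disjoint (mon (insert e S)) ((mon (insert e S)).image (fl w)) := by
    rw [Finset.disjoint_left]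
    intro χ h1 h2
    obtain ⟨ψ, hψ, rfl⟩ := Finset.mem_image.mp h2
    rw [mem_mon] at h1 hψ
    have h3 := h1 e (Finset.mem_insert_self _ _)
    have h4 := hψ e (Finset.mem_insert_self _ _)
    have hne := ea_ne_eb e
    rcases hw with rfl | rfl
    · rw [fl_self, fl_ne _ _ _ hne.symm, ← h4] at h3
      revert h3
      cases ψ (ea e) <;> decide
    · rw [fl_self, fl_ne _ _ _ hne, h4] at h3
      revert h3
      cases ψ (eb e) <;> decide
  have hsub : mon (insert e S) ∪ (mon (insert e S)).image (fl w) ⊆ mon S := by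
    intro χ hχ
    rw [Finset.mem_union] at hχ
    rcases hχ with h1 | h1
    · rw [mem_mon] at h1 ⊢
      exact fun f hf => h1 f (Finset.mem_insert_of_mem hf)
    · obtain ⟨ψ, hψ, rfl⟩ := Finset.mem_image.mp h1
      rw [mem_mon] at hψ ⊢
      intro f hf
      rw [fl_ne _ _ _ (hS f hf).1, fl_ne _ _ _ (hS f hf).2]
      exact hψ f (Finset.mem_insert_of_mem hf)
  have hcard := Finset.card_le_card hsub
  rw [Finset.card_union_of_disjoint hdisj, Finset.card_image_of_injective _ (fl_inj w)] at hcard
  omega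

lemma main (S : Finset (T k)) (n : ℕ) : 4 * n ^ 2 ≤ S.card →
    ∃ (V : Finset (Fin 3 × Fin k)) (S' : Finset (T k)), V.card ≤ 2 * n ∧ S' ⊆ S ∧
      (∀ e ∈ S', ea e ∈ V ∧ eb e ∈ V) ∧ (mon S').card * 2 ^ n ≤ 2 ^ (3 * k) := by
  induction n with
  | zero =>
    intro _
    refine ⟨∅, ∅, by simp, by simp, by simp, ?_⟩
    have h1 : (mon (∅ : Finset (T k))).card ≤ Fintype.card (Fin 3 × Fin k → Bool) :=
      Finset.card_le_univ _
    simpa using h1
  | succ n ih =>
    intro hS
    have h0 : 4 * n ^ 2 < S.card := by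
      have h1 : 4 * (n + 1) ^ 2 = 4 * n ^ 2 + 8 * n + 4 := by ring
      omega
    obtain ⟨V, S', hV, hsub, hends, hcard⟩ := ih h0.le
    have hVS : V.card ^ 2 < S.card := by
      have h1 : V.card ^ 2 ≤ (2 * n) ^ 2 := Nat.pow_le_pow_left hV 2
      have h2 : (2 * n) ^ 2 = 4 * n ^ 2 := by ring
      omega
    obtain ⟨e, he, w, hw, hwe⟩ := exists_edge S V hVS
    refine ⟨insert (ea e) (insert (eb e) V), insert e S', ?_, ?_, ?_, ?_⟩
    · have h1 := Finset.card_insert_le (ea e) (insert (eb e) V)
      have h2 := Finset.card_insert_le (eb e) V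
      omega
    · exact Finset.insert_subset he hsub
    · intro f hf
      rw [Finset.mem_insert] at hf
      rcases hf with rfl | hf
      · exact ⟨by simp, by simp⟩
      · have h1 := hends f hf
        exact ⟨Finset.mem_insert_of_mem (Finset.mem_insert_of_mem h1.1),
          Finset.mem_insert_of_mem (Finset.mem_insert_of_mem h1.2)⟩
    · have h2 : 2 * (mon (insert e S')).card ≤ (mon S').card := by
        apply half S' e w hwe
        intro f hf
        have h1 := hends f hf
        constructor
        · rintro rfl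
          exact hw h1.1
        · rintro rfl
          exact hw h1.2
      calc (mon (insert e S')).card * 2 ^ (n + 1) = (2 * (mon (insert e S')).card) * 2 ^ n := by ring
        _ ≤ (mon S').card * 2 ^ n := Nat.mul_le_mul_right _ h2
        _ ≤ 2 ^ (3 * k) := hcard

end Pool.Agent.NegTri.NEG

namespace Pool.Agent.NegTri

open Classical

theorem t_NEG : S_NEG := by
  intro k d S hS
  obtain ⟨V, S', _, hsub, _, hcard⟩ := NEG.main S d hS
  refine le_trans (Nat.mul_le_mul_right _ ?_) hcard
  apply Finset.card_le_card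
  intro χ hχ
  rw [NEG.mem_mon]
  intro e he
  have h1 := (Finset.mem_filter.mp hχ).2 e (hsub he)
  exact h1

end Pool.Agent.NegTri
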