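import Pool.Agent.NegTri.Stmts

set_option autoImplicit false

/-!
RST: fixing a part of the input.
-/

namespace Pool.Agent.NegTri

open Classical

namespace RST

variable {E F : Type}

/-- the new source -/
noncomputable def sS (R : Set E) (j : F → E) : Src E → Src F
  | Src.inp e => if e ∈ R then Src.cst 1 else
      if h : ∃ f, j f = e then Src.inp h.choose else Src.cst 0
  | Src.cst a => Src.cst a
  | Src.reg i => Src.reg i

/-- the new gate -/
noncomputable def sG (R : Set E) (j : F → E) : Gate E → Gate F
  | Gate.mono φ s t => Gate.mono φ (sS R j s) (sS R j t)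
  | Gate.mx s l => Gate.mx (sS R j s) (l.map (sS R j))
  | Gate.mn s l => Gate.mn (sS R j s) (l.map (sS R j))
  | Gate.neg ψ s => Gate.neg ψ (sS R j s)

lemma sS_val (R : Set E) (j : F → E) (hj : Function.Injective j) (w : Set F) (v : List ℝ)
    (s : Src E) : (sS R j s).val w v = s.val (R ∪ j '' w) v := by
  cases s with
  | cst a => rfl
  | reg i => rfl
  | inp e =>
    by_cases hR : e ∈ R
    · have h1 : e ∈ R ∪ j '' w := Or.inl hR
      simp only [sS, Src.val, if_pos hR, if_pos h1]
    · by_cases h : ∃ f, j f = e
      · have h2 : e ∈ R ∪ j '' w ↔ h.choose ∈ w := by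
          constructor
          · rintro (h3 | ⟨f, hf, hfe⟩)
            · exact absurd h3 hR
            · have : f = h.choose := hj (hfe.trans h.choose_spec.symm)
              rwa [← this]
          · intro h3
            exact Or.inr ⟨h.choose, h3, h.choose_spec⟩
        simp only [sS, Src.val, if_neg hR, dif_pos h, h2]
      · have h2 : ¬ e ∈ R ∪ j '' w := by
          rintro (h3 | ⟨f, _, hfe⟩)
          · exact hR h3
          · exact h ⟨f, hfe⟩
        simp only [sS, Src.val, if_neg hR, dif_neg h, if_neg h2]

lemma sG_val (R : Set E) (j : F → E) (hj : Function.Injective j) (w : Set F) (v : List ℝ)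
    (g : Gate E) : (sG R j g).val w v = g.val (R ∪ j '' w) v := by
  cases g with
  | mono φ s t => simp only [sG, Gate.val, sS_val R j hj]
  | mx s l => simp only [sG, Gate.val, List.foldr_map, sS_val R j hj]
  | mn s l => simp only [sG, Gate.val, List.foldr_map, sS_val R j hj]
  | neg ψ s => simp only [sG, Gate.val, sS_val R j hj]

lemma sG_ok (R : Set E) (j : F → E) (g : Gate E) (h : g.Ok) : (sG R j g).Ok := by
  cases g with
  | mono φ s t => exact h
  | mx s l => trivial
  | mn s l => trivial
  | neg ψ s => exact h

lemma sG_neg (R : Set E) (j : F → E) (g : Gate E) : (sG R j g).isNeg = g.isNeg := by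
  cases g <;> rfl

lemma run_eq (R : Set E) (j : F → E) (hj : Function.Injective j) (w : Set F)
    (gs : List (Gate E)) : run w (gs.map (sG R j)) = run (R ∪ j '' w) gs := by
  unfold run
  rw [List.foldl_map]
  simp only [sG_val R j hj]

end RST

open RST in
theorem t_RST : S_RST := by
  intro E F C R j hj
  refine ⟨⟨C.gates.map (sG R j), ?_, sS R j C.out⟩, ?_, ?_, ?_⟩
  · intro g hg
    obtain ⟨g', hg', rfl⟩ := List.mem_map.1 hg
    exact sG_ok R j g' (C.ok g' hg')
  · simp only [Circ.size, List.length_map]
  · simp only [Circ.negs, List.countP_map]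
    congr 1
    funext g
    exact sG_neg R j g
  · intro w
    simp only [Circ.Acc, Circ.val, run_eq R j hj, sS_val R j hj]

end Pool.Agent.NegTri
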