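import Pool.Agent.NegTri.Stmts

set_option autoImplicit false

/-!
# Ruzsa-Szemeredi blocks in a graph (helper83)
-/

namespace Pool.Agent.NegTri

namespace RSZ

open SimpleGraph

variable {β X : Type} {k v : ℕ} (ι : Fin 3 × X × Fin k → Fin v) (pos : β → Fin 3 → X)

/-- the embedding of the blocks -/
def emb (e : β × T k) : Sym2 (Fin v) :=
  s(ι (e.2.1, pos e.1 e.2.1, e.2.2.1), ι (e.2.1 + 1, pos e.1 (e.2.1 + 1), e.2.2.2))

lemma add_one_ne (c : Fin 3) : c ≠ c + 1 := by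
  revert c; decide

lemma add_two_ne (c c' : Fin 3) (h : c = c' + 1) (h' : c + 1 = c') : False := by
  revert c c'; decide

lemma cover (a b c d : Fin 3) (h1 : a ≠ b) (h2 : a ≠ c) (h3 : b ≠ c) : d = a ∨ d = b ∨ d = c := by
  revert a b c d; decide

variable {ι pos}

lemma emb_inj (hι : Function.Injective ι)
    (h1 : ∀ b b' c, pos b c = pos b' c → pos b (c + 1) = pos b' (c + 1) → b = b') :
    Function.Injective (emb ι pos) := by
  rintro ⟨b, c, i, j⟩ ⟨b', c', i', j'⟩ h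
  unfold emb at h
  simp only [Sym2.eq_iff] at h
  rcases h with ⟨h2, h3⟩ | ⟨h2, h3⟩
  · have h4 := hι h2
    have h5 := hι h3
    simp only [Prod.mk.injEq] at h4 h5
    obtain ⟨rfl, h6, rfl⟩ := h4
    obtain ⟨-, h7, rfl⟩ := h5
    rw [h1 b b' c h6 h7]
  · have h4 := hι h2
    have h5 := hι h3
    simp only [Prod.mk.injEq] at h4 h5
    exact (add_two_ne c c' h4.1 h5.1).elim

lemma not_diag (hι : Function.Injective ι) (e : β × T k) : ¬ (emb ι pos e).IsDiag := by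
  unfold emb
  rw [Sym2.mk_isDiag_iff]
  intro h
  have h4 := hι h
  simp only [Prod.mk.injEq] at h4
  exact add_one_ne _ h4.1

/-- the graph of a set of edges of the blocks -/
def gr (ι : Fin 3 × X × Fin k → Fin v) (pos : β → Fin 3 → X) (P : Set (β × T k)) :
    SimpleGraph (Fin v) := SimpleGraph.fromEdgeSet (emb ι pos '' P)

lemma edgeSet_gr (hι : Function.Injective ι) (P : Set (β × T k)) :
    (gr ι pos P).edgeSet = emb ι pos '' P := by
  unfold gr
  rw [SimpleGraph.edgeSet_fromEdgeSet]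
  ext e
  constructor
  · exact fun h => h.1
  · intro h
    refine ⟨h, ?_⟩
    obtain ⟨f, -, rfl⟩ := h
    exact not_diag hι f

lemma adj_gr {P : Set (β × T k)} {x y : Fin v}
    (h : (gr ι pos P).Adj x y) : ∃ A B : Fin 3 × X × Fin k, x = ι A ∧ y = ι B ∧ A.1 ≠ B.1 := by
  unfold gr at h
  rw [SimpleGraph.fromEdgeSet_adj] at h
  obtain ⟨⟨f, -, h1⟩, -⟩ := h
  unfold emb at h1
  rw [Sym2.eq_iff] at h1
  rcases h1 with ⟨h2, h3⟩ | ⟨h2, h3⟩
  · exact ⟨_, _, h2.symm, h3.symm, add_one_ne _⟩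
  · exact ⟨_, _, h3.symm, h2.symm, (add_one_ne _).symm⟩

lemma adj_part (hι : Function.Injective ι) {P : Set (β × T k)} {c : Fin 3} {α γ : X} {i j : Fin k}
    (h : (gr ι pos P).Adj (ι (c, α, i)) (ι (c + 1, γ, j))) :
    ∃ b, (b, (c, i, j)) ∈ P ∧ pos b c = α ∧ pos b (c + 1) = γ := by
  unfold gr at h
  rw [SimpleGraph.fromEdgeSet_adj] at h
  obtain ⟨⟨⟨b, c', i', j'⟩, hP, h1⟩, -⟩ := h
  unfold emb at h1
  rw [Sym2.eq_iff] at h1
  rcases h1 with ⟨h2, h3⟩ | ⟨h2, h3⟩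
  · have h4 := hι h2
    have h5 := hι h3
    simp only [Prod.mk.injEq] at h4 h5
    obtain ⟨rfl, rfl, rfl⟩ := h4
    obtain ⟨-, rfl, rfl⟩ := h5
    exact ⟨b, hP, rfl, rfl⟩
  · have h4 := hι h2
    have h5 := hι h3
    simp only [Prod.mk.injEq] at h4 h5
    exact (add_two_ne c c' h5.1.symm h4.1.symm).elim

lemma part_adj (hι : Function.Injective ι) {P : Set (β × T k)} {b : β} {c : Fin 3} {i j : Fin k}
    (h : (b, (c, i, j)) ∈ P) :
    (gr ι pos P).Adj (ι (c, pos b c, i)) (ι (c + 1, pos b (c + 1), j)) := by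
  unfold gr
  rw [SimpleGraph.fromEdgeSet_adj]
  refine ⟨⟨_, h, rfl⟩, ?_⟩
  intro h2
  have h4 := hι h2
  simp only [Prod.mk.injEq] at h4
  exact add_one_ne _ h4.1

lemma tri_of_clique (hι : Function.Injective ι)
    (h2 : ∀ b0 b1 b2, pos b0 0 = pos b2 0 → pos b0 1 = pos b1 1 → pos b1 2 = pos b2 2 →
      b0 = b1 ∧ b1 = b2) {P : Set (β × T k)} (h : ¬ (gr ι pos P).CliqueFree 3) : HasTri P := by
  unfold SimpleGraph.CliqueFree at h
  push Not at h
  obtain ⟨s, hs⟩ := h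
  rw [SimpleGraph.is3Clique_iff] at hs
  obtain ⟨x, y, z, hxy, hxz, hyz, -⟩ := hs
  obtain ⟨A, B, rfl, rfl, hAB⟩ := adj_gr hxy
  obtain ⟨A', C, hA', rfl, hAC⟩ := adj_gr hxz
  obtain ⟨B', C', hB', hC', hBC⟩ := adj_gr hyz
  obtain rfl := hι hA'
  obtain rfl := hι hB'
  obtain rfl := hι hC'
  have key : ∀ U V : Fin 3 × X × Fin k, (U = A ∨ U = B ∨ U = C) → (V = A ∨ V = B ∨ V = C) →
      U.1 ≠ V.1 → (gr ι pos P).Adj (ι U) (ι V) := by
    rintro U V (rfl | rfl | rfl) (rfl | rfl | rfl) hUV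
    · exact (hUV rfl).elim
    · exact hxy
    · exact hxz
    · exact hxy.symm
    · exact (hUV rfl).elim
    · exact hyz
    · exact hxz.symm
    · exact hyz.symm
    · exact (hUV rfl).elim
  have ex : ∀ d : Fin 3, ∃ U : Fin 3 × X × Fin k, (U = A ∨ U = B ∨ U = C) ∧ U.1 = d := by
    intro d
    rcases cover A.1 B.1 C.1 d hAB hAC hBC with h | h | h
    · exact ⟨A, Or.inl rfl, h.symm⟩
    · exact ⟨B, Or.inr (Or.inl rfl), h.symm⟩
    · exact ⟨C, Or.inr (Or.inr rfl), h.symm⟩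
  obtain ⟨⟨c0, α0, i0⟩, hU0, hc0⟩ := ex 0
  obtain ⟨⟨c1, α1, i1⟩, hU1, hc1⟩ := ex 1
  obtain ⟨⟨c2, α2, i2⟩, hU2, hc2⟩ := ex 2
  simp only at hc0 hc1 hc2
  subst hc0 hc1 hc2
  obtain ⟨b0, hb0, hp00, hp01⟩ := adj_part (c := 0) hι (key _ _ hU0 hU1 (show (0 : Fin 3) ≠ 1 by decide))
  obtain ⟨b1, hb1, hp11, hp12⟩ := adj_part (c := 1) hι (key _ _ hU1 hU2 (show (1 : Fin 3) ≠ 2 by decide))
  obtain ⟨b2, hb2, hp22, hp20⟩ := adj_part (c := 2) hι (key _ _ hU2 hU0 (show (2 : Fin 3) ≠ 0 by decide))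
  obtain ⟨e1, e2⟩ := h2 b0 b1 b2 (hp00.trans hp20.symm) (hp01.trans hp11.symm)
    (hp12.trans hp22.symm)
  subst e1 e2
  refine ⟨b0, (i0, i1, i2), ?_⟩
  intro e he
  unfold tri at he
  rcases he with rfl | rfl | rfl
  · exact hb0
  · exact hb1
  · exact hb2

lemma clique_of_tri (hι : Function.Injective ι) {P : Set (β × T k)} (h : HasTri P) :
    ¬ (gr ι pos P).CliqueFree 3 := by
  obtain ⟨b, ⟨i0, i1, i2⟩, h⟩ := h
  have h01 := part_adj (pos := pos) hι (h (0, i0, i1) (by unfold tri; simp))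
  have h12 := part_adj (pos := pos) hι (h (1, i1, i2) (by unfold tri; simp))
  have h20 := part_adj (pos := pos) hι (h (2, i2, i0) (by unfold tri; simp))
  intro hf
  refine hf {ι (0, pos b 0, i0), ι (1, pos b 1, i1), ι (2, pos b 2, i2)} ?_
  rw [SimpleGraph.is3Clique_triple_iff]
  exact ⟨h01, h20.symm, h12⟩

end RSZ

open RSZ

/-- **The module.** -/
theorem t_RSZ : S_RSZ := by
  intro q k v S hS hfree hv
  have hcard : Fintype.card (Fin 3 × Fin (3 * q) × Fin k) ≤ Fintype.card (Fin v) := by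
    simp only [Fintype.card_prod, Fintype.card_fin]
    calc 3 * (3 * q * k) = 9 * q * k := by ring
      _ ≤ v := hv
  obtain ⟨ι⟩ := Function.Embedding.nonempty_of_card_le hcard
  let pos : (Fin q × S) → Fin 3 → Fin (3 * q) := fun b c =>
    ⟨b.1.val + c.val * b.2.val, by
      have h1 := hS b.2 b.2.2
      have h2 := b.1.2
      have h3 : c.val * b.2.val ≤ 2 * b.2.val := Nat.mul_le_mul_right _ (by omega)
      omega⟩
  have hp : ∀ b c, (pos b c).val = b.1.val + c.val * b.2.val := fun b c => rfl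
  have h1 : ∀ b b' c, pos b c = pos b' c → pos b (c + 1) = pos b' (c + 1) → b = b' := by
    rintro ⟨x, a⟩ ⟨x', a'⟩ c e1 e2
    have e3 := congrArg Fin.val e1
    have e4 := congrArg Fin.val e2
    rw [hp, hp] at e3 e4
    have e5 : x.val = x'.val ∧ a.val = a'.val := by
      fin_cases c
      · simp at e3 e4
        omega
      · simp at e3 e4
        omega
      · simp at e3 e4
        omega
    rw [Prod.mk.injEq]
    exact ⟨Fin.ext e5.1, Subtype.ext e5.2⟩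
  have h2 : ∀ b0 b1 b2, pos b0 0 = pos b2 0 → pos b0 1 = pos b1 1 → pos b1 2 = pos b2 2 →
      b0 = b1 ∧ b1 = b2 := by
    rintro ⟨x0, a0⟩ ⟨x1, a1⟩ ⟨x2, a2⟩ e1 e2 e3
    have f1 := congrArg Fin.val e1
    have f2 := congrArg Fin.val e2
    have f3 := congrArg Fin.val e3
    rw [hp, hp] at f1 f2 f3
    simp at f1 f2 f3
    have f4 : a0.val + a1.val = a2.val + a2.val := by omega
    have f5 : a0.val = a2.val := hfree a0.2 a2.2 a1.2 f4
    have f6 : x0.val = x1.val ∧ a0.val = a1.val ∧ x1.val = x2.val ∧ a1.val = a2.val := by omega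
    rw [Prod.mk.injEq, Prod.mk.injEq]
    exact ⟨⟨Fin.ext f6.1, Subtype.ext f6.2.1⟩, Fin.ext f6.2.2.1, Subtype.ext f6.2.2.2⟩
  refine ⟨emb ι pos, emb_inj ι.injective h1, fun P => ⟨gr ι pos P, edgeSet_gr ι.injective P,
    tri_of_clique ι.injective h2, clique_of_tri ι.injective⟩⟩

end Pool.Agent.NegTri
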