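import Mathlib
import Pool.Agent.NegTri.Stmts

/-!
# The lower bound for one block
-/

set_option autoImplicit false

namespace Pool.Agent.NegTri

open Classical Finset

namespace TRI

variable {k : ℕ}

lemma mem_tri {t : Fin k × Fin k × Fin k} {e : T k} : e ∈ tri t ↔
    (e.1 = 0 ∧ e.2.1 = t.1 ∧ e.2.2 = t.2.1) ∨ (e.1 = 1 ∧ e.2.1 = t.2.1 ∧ e.2.2 = t.2.2) ∨
      (e.1 = 2 ∧ e.2.1 = t.2.2 ∧ e.2.2 = t.1) := by
  obtain ⟨c, i, j⟩ := e
  simp only [tri, Set.mem_insert_iff, Set.mem_singleton_iff, Prod.mk.injEq]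

/-- an edge lies in at most `k` triangles -/
lemma card_edge (e : T k) :
    (univ.filter (fun t : Fin k × Fin k × Fin k => e ∈ tri t)).card ≤ k := by
  have key : ∀ g : Fin k → Fin k × Fin k × Fin k,
      (∀ t : Fin k × Fin k × Fin k, e ∈ tri t → ∃ l, g l = t) →
      (univ.filter (fun t : Fin k × Fin k × Fin k => e ∈ tri t)).card ≤ k := by
    intro g hg
    have h1 : univ.filter (fun t : Fin k × Fin k × Fin k => e ∈ tri t) ⊆ univ.image g := by
      intro t ht
      rw [mem_filter] at ht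
      obtain ⟨l, hl⟩ := hg t ht.2
      exact mem_image.2 ⟨l, mem_univ _, hl⟩
    calc _ ≤ (univ.image g).card := card_le_card h1
      _ ≤ (univ : Finset (Fin k)).card := card_image_le
      _ = k := by simp
  obtain ⟨c, i, j⟩ := e
  have hc : c = 0 ∨ c = 1 ∨ c = 2 := by
    fin_cases c <;> simp
  rcases hc with rfl | rfl | rfl
  · refine key (fun l => (i, j, l)) fun t ht => ?_
    rw [mem_tri] at ht
    rcases ht with ⟨-, h1, h2⟩ | ⟨h0, -⟩ | ⟨h0, -⟩
    · exact ⟨t.2.2, by ext <;> simp_all⟩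
    · exact absurd h0 (by simp)
    · exact absurd h0 (by simp)
  · refine key (fun l => (l, i, j)) fun t ht => ?_
    rw [mem_tri] at ht
    rcases ht with ⟨h0, -⟩ | ⟨-, h1, h2⟩ | ⟨h0, -⟩
    · exact absurd h0 (by simp)
    · exact ⟨t.1, by ext <;> simp_all⟩
    · exact absurd h0 (by simp)
  · refine key (fun l => (j, l, i)) fun t ht => ?_
    rw [mem_tri] at ht
    rcases ht with ⟨h0, -⟩ | ⟨h0, -⟩ | ⟨-, h1, h2⟩
    · exact absurd h0 (by simp)
    · exact absurd h0 (by simp)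
    · exact ⟨t.2.1, by ext <;> simp_all⟩

/-- a pair lies in at most one triangle -/
lemma card_pair (q : Finset (T k)) (hq : q.card = 2) :
    (univ.filter (fun t : Fin k × Fin k × Fin k => ∀ e ∈ q, e ∈ tri t)).card ≤ 1 := by
  obtain ⟨e, f, hef, rfl⟩ := card_eq_two.1 hq
  rw [card_le_one]
  intro t ht t' ht'
  rw [mem_filter] at ht ht'
  have h1 := mem_tri.1 (ht.2 e (by simp))
  have h2 := mem_tri.1 (ht.2 f (by simp))
  have h3 := mem_tri.1 (ht'.2 e (by simp))
  have h4 := mem_tri.1 (ht'.2 f (by simp))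
  have hne : e.1 ≠ f.1 := by
    intro h
    apply hef
    rcases h1 with ⟨a1, a2, a3⟩ | ⟨a1, a2, a3⟩ | ⟨a1, a2, a3⟩ <;>
    rcases h2 with ⟨b1, b2, b3⟩ | ⟨b1, b2, b3⟩ | ⟨b1, b2, b3⟩ <;>
    first
    | exact Prod.ext h (Prod.ext (a2.trans b2.symm) (a3.trans b3.symm))
    | exact absurd (a1.symm.trans (h.trans b1)) (by decide)
  obtain ⟨x, y, z⟩ := t
  obtain ⟨x', y', z'⟩ := t'
  simp only at h1 h2 h3 h4
  rcases h1 with ⟨a1, a2, a3⟩ | ⟨a1, a2, a3⟩ | ⟨a1, a2, a3⟩ <;>
  rcases h3 with ⟨c1, c2, c3⟩ | ⟨c1, c2, c3⟩ | ⟨c1, c2, c3⟩ <;>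
  first
  | exact absurd (a1.symm.trans c1) (by decide)
  | (rcases h2 with ⟨b1, b2, b3⟩ | ⟨b1, b2, b3⟩ | ⟨b1, b2, b3⟩ <;>
     rcases h4 with ⟨d1, d2, d3⟩ | ⟨d1, d2, d3⟩ | ⟨d1, d2, d3⟩ <;>
     first
     | exact absurd (a1.trans b1.symm) hne
     | exact absurd (b1.symm.trans d1) (by decide)
     | (rw [a2] at c2; rw [a3] at c3; rw [b2] at d2; rw [b3] at d3; subst_vars; rfl))

lemma accT_le (D : Circ (T k)) : accT D ≤ k ^ 3 := by
  unfold accT
  calc _ ≤ (univ : Finset (Fin k × Fin k × Fin k)).card := card_filter_le _ _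
    _ = k ^ 3 := by simp [Fintype.card_prod]; ring

lemma card_col : (univ : Finset (Fin 3 × Fin k → Bool)).card = 2 ^ (3 * k) := by
  simp [Fintype.card_pi, Fintype.card_prod]

end TRI

open TRI

/-- The lower bound for one block. -/
theorem t_TRI : M_TRI := by
  intro hCRI hNEG k d hk hd D hneg hgap
  have hs : 2 ≤ 4 * d ^ 2 := by nlinarith
  obtain ⟨Cl, Dm, hCl, hDm, hClc, hDmc, hor⟩ := hCRI (T k) (4 * d ^ 2) hs D hneg
  have hk0 : (0 : ℝ) < (k : ℝ) ^ 3 := by
    have : (0 : ℝ) < k := by exact_mod_cast hk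
    positivity
  have hN0 : (0 : ℝ) < 2 ^ (3 * k) := by positivity
  rcases hor with h1 | ⟨F, hF, h2⟩
  · left
    -- the rejected colourings
    have hsub : (univ.filter (fun χ : Fin 3 × Fin k → Bool => ¬ D.Acc (bip χ))) ⊆
        Cl.biUnion (fun K => univ.filter
          (fun χ : Fin 3 × Fin k → Bool => ∀ e ∈ K, χ (e.1, e.2.1) = χ (e.1 + 1, e.2.2))) := by
      intro χ hχ
      rw [mem_filter] at hχ
      have h3 : ¬ HitAll Cl (bip χ) := fun h => hχ.2 (h1 _ h)
      unfold HitAll at h3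
      push Not at h3
      obtain ⟨K, hK, h4⟩ := h3
      rw [mem_biUnion]
      refine ⟨K, hK, ?_⟩
      rw [mem_filter]
      refine ⟨mem_univ _, fun e he => ?_⟩
      have := h4 e he
      by_contra hne
      exact this hne
    have hcard : (univ.filter (fun χ : Fin 3 × Fin k → Bool => ¬ D.Acc (bip χ))).card * 2 ^ d ≤
        (4 * d ^ 2 * D.size) * 2 ^ (3 * k) := by
      calc _ ≤ (∑ K ∈ Cl, (univ.filter
          (fun χ : Fin 3 × Fin k → Bool => ∀ e ∈ K, χ (e.1, e.2.1) = χ (e.1 + 1, e.2.2))).card) *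
            2 ^ d := Nat.mul_le_mul_right _ ((card_le_card hsub).trans card_biUnion_le)
        _ = ∑ K ∈ Cl, (univ.filter
          (fun χ : Fin 3 × Fin k → Bool => ∀ e ∈ K, χ (e.1, e.2.1) = χ (e.1 + 1, e.2.2))).card *
            2 ^ d := Finset.sum_mul _ _ _
        _ ≤ ∑ K ∈ Cl, 2 ^ (3 * k) := by
            refine sum_le_sum fun K hK => ?_
            exact hNEG k d K (by rw [hCl K hK])
        _ = Cl.card * 2 ^ (3 * k) := by rw [sum_const, smul_eq_mul]
        _ ≤ _ := Nat.mul_le_mul_right _ hClc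
    have htot : accB D + (univ.filter (fun χ : Fin 3 × Fin k → Bool => ¬ D.Acc (bip χ))).card =
        2 ^ (3 * k) := by
      rw [← card_col (k := k)]
      unfold accB
      exact card_filter_add_card_filter_not (s := (univ : Finset (Fin 3 × Fin k → Bool)))
        (fun χ => D.Acc (bip χ))
    set R := (univ.filter (fun χ : Fin 3 × Fin k → Bool => ¬ D.Acc (bip χ))).card with hR
    have h5 : (accT D : ℝ) / (k : ℝ) ^ 3 ≤ 1 := by
      rw [div_le_one hk0]
      exact_mod_cast accT_le D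
    have h6 : (accB D : ℝ) / 2 ^ (3 * k) ≤ 11 / 12 := by
      unfold Gap at hgap
      linarith
    rw [div_le_iff₀ hN0] at h6
    have h7 : (accB D : ℝ) + R = 2 ^ (3 * k) := by exact_mod_cast htot
    have h8 : (2 : ℝ) ^ (3 * k) ≤ 12 * R := by linarith
    have h9 : (R : ℝ) * 2 ^ d ≤ (4 * d ^ 2 * D.size) * 2 ^ (3 * k) := by exact_mod_cast hcard
    have h10 : (2 : ℝ) ^ d * 2 ^ (3 * k) ≤ (48 * d ^ 2 * D.size) * 2 ^ (3 * k) := by
      have h11 : (0 : ℝ) < 2 ^ d := by positivity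
      calc (2 : ℝ) ^ d * 2 ^ (3 * k) ≤ 2 ^ d * (12 * R) := by
            exact mul_le_mul_of_nonneg_left h8 h11.le
        _ = 12 * ((R : ℝ) * 2 ^ d) := by ring
        _ ≤ 12 * ((4 * d ^ 2 * D.size) * 2 ^ (3 * k)) := by linarith
        _ = _ := by ring
    have h12 := le_of_mul_le_mul_right h10 hN0
    exact_mod_cast h12
  · right
    have hsub : (univ.filter (fun t : Fin k × Fin k × Fin k => D.Acc (tri t))) ⊆
        F.biUnion (fun e => univ.filter (fun t : Fin k × Fin k × Fin k => e ∈ tri t)) ∪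
        Dm.biUnion (fun q => univ.filter
          (fun t : Fin k × Fin k × Fin k => ∀ e ∈ q, e ∈ tri t)) := by
      intro t ht
      rw [mem_filter] at ht
      rw [mem_union, mem_biUnion, mem_biUnion]
      rcases h2 _ ht.2 with ⟨e, he, h3⟩ | ⟨q, hq, h3⟩
      · left
        exact ⟨e, he, by rw [mem_filter]; exact ⟨mem_univ _, h3⟩⟩
      · right
        exact ⟨q, hq, by rw [mem_filter]; exact ⟨mem_univ _, h3⟩⟩
    have h3 : accT D ≤ 4 * d ^ 2 * k + (4 * d ^ 2) ^ 2 * D.size := by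
      unfold accT
      calc _ ≤ (F.biUnion (fun e => univ.filter
            (fun t : Fin k × Fin k × Fin k => e ∈ tri t)) ∪
          Dm.biUnion (fun q => univ.filter
            (fun t : Fin k × Fin k × Fin k => ∀ e ∈ q, e ∈ tri t))).card := card_le_card hsub
        _ ≤ (F.biUnion (fun e => univ.filter
            (fun t : Fin k × Fin k × Fin k => e ∈ tri t))).card +
          (Dm.biUnion (fun q => univ.filter
            (fun t : Fin k × Fin k × Fin k => ∀ e ∈ q, e ∈ tri t))).card := card_union_le _ _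
        _ ≤ F.card * k + Dm.card * 1 := by
            refine Nat.add_le_add ?_ ?_
            · exact card_biUnion_le_card_mul _ _ _ fun e _ => card_edge e
            · exact card_biUnion_le_card_mul _ _ _ fun q hq => card_pair q (hDm q hq)
        _ ≤ 4 * d ^ 2 * k + (4 * d ^ 2) ^ 2 * D.size := by
            refine Nat.add_le_add (Nat.mul_le_mul_right _ hF.le) ?_
            rw [mul_one]
            exact hDmc
    have h4 : (0 : ℝ) ≤ (accB D : ℝ) / 2 ^ (3 * k) := by positivity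
    have h5 : (1 : ℝ) / 12 ≤ (accT D : ℝ) / (k : ℝ) ^ 3 := by
      unfold Gap at hgap
      linarith
    rw [le_div_iff₀ hk0] at h5
    have h6 : ((k ^ 3 : ℕ) : ℝ) ≤ ((12 * accT D : ℕ) : ℝ) := by
      push_cast
      linarith
    have h7 : k ^ 3 ≤ 12 * accT D := by exact_mod_cast h6
    calc k ^ 3 ≤ 12 * accT D := h7
      _ ≤ 12 * (4 * d ^ 2 * k + (4 * d ^ 2) ^ 2 * D.size) := Nat.mul_le_mul_left _ h3
      _ = 48 * d ^ 2 * k + 192 * d ^ 4 * D.size := by ring

end Pool.Agent.NegTri
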