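import Pool.Agent.NegTri.GMO
import Pool.Agent.NegTri.GMX
import Pool.Agent.NegTri.GMN
import Pool.Agent.NegTri.CRI
import Pool.Agent.NegTri.NEG
import Pool.Agent.NegTri.TRI
import Pool.Agent.NegTri.GUE
import Pool.Agent.NegTri.RST
import Pool.Agent.NegTri.AVG
import Pool.Agent.NegTri.RSZ
import Pool.Agent.NegTri.COR
import Pool.Agent.NegTri.LRG
import Pool.Agent.NegTri.ASY
import Pool.Agent.NegTri.FIN

/-!
# Randomised real circuits with few NOT gates that detect triangles: assembly
-/

set_option autoImplicit false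

namespace Pool.Agent.NegTri

/-- The main theorem. -/
theorem t_MAIN : S_MAIN :=
  t_FIN (t_COR t_RST (t_AVG t_GUE t_RST) (t_TRI (t_CRI t_GMO t_GMX t_GMN) t_NEG) t_RSZ)
    (t_ASY t_LRG)

end Pool.Agent.NegTri
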